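import Pool.Agent.Lib.MP_1301ff_gt.Vol

set_option autoImplicit false

namespace Pool.Agent.Lib.MP_1301ff_gt

open Filter Topology Matrix Set MeasureTheory
open scoped ContDiff

variable {m n : ℕ}

def fs (z : Fin (m + n) → ℝ) : Fin m → ℝ := fun i => z (Fin.castAdd n i)

def sn (z : Fin (m + n) → ℝ) : Fin n → ℝ := fun j => z (Fin.natAdd m j)

theorem contDiff_fs {k : ℕ∞ω} : ContDiff ℝ k (fs : (Fin (m + n) → ℝ) → Fin m → ℝ) :=
  contDiff_pi.2 fun _ => contDiff_apply ℝ ℝ _

theorem contDiff_sn {k : ℕ∞ω} : ContDiff ℝ k (sn : (Fin (m + n) → ℝ) → Fin n → ℝ) :=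
  contDiff_pi.2 fun _ => contDiff_apply ℝ ℝ _

theorem fs_append (x : Fin m → ℝ) (y : Fin n → ℝ) : fs (Fin.append x y) = x :=
  funext fun i => Fin.append_left x y i

theorem sn_append (x : Fin m → ℝ) (y : Fin n → ℝ) : sn (Fin.append x y) = y :=
  funext fun i => Fin.append_right x y i

theorem cast_ne_nat (i : Fin m) (j : Fin n) : Fin.castAdd n i ≠ Fin.natAdd m j := fun h => by
  have := congrArg Fin.val h
  simp at this
  omega

section pd

variable {z : Fin (m + n) → ℝ}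

theorem pd_fs_l {f : (Fin m → ℝ) → ℝ} (hf : DifferentiableAt ℝ f (fs z)) (i : Fin m) :
    pd (Fin.castAdd n i) (fun z => f (fs z)) z = pd i f (fs z) := by
  rw [pd_comp hf ((contDiff_fs (k := 1)).differentiable_one z)]
  simp [Jac, fs, pd_coord]

theorem pd_fs_r {f : (Fin m → ℝ) → ℝ} (hf : DifferentiableAt ℝ f (fs z)) (i : Fin n) :
    pd (Fin.natAdd m i) (fun z => f (fs z)) z = 0 := by
  rw [pd_comp hf ((contDiff_fs (k := 1)).differentiable_one z)]
  simp [Jac, fs, pd_coord, cast_ne_nat]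

theorem pd_sn_l {f : (Fin n → ℝ) → ℝ} (hf : DifferentiableAt ℝ f (sn z)) (i : Fin m) :
    pd (Fin.castAdd n i) (fun z => f (sn z)) z = 0 := by
  rw [pd_comp hf ((contDiff_sn (k := 1)).differentiable_one z)]
  simp [Jac, sn, pd_coord, (cast_ne_nat _ _).symm]

theorem pd_sn_r {f : (Fin n → ℝ) → ℝ} (hf : DifferentiableAt ℝ f (sn z)) (i : Fin n) :
    pd (Fin.natAdd m i) (fun z => f (sn z)) z = pd i f (sn z) := by
  rw [pd_comp hf ((contDiff_sn (k := 1)).differentiable_one z)]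
  simp [Jac, sn, pd_coord]

end pd

/-- Block diagonal matrices. -/
def blk (A : Matrix (Fin m) (Fin m) ℝ) (B : Matrix (Fin n) (Fin n) ℝ) :
    Matrix (Fin (m + n)) (Fin (m + n)) ℝ :=
  (fromBlocks A 0 0 B).submatrix finSumFinEquiv.symm finSumFinEquiv.symm

section blk

variable {A A' : Matrix (Fin m) (Fin m) ℝ} {B B' : Matrix (Fin n) (Fin n) ℝ}

@[simp] theorem blk_ll (a b : Fin m) : blk A B (Fin.castAdd n a) (Fin.castAdd n b) = A a b := by
  simp [blk]

@[simp] theorem blk_lr (a : Fin m) (b : Fin n) :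
    blk A B (Fin.castAdd n a) (Fin.natAdd m b) = 0 := by
  simp [blk]

@[simp] theorem blk_rl (a : Fin n) (b : Fin m) :
    blk A B (Fin.natAdd m a) (Fin.castAdd n b) = 0 := by
  simp [blk]

@[simp] theorem blk_rr (a b : Fin n) : blk A B (Fin.natAdd m a) (Fin.natAdd m b) = B a b := by
  simp [blk]

theorem blk_ext {C D : Matrix (Fin (m + n)) (Fin (m + n)) ℝ}
    (h1 : ∀ a b, C (Fin.castAdd n a) (Fin.castAdd n b) = D (Fin.castAdd n a) (Fin.castAdd n b))
    (h2 : ∀ a b, C (Fin.castAdd n a) (Fin.natAdd m b) = D (Fin.castAdd n a) (Fin.natAdd m b))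
    (h3 : ∀ a b, C (Fin.natAdd m a) (Fin.castAdd n b) = D (Fin.natAdd m a) (Fin.castAdd n b))
    (h4 : ∀ a b, C (Fin.natAdd m a) (Fin.natAdd m b) = D (Fin.natAdd m a) (Fin.natAdd m b)) :
    C = D := by
  ext a b
  induction a using Fin.addCases <;> induction b using Fin.addCases <;> simp [*]

theorem blk_mul : blk A B * blk A' B' = blk (A * A') (B * B') := by
  simp [blk, fromBlocks_multiply]

theorem blk_add : blk A B + blk A' B' = blk (A + A') (B + B') := by
  apply blk_ext <;> simp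

theorem blk_sub : blk A B - blk A' B' = blk (A - A') (B - B') := by
  apply blk_ext <;> simp

theorem blk_smul (c : ℝ) : c • blk A B = blk (c • A) (c • B) := by
  apply blk_ext <;> simp

theorem blk_tr : (blk A B)ᵀ = blk Aᵀ Bᵀ := by
  apply blk_ext <;> simp

theorem det_blk : (blk A B).det = A.det * B.det := by
  simp [blk]

theorem posDef_blk (hA : A.PosDef) (hB : B.PosDef) : (blk A B).PosDef := by
  refine PosDef.of_dotProduct_mulVec_pos ?_ fun v hv => ?_
  · have h1 := hA.isHermitian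
    have h2 := hB.isHermitian
    rw [IsHermitian, conjTranspose_eq_transpose_of_trivial] at *
    rw [blk_tr, h1, h2]
  · have e : star v ⬝ᵥ blk A B *ᵥ v = star (fs v) ⬝ᵥ A *ᵥ fs v + star (sn v) ⬝ᵥ B *ᵥ sn v := by
      simp [dotProduct, mulVec, Fin.sum_univ_add, fs, sn]
    have h1 := hA.posSemidef.dotProduct_mulVec_nonneg (fs v)
    have h2 := hB.posSemidef.dotProduct_mulVec_nonneg (sn v)
    rw [e]
    by_cases h : fs v = 0
    · refine add_pos_of_nonneg_of_pos h1 (hB.dotProduct_mulVec_pos fun h' => hv ?_)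
      funext a
      induction a using Fin.addCases with
      | left a => exact congrFun h a
      | right a => exact congrFun h' a
    · exact add_pos_of_pos_of_nonneg (hA.dotProduct_mulVec_pos h) h2

end blk

theorem CD_blk {k : ℕ∞ω} {A : (Fin (m + n) → ℝ) → Matrix (Fin m) (Fin m) ℝ}
    {B : (Fin (m + n) → ℝ) → Matrix (Fin n) (Fin n) ℝ} {z : Fin (m + n) → ℝ}
    (hA : ∀ a b, ContDiffAt ℝ k (fun y => A y a b) z)
    (hB : ∀ a b, ContDiffAt ℝ k (fun y => B y a b) z) : CD k (fun y => blk (A y) (B y)) z := by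
  intro a b
  induction a using Fin.addCases <;> induction b using Fin.addCases <;>
    simp [hA, hB, contDiffAt_const]

/-- The product of two metrics in coordinates. -/
def pm (A : MF m) (B : MF n) : MF (m + n) := fun z => blk (A (fs z)) (B (sn z))

theorem pdM_pm_l {A : MF m} {B : MF n} {z : Fin (m + n) → ℝ} (hA : CD 1 A (fs z))
    (hB : CD 1 B (sn z)) (i : Fin m) :
    pdM (Fin.castAdd n i) (pm A B) z = blk (pdM i A (fs z)) 0 := by
  apply blk_ext <;> intro a b <;>
    simp [pdM, pm, pd_const, pd_fs_l (hA.diff _ _), pd_sn_l (hB.diff _ _)]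

theorem pdM_pm_r {A : MF m} {B : MF n} {z : Fin (m + n) → ℝ} (hA : CD 1 A (fs z))
    (hB : CD 1 B (sn z)) (i : Fin n) :
    pdM (Fin.natAdd m i) (pm A B) z = blk 0 (pdM i B (sn z)) := by
  apply blk_ext <;> intro a b <;>
    simp [pdM, pm, pd_const, pd_fs_r (hA.diff _ _), pd_sn_r (hB.diff _ _)]

theorem CD_zero {k : ℕ∞ω} (x : Fin n → ℝ) : CD k (fun _ => 0) x := fun _ _ => contDiffAt_const

theorem pdM_zero (i : Fin n) (x : Fin n → ℝ) : pdM i (fun _ => 0) x = 0 := by
  ext a b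
  exact pd_const _

theorem Gam_pm {A : MF m} {B : MF n} (hA : ∀ x, CD 1 A x) (hB : ∀ x, CD 1 B x)
    (sA : ∀ x, (A x)ᵀ = A x) (sB : ∀ x, (B x)ᵀ = B x) (dA : ∀ x, (A x).det ≠ 0)
    (dB : ∀ x, (B x).det ≠ 0) :
    Gam (pm A B) = Fin.addCases (fun i => pm (Gam A i) fun _ => 0)
      (fun i => pm (fun _ => 0) (Gam B i)) := by
  funext i z
  rw [Gam_unique (G := pm A B) (B := fun i => (Fin.addCases (motive := fun _ => MF (m + n))
    (fun i => pm (Gam A i) fun _ => 0) (fun i => pm (fun _ => 0) (Gam B i)) i) z)]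
  · rw [pm, blk_tr, sA, sB]
  · rw [pm, det_blk]
    exact mul_ne_zero (dA _) (dB _)
  · intro k i j
    induction k using Fin.addCases <;> induction i using Fin.addCases <;>
      induction j using Fin.addCases <;> simp [pm]
    · exact Gam_symm sA _ _ _ _
    · exact Gam_symm sB _ _ _ _
  · intro i
    induction i using Fin.addCases with
    | left i =>
      rw [pdM_pm_l (hA _) (hB _), Gam_compat sA (dA _)]
      simp [pm, blk_tr, blk_mul, blk_add]
    | right i =>
      rw [pdM_pm_r (hA _) (hB _), Gam_compat sB (dB _)]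
      simp [pm, blk_tr, blk_mul, blk_add]

theorem Ric_pm {A : MF m} {B : MF n} (hA : ∀ x, CD 2 A x) (hB : ∀ x, CD 2 B x)
    (sA : ∀ x, (A x)ᵀ = A x) (sB : ∀ x, (B x)ᵀ = B x) (dA : ∀ x, (A x).det ≠ 0)
    (dB : ∀ x, (B x).det ≠ 0) (z : Fin (m + n) → ℝ) :
    Matrix.of (Ric (pm A B) z) = blk (Matrix.of (Ric A (fs z))) (Matrix.of (Ric B (sn z))) := by
  have cA : ∀ i x, CD 1 (Gam A i) x := fun i x => (hA x).Gam (by norm_num) (dA x) i
  have cB : ∀ i x, CD 1 (Gam B i) x := fun i x => (hB x).Gam (by norm_num) (dB x) i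
  have e := Gam_pm (fun x => (hA x).of_le (by norm_num)) (fun x => (hB x).of_le (by norm_num))
    sA sB dA dB
  have e1 : ∀ i j, Om (Gam (pm A B)) (Fin.castAdd n i) (Fin.castAdd n j) z =
      blk (Om (Gam A) i j (fs z)) 0 := fun i j => by
    simp only [e, Om, Fin.addCases_left, pdM_pm_l (cA _ _) (CD_zero _)]
    simp [pm, blk_mul, blk_add, blk_sub]
  have e2 : ∀ i j, Om (Gam (pm A B)) (Fin.castAdd n i) (Fin.natAdd m j) z = blk 0 0 :=
    fun i j => by
    simp only [e, Om, Fin.addCases_left, Fin.addCases_right, pdM_pm_l (CD_zero _) (cB _ _),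
      pdM_pm_r (cA _ _) (CD_zero _), pdM_zero]
    simp [pm, blk_mul]
    apply blk_ext <;> simp
  have e3 : ∀ i j, Om (Gam (pm A B)) (Fin.natAdd m i) (Fin.castAdd n j) z = blk 0 0 :=
    fun i j => by
    simp only [e, Om, Fin.addCases_left, Fin.addCases_right, pdM_pm_l (CD_zero _) (cB _ _),
      pdM_pm_r (cA _ _) (CD_zero _), pdM_zero]
    simp [pm, blk_mul]
    apply blk_ext <;> simp
  have e4 : ∀ i j, Om (Gam (pm A B)) (Fin.natAdd m i) (Fin.natAdd m j) z =
      blk 0 (Om (Gam B) i j (sn z)) := fun i j => by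
    simp only [e, Om, Fin.addCases_right, pdM_pm_r (CD_zero _) (cB _ _)]
    simp [pm, blk_mul, blk_add, blk_sub]
  apply blk_ext <;> intro a b <;> simp [Ric_eq, Fin.sum_univ_add, e1, e2, e3, e4]

theorem Jac_append {φ : (Fin m → ℝ) → Fin m → ℝ} {ψ : (Fin n → ℝ) → Fin n → ℝ}
    {z : Fin (m + n) → ℝ} (hφ : DifferentiableAt ℝ φ (fs z)) (hψ : DifferentiableAt ℝ ψ (sn z)) :
    Jac (fun z => Fin.append (φ (fs z)) (ψ (sn z))) z = blk (Jac φ (fs z)) (Jac ψ (sn z)) := by
  have h1 := differentiableAt_pi.1 hφ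
  have h2 := differentiableAt_pi.1 hψ
  apply blk_ext <;> intro a b <;>
    simp [Jac, pd_fs_l (h1 _), pd_fs_r (h1 _), pd_sn_l (h2 _), pd_sn_r (h2 _)]

theorem measurePreserving_split :
    MeasurePreserving (fun z : Fin (m + n) → ℝ => (fs z, sn z)) volume volume :=
  (volume_measurePreserving_sumPiEquivProdPi (fun _ : Fin m ⊕ Fin n => ℝ)).comp
    (volume_measurePreserving_piCongrLeft (fun _ : Fin (m + n) => ℝ) finSumFinEquiv).symm

theorem lintegral_split {f : (Fin m → ℝ) → ENNReal} {g : (Fin n → ℝ) → ENNReal}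
    (hf : Measurable f) (hg : Measurable g) :
    ∫⁻ z : Fin (m + n) → ℝ, f (fs z) * g (sn z) = (∫⁻ x, f x) * ∫⁻ y, g y := by
  rw [← lintegral_prod_mul hf.aemeasurable hg.aemeasurable]
  exact measurePreserving_split.lintegral_comp
    (f := fun q : (Fin m → ℝ) × (Fin n → ℝ) => f q.1 * g q.2) (by fun_prop)

theorem dens_pm (A : MF m) (B : MF n) (z : Fin (m + n) → ℝ) (hA : 0 ≤ (A (fs z)).det) :
    dens (pm A B) z = dens A (fs z) * dens B (sn z) := by
  rw [dens, pm, det_blk, Real.sqrt_mul hA, ENNReal.ofReal_mul (Real.sqrt_nonneg _), dens, dens]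

end Pool.Agent.Lib.MP_1301ff_gt
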