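import Pool.Agent.Lib.MP_1301ff_gt.Shoot2

set_option autoImplicit false

namespace Pool.Agent.Lib.MP_1301ff_gt

open Set Filter Topology Real Metric MeasureTheory
open scoped ContDiff NNReal

/-- Profile functions `f = e^F`, `h = e^K` of a smooth Einstein metric
`f² (dξ² + g_{S²}) + h² g_{S²}` on `S³ × S²` with Einstein constant `4`. -/
structure Profile (F K X Y : ℝ → ℝ) : Prop where
  fk : ∀ t, FK F K X Y t
  con : ∀ t, conI (F t) (K t) (X t) (Y t) = 0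
  evF : ∀ t, F (-t) = F t
  evK : ∀ t, K (-t) = K t
  near : ∃ δ > 0, ∃ α β : ℝ → ℝ, (∀ τ ∈ Ioo (-δ) δ, ContDiffAt ℝ ∞ α τ ∧ ContDiffAt ℝ ∞ β τ) ∧
    ∀ t, exp (2 * t) < δ → F t = t + α (exp (2 * t)) ∧ K t = β (exp (2 * t))
  int : Integrable fun t => exp (3 * F t + 2 * K t)

/-- Half solutions, from the singular orbit to the maximal volume orbit. -/
theorem exists_half {γ : ℝ} (hγ : 0 < γ) :
    ∃ (ξ₀ T δ ε : ℝ) (α β X Y : ℝ → ℝ) (z : ℝ → R4), 0 < δ ∧ 0 ≤ T ∧ 0 < ε ∧ ε ≤ γ ∧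
      (∀ τ ∈ Ioo (-δ) δ, ContDiffAt ℝ ∞ α τ ∧ ContDiffAt ℝ ∞ β τ) ∧
      (∀ t ≤ ξ₀, exp (2 * t) < δ ∧
        FK (fun ξ => ξ + α (exp (2 * ξ))) (fun ξ => β (exp (2 * ξ))) X Y t ∧
        conI (t + α (exp (2 * t))) (β (exp (2 * t))) (X t) (Y t) = 0 ∧
        exp (3 * (t + α (exp (2 * t))) + 2 * β (exp (2 * t))) ≤ ε * exp (3 * (t - ξ₀))) ∧
      z 0 = st (ξ₀ + α (exp (2 * ξ₀))) (β (exp (2 * ξ₀))) (X ξ₀) (Y ξ₀) ∧
      (∀ t ∈ Icc 0 T, HasDerivAt z (VF (z t)) t ∧ con (z t) = 0 ∧ 0 < (z t).2.2.2) ∧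
      (z T).2.1 = 0 ∧ (z T).2.2.1 = 0 ∧
      π / 48 < ∫ s in (0 : ℝ)..T, (z s).2.2.2 ^ 5 * exp ((z s).1 / 2) ∧
      ∫ s in (0 : ℝ)..T, (z s).2.2.2 ^ 5 * exp ((z s).1 / 2) < π / 48 + γ := by
  obtain ⟨δ, hδ0, hδ1, X, Y, α, β, hsm, hcont, hFK⟩ := exists_FK
  set ξ₀ := min (-2) (log (δ / 2) / 2) with hξ₀
  have hξ2 : ξ₀ ≤ -2 := min_le_left _ _
  have hξδ : ∀ t ≤ ξ₀, exp (2 * t) < δ := fun t ht => by
    have : 2 * t ≤ log (δ / 2) := by linarith [min_le_right (-2) (log (δ / 2) / 2)]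
    have := exp_le_exp.2 this
    rw [exp_log (by positivity)] at this
    linarith
  have hI : ∀ ε ∈ Ioo 0 δ, ∀ t ≤ ξ₀,
      conI (t + α ε (exp (2 * t))) (β ε (exp (2 * t))) (X ε t) (Y ε t) = 0 := by
    intro ε hε
    refine conI_zero (C := 20) (fun t ht => (hFK ε hε t (hξδ t ht)).1) fun t ht => ?_
    obtain ⟨-, b1, b2, b3, b4, b5⟩ := hFK ε hε t (hξδ t ht)
    have b6 := exp_pos (2 * t)
    have b7 := hξδ t ht
    have b8 := exp_pos (2 * α ε (exp (2 * t)))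
    have b9 := exp_pos (2 * β ε (exp (2 * t)))
    have e1 : exp (2 * (t + α ε (exp (2 * t)))) = exp (2 * t) * exp (2 * α ε (exp (2 * t))) := by
      rw [mul_add, exp_add]
    have e2 : exp (2 * (t + α ε (exp (2 * t))) + 4 * β ε (exp (2 * t))) =
        exp (2 * t) * (exp (2 * α ε (exp (2 * t))) * exp (2 * β ε (exp (2 * t))) ^ 2) := by
      rw [← exp_nat_mul, ← exp_add, ← exp_add]; congr 1; push_cast; ring
    have e3 : exp (2 * (t + α ε (exp (2 * t))) - 2 * β ε (exp (2 * t))) ≤ 1 :=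
      exp_le_one_iff.2 (by linarith [(abs_le.1 b5).2])
    have e4 := exp_pos (2 * (t + α ε (exp (2 * t))) - 2 * β ε (exp (2 * t)))
    have hε1 : ε ≤ 1 := by linarith [hε.2]
    have e5 : exp (2 * α ε (exp (2 * t))) * exp (2 * β ε (exp (2 * t))) ^ 2 ≤ 1 :=
      mul_le_one₀ (b3.trans hε1) (sq_nonneg _) (pow_le_one₀ b9.le (b4.trans hε1))
    have e6 : exp (2 * t) * exp (2 * α ε (exp (2 * t))) ≤ 1 :=
      mul_le_one₀ (by linarith) b8.le (b3.trans hε1)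
    have e7 : |conI (t + α ε (exp (2 * t))) (β ε (exp (2 * t))) (X ε t) (Y ε t)| ≤ 20 := by
      rw [conI, e1, abs_le]
      have := abs_le.1 b1
      have := abs_le.1 b2
      have := mul_pos b6 b8
      constructor <;> nlinarith
    rw [abs_mul, e2, abs_of_pos (by positivity : 0 < exp (2 * t) * _)]
    exact mul_le_mul e7 (mul_le_of_le_one_right b6.le e5) (by positivity) (by norm_num)
  set B₀ := 6 * exp (1 - ξ₀) with hB₀
  obtain ⟨Φ, T, hΦ0, hΦc, hS⟩ := exists_shoot B₀ (by positivity)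
  have hB : 1 ≤ 2 + B₀ := by have : 0 < B₀ := by positivity
                             linarith
  set z₀ : ℝ → R4 := fun ε =>
    st (ξ₀ + α ε (exp (2 * ξ₀))) (β ε (exp (2 * ξ₀))) (X ε ξ₀) (Y ε ξ₀) with hz₀
  have cz : ContinuousOn z₀ (Ioo 0 δ) := by
    obtain ⟨c1, c2, c3, c4⟩ := hcont ξ₀ (hξδ ξ₀ le_rfl)
    simp only [hz₀, st]
    fun_prop
  have hz : ∀ ε ∈ Ioo 0 δ, con (z₀ ε) = 0 ∧ 0 < (z₀ ε).2.2.1 ∧ 0 < (z₀ ε).2.2.2 ∧
      en (z₀ ε).1 (z₀ ε).2.1 ≤ B₀ ∧ (z₀ ε).1 ≤ -1 ∧ (z₀ ε).2.2.2 ^ 2 ≤ ε := by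
    intro ε hε
    obtain ⟨-, b1, b2, b3, b4, b5⟩ := hFK ε hε ξ₀ (hξδ ξ₀ le_rfl)
    have b1 := abs_le.1 b1
    have b2 := abs_le.1 b2
    have b5 := abs_le.1 b5
    refine ⟨con_st (hI ε hε ξ₀ le_rfl), mul_pos (exp_pos _) (by linarith), exp_pos _, ?_, ?_, ?_⟩
    · simp only [hz₀, st, en]
      set u := ξ₀ + α ε (exp (2 * ξ₀)) - β ε (exp (2 * ξ₀)) with hu
      have e1 : exp (-(u / 2)) ^ 2 = exp (-u) := by rw [← exp_nat_mul]; congr 1; push_cast; ring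
      have e2 : exp (-u) ≤ exp (1 - ξ₀) := exp_le_exp.2 (by linarith)
      have e3 : exp u ≤ exp (1 - ξ₀) := exp_le_exp.2 (by linarith)
      have e4 : (X ε ξ₀ - Y ε ξ₀) ^ 2 ≤ 2 := by nlinarith
      rw [mul_pow, e1, cosh_eq]
      have := mul_le_mul e2 e4 (sq_nonneg _) (exp_pos _).le
      linarith
    · simp only [hz₀, st]; linarith
    · simp only [hz₀, st]
      have e1 : (exp ((ξ₀ + α ε (exp (2 * ξ₀)) + β ε (exp (2 * ξ₀))) / 2) ^ 2) ^ 2 =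
          exp (2 * ξ₀) * (exp (2 * α ε (exp (2 * ξ₀))) * exp (2 * β ε (exp (2 * ξ₀)))) := by
        rw [← exp_nat_mul, ← exp_nat_mul, ← exp_add, ← exp_add]; congr 1; push_cast; ring
      have e2 : exp (2 * α ε (exp (2 * ξ₀))) * exp (2 * β ε (exp (2 * ξ₀))) ≤ ε * ε :=
        mul_le_mul b3 b4 (exp_pos _).le hε.1.le
      have e3 : exp (2 * ξ₀) ≤ 1 := exp_le_one_iff.2 (by linarith)
      refine (pow_le_pow_iff_left₀ (sq_nonneg _) hε.1.le two_ne_zero).1 ?_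
      rw [e1]
      have := mul_le_mul e3 e2 (by positivity) zero_le_one
      nlinarith
  have hS' := fun ε hε => hS (z₀ ε) (hz ε hε).1 (hz ε hε).2.1 (hz ε hε).2.2.1 (hz ε hε).2.2.2.1
  have he0 : ∀ ε ∈ Ioo 0 δ, 1 / 100 ≤ en (Φ (z₀ ε) 0).1 (Φ (z₀ ε) 0).2.1 := fun ε hε => by
    rw [hΦ0]
    have := en_ge (z₀ ε).1 (z₀ ε).2.1
    nlinarith [(hz ε hε).2.2.2.2.1, sq_nonneg (z₀ ε).2.1]
  have cT : ContinuousOn (fun ε => T (z₀ ε)) (Ioo 0 δ) :=
    continuousOn_hit (Φy := fun ε t => (Φ (z₀ ε) t).2.2.1)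
      (fun t ht => (hΦc.comp (cz.prodMk continuousOn_const) fun ε _ => ⟨trivial, ht⟩).snd.snd.fst)
      (fun ε hε => (hS' ε hε).1.hT) (fun ε hε => (hS' ε hε).2.2.1) (fun ε hε => (hS' ε hε).2.2.2)
  set wv : R4 → ℝ := fun z => exp (z.1 / 2) * om z.1 z.2.1 z.2.2.1 with hwv
  set g : Ioo 0 δ → ℝ → ℝ := fun ε s => wv (Φ (z₀ ε) (max 0 (min s (T (z₀ ε))))) with hg
  have hcl : ∀ (ε : Ioo 0 δ) (s : ℝ), max 0 (min s (T (z₀ ε))) ∈ Icc 0 (T (z₀ ε)) := fun ε s =>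
    ⟨le_max_left _ _, max_le (hS' ε ε.2).1.hT (min_le_right _ _)⟩
  have cT' : Continuous fun ε : Ioo 0 δ => T (z₀ ε) := cT.domRestrict
  have cz' : Continuous fun ε : Ioo 0 δ => z₀ ε := cz.domRestrict
  have cg : Continuous g.uncurry := by
    have c1 : Continuous fun q : Ioo 0 δ × ℝ => Φ (z₀ q.1) (max 0 (min q.2 (T (z₀ q.1)))) :=
      hΦc.comp_continuous (f := fun q : Ioo 0 δ × ℝ => (z₀ q.1, max 0 (min q.2 (T (z₀ q.1)))))
        ((cz'.comp continuous_fst).prodMk (continuous_const.max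
          (continuous_snd.min (cT'.comp continuous_fst)))) fun q => ⟨trivial, (hcl q.1 q.2).1⟩
    obtain ⟨c2, c3, c4⟩ := And.intro c1.fst (And.intro c1.snd.fst c1.snd.snd.fst)
    refine Continuous.mul (c2.div_const 2).rexp (Continuous.div
      (((c3.pow 2).add ((continuous_const.mul c4).mul (c2.mul c3))).add
        (continuous_const.mul (c2.mul (continuous_sinh.comp c2)))).neg
      ((c2.pow 2).add (c3.pow 2)) fun q => ?_)
    exact (sq_add_sq_pos ((hS' q.1 q.1.2).1.en_pos hB (by linarith [he0 q.1 q.1.2]) _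
      (hcl q.1 q.2))).ne'
  set θ : Ioo 0 δ → ℝ → ℝ := fun ε t =>
    arctan ((z₀ ε).2.1 / (z₀ ε).1) + ∫ s in (0 : ℝ)..t, g ε s with hθ
  have dθ : ∀ ε : Ioo 0 δ, ∀ t ∈ Icc 0 (T (z₀ ε)), HasDerivAt (θ ε) (wv (Φ (z₀ ε) t)) t := by
    intro ε t ht
    have c1 : Continuous (g ε) := cg.uncurry_left ε
    have := (intervalIntegral.integral_hasDerivAt_right (c1.intervalIntegrable 0 t)
      (c1.stronglyMeasurableAtFilter _ _) c1.continuousAt).const_add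
      (arctan ((z₀ ε).2.1 / (z₀ ε).1))
    simpa only [hg, min_eq_left ht.2, max_eq_right ht.1] using this
  have cΘ : Continuous fun ε : Ioo 0 δ => θ ε (T (z₀ ε)) := by
    refine Continuous.add (continuous_arctan.comp (Continuous.div cz'.snd.fst cz'.fst
      fun ε => ?_)) (intervalIntegral.continuous_parametric_intervalIntegral_of_continuous cg cT')
    linarith [(hz ε ε.2).2.2.2.2.1]
  have hP : ∀ Λ : ℝ, ∃ r₀ > 0, ∀ ε : Ioo 0 δ, (ε : ℝ) ≤ r₀ ^ 2 →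
      ((Φ (z₀ ε) (T (z₀ ε))).2.1 = 0 → π / 48 < Wv (fun t => exp ((Φ (z₀ ε) t).1 / 2))
        (fun t => (Φ (z₀ ε) t).2.2.2) (T (z₀ ε))) ∧
      Wv (fun t => exp ((Φ (z₀ ε) t).1 / 2)) (fun t => (Φ (z₀ ε) t).2.2.2) (T (z₀ ε)) <
        π / 48 + γ ∧ θ ε (T (z₀ ε)) ≤ θ ε 0 - Λ := by
    intro Λ
    obtain ⟨r₀, hr₀, h⟩ := phase2 hB hγ Λ
    refine ⟨r₀, hr₀, fun ε hε => h _ _ _ _ _ (θ ε) _ (hS' ε ε.2).1 (he0 ε ε.2) ?_ ?_ (dθ ε)⟩
    · rw [hΦ0]; linarith [(hz ε ε.2).2.2.2.1]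
    · rw [hΦ0]
      exact (pow_le_pow_iff_left₀ (hz ε ε.2).2.2.1.le hr₀.le two_ne_zero).1
        ((hz ε ε.2).2.2.2.2.2.trans hε)
  obtain ⟨r₁, hr₁, h₁⟩ := hP 0
  let ε₁ : Ioo 0 δ := ⟨min (δ / 2) (min (r₁ ^ 2) γ), by positivity,
    (min_le_left _ _).trans_lt (by linarith)⟩
  obtain ⟨r₂, hr₂, h₂⟩ := hP (π / 2 - θ ε₁ (T (z₀ ε₁)) + π)
  let ε₂ : Ioo 0 δ := ⟨min ε₁ (r₂ ^ 2), lt_min ε₁.2.1 (by positivity),
    (min_le_left _ _).trans_lt ε₁.2.2⟩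
  have h12 : ε₂ ≤ ε₁ := show min (ε₁ : ℝ) (r₂ ^ 2) ≤ ε₁ from min_le_left _ _
  have hθ2 : θ ε₂ (T (z₀ ε₂)) ≤ θ ε₁ (T (z₀ ε₁)) - π := by
    have k1 := (h₂ ε₂ (min_le_right _ _)).2.2
    have k2 : θ ε₂ 0 < π / 2 := by simpa [hθ] using arctan_lt_pi_div_two _
    linarith
  obtain ⟨ε, hε, hk⟩ : ∃ ε ∈ Icc ε₂ ε₁,
      θ ε (T (z₀ ε)) = (⌊θ ε₁ (T (z₀ ε₁)) / π⌋ : ℝ) * π := by
    have hpc : IsPreconnected (Icc ε₂ ε₁) := by
      rw [← Topology.IsInducing.subtypeVal.isPreconnected_image, image_subtype_val_Icc]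
      exact isPreconnected_Icc
    refine hpc.intermediate_value (left_mem_Icc.2 h12) (right_mem_Icc.2 h12)
      cΘ.continuousOn ⟨hθ2.trans ?_, ?_⟩
    · have := Int.lt_floor_add_one (θ ε₁ (T (z₀ ε₁)) / π)
      rw [div_lt_iff₀ pi_pos] at this
      linarith
    · have := Int.floor_le (θ ε₁ (T (z₀ ε₁)) / π)
      rwa [le_div_iff₀ pi_pos] at this
  have hε1 : (ε : ℝ) ≤ min (δ / 2) (min (r₁ ^ 2) γ) := hε.2
  obtain ⟨sol, hder, -, -⟩ := hS' ε ε.2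
  have hrel := sol.angle_rel hB (by linarith [he0 ε ε.2]) (dθ ε) (by
    have hu : (z₀ ε).1 ≠ 0 := by linarith [(hz ε ε.2).2.2.2.2.1]
    simp only [hθ, hΦ0, intervalIntegral.integral_same, add_zero, sin_arctan, cos_arctan]
    field_simp
    ring)
  have hp : (Φ (z₀ ε) (T (z₀ ε))).2.1 = 0 := by
    rw [hk, sin_int_mul_pi, cos_int_mul_pi, mul_zero, zero_add] at hrel
    exact (mul_eq_zero.1 hrel).resolve_right (zpow_ne_zero _ (by norm_num))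
  obtain ⟨w1, w2, -⟩ := h₁ ε (hε1.trans ((min_le_right _ _).trans (min_le_left _ _)))
  refine ⟨ξ₀, T (z₀ ε), δ, ε, α ε, β ε, X ε, Y ε, Φ (z₀ ε), hδ0, sol.hT, ε.2.1,
    hε1.trans ((min_le_right _ _).trans (min_le_right _ _)), hsm ε ε.2, ?_, hΦ0 _, ?_, hp, sol.yT,
    w1 hp, w2⟩
  · intro t ht
    obtain ⟨b0, -, -, b3, b4, -⟩ := hFK ε ε.2 t (hξδ t ht)
    refine ⟨hξδ t ht, b0, hI ε ε.2 t ht, ?_⟩
    have e1 : exp (3 * (t + α ε (exp (2 * t))) + 2 * β ε (exp (2 * t))) =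
        exp (2 * β ε (exp (2 * t))) * exp (3 * t + 3 * α ε (exp (2 * t))) := by
      rw [← exp_add]; congr 1; ring
    have e2 : 2 * α ε (exp (2 * t)) ≤ 0 :=
      exp_le_one_iff.1 (b3.trans (by linarith [ε.2.2]))
    rw [e1]
    exact mul_le_mul b4 (exp_le_exp.2 (by linarith)) (exp_pos _).le ε.2.1.le
  · intro t ht
    refine ⟨hder t ht, ?_, sol.r0 t ht⟩
    rw [con, sol.con t ht, sub_self]

/-- The reflection `ξ ↦ -ξ` in the phase space. -/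
def refl (z : R4) : R4 := (z.1, -z.2.1, -z.2.2.1, z.2.2.2)

theorem refl_deriv {z : ℝ → R4} {t : ℝ} (h : HasDerivAt z (VF (z (-t))) (-t)) :
    HasDerivAt (fun s => refl (z (-s))) (VF (refl (z (-t)))) t := by
  obtain ⟨du, dp, dy, dr⟩ := hd4 (h.scomp t (hasDerivAt_neg t))
  refine HasDerivAt.prodMk (du.congr_deriv ?_) (HasDerivAt.prodMk (dp.neg.congr_deriv ?_)
    (HasDerivAt.prodMk (dy.neg.congr_deriv ?_) (dr.congr_deriv ?_)))
  all_goals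
    simp [VF, refl]

theorem bohm {γ : ℝ} (hγ : 0 < γ) : ∃ F K X Y : ℝ → ℝ, Profile F K X Y ∧
    π / 24 < ∫ t, exp (3 * F t + 2 * K t) ∧ ∫ t, exp (3 * F t + 2 * K t) < π / 24 + γ := by
  obtain ⟨ξ₀, T, δ, ε, α, β, X, Y, z, hδ, hT, hε, hεγ, hsm, h1, hz0, h2, hp, hy, w1, w2⟩ :=
    exists_half (γ := γ / 4) (by positivity)
  set c := T + ξ₀ with hc
  set z1 : ℝ → R4 := fun t =>
    st (t + α (exp (2 * t))) (β (exp (2 * t))) (X t) (Y t) with hz1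
  set zl : ℝ → R4 := fun s => if s ≤ -T then z1 (s + c) else z (s + T) with hzl
  have zl1 : ∀ s ≤ -T, zl s = z1 (s + c) := fun s hs => if_pos hs
  have e0 : z1 (-T + c) = z (-T + T) := by
    rw [neg_add_cancel, hz0, hc, neg_add_cancel_left]
  have zl2 : ∀ s, -T ≤ s → zl s = z (s + T) := fun s hs => by
    rcases hs.eq_or_lt with h | h
    · rw [← h, zl1 _ le_rfl, e0]
    · exact if_neg (not_le.2 h)
  have hl : ∀ s ≤ 0, HasDerivAt zl (VF (zl s)) s ∧ con (zl s) = 0 ∧ 0 < (zl s).2.2.2 := by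
    intro s hs
    refine ⟨glue_deriv e0 (fun h => ?_) (fun h => ?_), ?_⟩
    · obtain ⟨-, a1, a2, -⟩ := h1 (s + c) (by linarith)
      rw [zl1 s h]
      exact (a1.hasDerivAt_st a2).comp_add_const s c
    · rw [zl2 s h]
      exact (h2 (s + T) ⟨by linarith, by linarith⟩).1.comp_add_const s T
    · rcases le_total s (-T) with h | h
      · rw [zl1 s h]
        exact ⟨con_st (h1 (s + c) (by linarith)).2.2.1, exp_pos _⟩
      · rw [zl2 s h]
        exact (h2 (s + T) ⟨by linarith, by linarith⟩).2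
  set Z : ℝ → R4 := fun s => if s ≤ 0 then zl s else refl (zl (-s)) with hZ
  have r0 : zl 0 = refl (zl (-0)) := by
    rw [neg_zero, zl2 0 (by linarith), zero_add]
    ext <;> simp [refl, hp, hy]
  have Z1 : ∀ s ≤ 0, Z s = zl s := fun s hs => if_pos hs
  have Z2 : ∀ s, 0 ≤ s → Z s = refl (zl (-s)) := fun s hs => by
    rcases hs.eq_or_lt with h | h
    · rw [← h, Z1 _ le_rfl, r0]
    · exact if_neg (not_le.2 h)
  have hZ' : ∀ s, HasDerivAt Z (VF (Z s)) s ∧ con (Z s) = 0 ∧ 0 < (Z s).2.2.2 := by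
    intro s
    refine ⟨glue_deriv r0 (fun h => ?_) (fun h => ?_), ?_⟩
    · rw [Z1 s h]
      exact (hl s h).1
    · rw [Z2 s h]
      exact refl_deriv (hl (-s) (by linarith)).1
    · rcases le_total s 0 with h | h
      · rw [Z1 s h]
        exact (hl s h).2
      · rw [Z2 s h]
        obtain ⟨-, a1, a2⟩ := hl (-s) (by linarith)
        exact ⟨by simpa [con, refl] using a1, a2⟩
  have ev : ∀ s, (Z (-s)).1 = (Z s).1 ∧ (Z (-s)).2.2.2 = (Z s).2.2.2 := by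
    intro s
    rcases le_total s 0 with h | h
    · rw [Z1 s h, Z2 (-s) (by linarith), neg_neg]
      exact ⟨rfl, rfl⟩
    · rw [Z2 s h, Z1 (-s) (by linarith)]
      exact ⟨rfl, rfl⟩
  set F : ℝ → ℝ := fun s => log (Z s).2.2.2 + (Z s).1 / 2 with hF
  set K : ℝ → ℝ := fun s => log (Z s).2.2.2 - (Z s).1 / 2 with hK
  have hfk := fun s => FK_of_VF (hZ' s).1 (hZ' s).2.1 (hZ' s).2.2
  have evF : ∀ s, F (-s) = F s := fun s => by simp only [hF, (ev s).1, (ev s).2]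
  have evK : ∀ s, K (-s) = K s := fun s => by simp only [hK, (ev s).1, (ev s).2]
  have nr : ∀ s ≤ -T, F s = s + c + α (exp (2 * (s + c))) ∧ K s = β (exp (2 * (s + c))) := by
    intro s hs
    simp only [hF, hK, Z1 s (by linarith), zl1 s hs, hz1, st, log_exp]
    constructor <;> ring
  have cw : Continuous fun t => exp (3 * F t + 2 * K t) :=
    continuous_iff_continuousAt.2 fun t =>
      (((hfk t).1.dF.const_mul 3).add ((hfk t).1.dK.const_mul 2)).exp.continuousAt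
  obtain ⟨i1, i2, i3⟩ := even_integral cw (fun t => by rw [evF, evK]) (a := -T) (C := ε)
    (fun t => (exp_pos _).le) fun t ht => by
      rw [(nr t ht).1, (nr t ht).2, show t - -T = t + c - ξ₀ by rw [hc]; ring]
      exact (h1 (t + c) (by linarith)).2.2.2
  have e1 : ∫ t in -T..0, exp (3 * F t + 2 * K t) =
      ∫ s in (0 : ℝ)..T, (z s).2.2.2 ^ 5 * exp ((z s).1 / 2) := by
    have := intervalIntegral.integral_comp_add_right
      (fun s => (z s).2.2.2 ^ 5 * exp ((z s).1 / 2)) (a := -T) (b := 0) T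
    rw [neg_add_cancel, zero_add] at this
    rw [← this]
    refine intervalIntegral.integral_congr fun t ht => ?_
    rw [uIcc_of_le (by linarith)] at ht
    have a1 := (hZ' t).2.2
    simp only [hF, hK]
    rw [Z1 t ht.2, zl2 t ht.1] at a1 ⊢
    rw [show 3 * (log (z (t + T)).2.2.2 + (z (t + T)).1 / 2) + 2 * (log (z (t + T)).2.2.2 -
      (z (t + T)).1 / 2) = (5 : ℕ) * log (z (t + T)).2.2.2 + (z (t + T)).1 / 2 by push_cast; ring,
      exp_add, exp_nat_mul, exp_log a1]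
  refine ⟨F, K, _, _, ⟨fun t => (hfk t).1, fun t => (hfk t).2, evF, evK, ?_, i1⟩,
    by linarith, by linarith⟩
  have hκ := exp_pos (2 * c)
  have hlt : exp (2 * c) * exp (-(2 * T)) < δ := by
    rw [← exp_add, show 2 * c + -(2 * T) = 2 * ξ₀ by rw [hc]; ring]
    exact (h1 ξ₀ le_rfl).1
  refine ⟨exp (-(2 * T)), exp_pos _, fun τ => α (exp (2 * c) * τ) + c,
    fun τ => β (exp (2 * c) * τ), fun τ hτ => ?_, fun t ht => ?_⟩
  · have : exp (2 * c) * τ ∈ Ioo (-δ) δ := ⟨by nlinarith [hτ.1], by nlinarith [hτ.2]⟩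
    exact ⟨((hsm _ this).1.comp τ (contDiffAt_const.mul contDiffAt_id)).add contDiffAt_const,
      (hsm _ this).2.comp τ (contDiffAt_const.mul contDiffAt_id)⟩
  · have := exp_lt_exp.1 ht
    beta_reduce
    rw [(nr t (by linarith)).1, (nr t (by linarith)).2, ← exp_add,
      show 2 * c + 2 * t = 2 * (t + c) by ring]
    exact ⟨by ring, rfl⟩

end Pool.Agent.Lib.MP_1301ff_gt
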