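import Pool.Agent.Lib.MP_1301ff_gt.Inv

set_option autoImplicit false

namespace Pool.Agent.Lib.MP_1301ff_gt

open Filter Topology Matrix Set Bundle
open scoped ContDiff Manifold

variable {n : ℕ}

/-- The bilinear form of a matrix. -/
noncomputable def bil (A : Matrix (Fin n) (Fin n) ℝ) :
    (Fin n → ℝ) →L[ℝ] (Fin n → ℝ) →L[ℝ] ℝ :=
  ∑ i, ∑ j, A i j • (ContinuousLinearMap.proj (R := ℝ) (φ := fun _ : Fin n => ℝ) i).smulRight
    (ContinuousLinearMap.proj (R := ℝ) (φ := fun _ : Fin n => ℝ) j)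

theorem bil_apply (A : Matrix (Fin n) (Fin n) ℝ) (v w : Fin n → ℝ) :
    bil A v w = v ⬝ᵥ A *ᵥ w := by
  simp only [bil, dotProduct, mulVec, Finset.mul_sum, _root_.sum_apply,
    _root_.smul_apply, ContinuousLinearMap.smulRight_apply,
    ContinuousLinearMap.proj_apply, smul_eq_mul]
  exact Finset.sum_congr rfl fun i _ => Finset.sum_congr rfl fun j _ => by ring

theorem Jac_mulVec {m : ℕ} {φ : (Fin n → ℝ) → Fin m → ℝ} {x : Fin n → ℝ}
    (hφ : DifferentiableAt ℝ φ x) (v : Fin n → ℝ) : Jac φ x *ᵥ v = fderiv ℝ φ x v := by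
  ext a
  rw [fderiv_eq_sum]
  simp only [mulVec, dotProduct, Jac_apply hφ, Finset.sum_apply, Pi.smul_apply, smul_eq_mul,
    mul_comm]

theorem bil_pull {m : ℕ} (A : Matrix (Fin m) (Fin m) ℝ) (J : Matrix (Fin m) (Fin n) ℝ)
    (v w : Fin n → ℝ) : bil (Jᵀ * A * J) v w = bil A (J *ᵥ v) (J *ᵥ w) := by
  rw [bil_apply, bil_apply, ← mulVec_mulVec, ← mulVec_mulVec, dotProduct_mulVec, vecMul_transpose]

theorem bil_single (A : Matrix (Fin n) (Fin n) ℝ) (i j : Fin n) :
    bil A (Pi.single i 1) (Pi.single j 1) = A i j := by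
  simp [bil_apply]

theorem bil_bounded {A : Matrix (Fin n) (Fin n) ℝ} (hA : A.PosDef) :
    Bornology.IsVonNBounded ℝ {v : Fin n → ℝ | bil A v v < 1} := by
  rw [NormedSpace.isVonNBounded_iff']
  rcases (Metric.sphere (0 : Fin n → ℝ) 1).eq_empty_or_nonempty with h | h
  · refine ⟨0, fun v _ => ?_⟩
    by_contra hv
    have : (‖v‖⁻¹ • v) ∈ Metric.sphere (0 : Fin n → ℝ) 1 := by
      simp [norm_smul, inv_mul_cancel₀ (not_le.1 hv).ne']
    rw [h] at this
    exact this
  obtain ⟨u, hu, hmin⟩ := (isCompact_sphere (0 : Fin n → ℝ) 1).exists_isMinOn h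
    (f := fun v => bil A v v) (by fun_prop)
  have hc : 0 < bil A u u := by
    rw [bil_apply]
    exact hA.dotProduct_mulVec_pos (x := u) (by rintro rfl; simp at hu)
  refine ⟨max 1 (bil A u u)⁻¹, fun v hv => ?_⟩
  by_contra hlt
  rw [not_le, max_lt_iff] at hlt
  have h0 : 0 < ‖v‖ := by linarith [hlt.1]
  have h1 : (‖v‖⁻¹ • v) ∈ Metric.sphere (0 : Fin n → ℝ) 1 := by
    simp [norm_smul, inv_mul_cancel₀ h0.ne']
  have h2 : bil A u u ≤ ‖v‖⁻¹ * (‖v‖⁻¹ * bil A v v) := by simpa using hmin h1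
  have h3 : bil A v v < 1 := hv
  rw [inv_lt_comm₀ hc h0] at hlt
  have h4 : ‖v‖⁻¹ < 1 := inv_lt_one_of_one_lt₀ hlt.1
  have h5 := inv_pos.2 h0
  nlinarith [mul_pos h5 h5]

theorem smul_const_aux {E F : Type} [NormedAddCommGroup E] [NormedSpace ℝ E]
    [NormedAddCommGroup F] [NormedSpace ℝ F] {f : E → ℝ} {x : E} (hf : ContDiffAt ℝ ∞ f x) (c : F) :
    ContDiffAt ℝ ∞ (fun y => f y • c) x :=
  hf.smul_const c

variable {M : Type} [TopologicalSpace M] [ChartedSpace (Fin n → ℝ) M]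

/-- The transition map between two charts. -/
noncomputable def tr (p q : M) (x : Fin n → ℝ) : Fin n → ℝ :=
  chartAt (Fin n → ℝ) q ((chartAt (Fin n → ℝ) p).symm x)

/-- Coefficients of a metric in all charts. -/
structure MData (G : M → MF n) : Prop where
  sm : ∀ p x, CD ∞ (G p) x
  pos : ∀ p x, (G p x).PosDef
  compat : ∀ p q x, (chartAt (Fin n → ℝ) p).symm x ∈ (chartAt (Fin n → ℝ) q).source →
    G p x = (Jac (tr p q) x)ᵀ * G q (tr p q x) * Jac (tr p q) x

variable [IsManifold 𝓘(ℝ, Fin n → ℝ) ∞ M]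

theorem contDiffAt_tr {p q : M} {x : Fin n → ℝ} (hp : x ∈ (chartAt (Fin n → ℝ) p).target)
    (hq : (chartAt (Fin n → ℝ) p).symm x ∈ (chartAt (Fin n → ℝ) q).source) :
    ContDiffAt ℝ ∞ (tr p q) x := by
  have h1 : ContMDiffAt 𝓘(ℝ, Fin n → ℝ) 𝓘(ℝ, Fin n → ℝ) ∞ (chartAt (Fin n → ℝ) p).symm x :=
    (contMDiffOn_chart_symm x hp).contMDiffAt ((chartAt (Fin n → ℝ) p).open_target.mem_nhds hp)
  have h2 : ContMDiffAt 𝓘(ℝ, Fin n → ℝ) 𝓘(ℝ, Fin n → ℝ) ∞ (chartAt (Fin n → ℝ) q)
      ((chartAt (Fin n → ℝ) p).symm x) :=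
    (contMDiffOn_chart _ hq).contMDiffAt ((chartAt (Fin n → ℝ) q).open_source.mem_nhds hq)
  exact contMDiffAt_iff_contDiffAt.1 (h2.comp x h1)

set_option backward.isDefEq.respectTransparency false in
theorem chartVec_eq {p : M} {x : Fin n → ℝ} (hp : x ∈ (chartAt (Fin n → ℝ) p).target)
    (v : Fin n → ℝ) :
    chartVec p x v = Jac (tr p ((chartAt (Fin n → ℝ) p).symm x)) x *ᵥ v := by
  rw [Jac_mulVec ((contDiffAt_tr hp (mem_chart_source _ _)).differentiableAt (by simp))]
  have := mdifferentiableAt_atlas_symm (I := 𝓘(ℝ, Fin n → ℝ)) (chart_mem_atlas (Fin n → ℝ) p) hp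
  simp only [chartVec, mfderiv, if_pos this, mfld_simps, fderivWithin_univ]
  rfl

set_option backward.isDefEq.respectTransparency false in
theorem triv_symm {p q : M} (hq : q ∈ (chartAt (Fin n → ℝ) p).source) (v : Fin n → ℝ) :
    (trivializationAt (Fin n → ℝ) (TangentSpace 𝓘(ℝ, Fin n → ℝ)) p).symm q v =
      Jac (tr p q) (chartAt (Fin n → ℝ) p q) *ᵥ v := by
  rw [Jac_mulVec ((contDiffAt_tr ((chartAt (Fin n → ℝ) p).map_source hq)
    (by rw [(chartAt (Fin n → ℝ) p).left_inv hq]; exact mem_chart_source _ _)).differentiableAt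
    (by simp))]
  have := TangentBundle.symmL_trivializationAt_eq_core (I := 𝓘(ℝ, Fin n → ℝ)) hq
  have h2 := DFunLike.congr_fun this v
  rw [Trivialization.symmL_apply _ (by simpa using hq)] at h2
  simp only [tangentBundleCore_coordChange, mfld_simps, fderivWithin_univ] at h2
  exact h2

set_option backward.isDefEq.respectTransparency false in
/-- The Riemannian metric with given coefficients. -/
noncomputable def MData.metric {G : M → MF n} (h : MData G) : RMetric (Fin n → ℝ) M where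
  inner q := bil (G q (chartAt (Fin n → ℝ) q q))
  symm q v w := by
    change bil _ v w = bil _ w v
    have := (h.pos q (chartAt (Fin n → ℝ) q q)).isHermitian
    rw [bil_apply, bil_apply, dotProduct_mulVec, dotProduct_comm, ← mulVec_transpose,
      ← conjTranspose_eq_transpose_of_trivial, this]
  pos q v hv := by
    change 0 < bil _ v v
    rw [bil_apply]
    exact (h.pos q _).dotProduct_mulVec_pos hv
  isVonNBounded q := bil_bounded (h.pos q _)
  contMDiff := by
    intro p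
    rw [contMDiffAt_section]
    have h1 : ContMDiffAt 𝓘(ℝ, Fin n → ℝ) 𝓘(ℝ, (Fin n → ℝ) →L[ℝ] (Fin n → ℝ) →L[ℝ] ℝ) ∞
        (fun q => bil (G p (chartAt (Fin n → ℝ) p q))) p := by
      have h2 : ContDiffAt ℝ ∞ (fun x => bil (G p x)) (chartAt (Fin n → ℝ) p p) :=
        ContDiffAt.sum fun i _ => ContDiffAt.sum fun j _ =>
          smul_const_aux (h.sm p _ i j) _
      exact h2.contMDiffAt.comp p ((contMDiffOn_chart _ (mem_chart_source _ p)).contMDiffAt
        (chart_source_mem_nhds _ p))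
    refine h1.congr_of_eventuallyEq ?_
    filter_upwards [chart_source_mem_nhds (Fin n → ℝ) p] with q hq
    ext v w
    have hl := (chartAt (Fin n → ℝ) p).left_inv hq
    rw [hom_trivializationAt_apply]
    dsimp only
    rw [inCoordinates_apply_eq₂ hq hq (by simp), triv_symm hq, triv_symm hq,
      h.compat p q _ (by rw [hl]; exact mem_chart_source _ _), bil_pull, tr, hl]
    simp
    rfl

theorem MData.coeff_metric {G : M → MF n} (h : MData G) (p : M) {x : Fin n → ℝ}
    (hx : x ∈ (chartAt (Fin n → ℝ) p).target) : coeff h.metric p x = G p x := by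
  ext i j
  rw [coeff, of_apply, chartVec_eq hx, chartVec_eq hx,
    h.compat p ((chartAt (Fin n → ℝ) p).symm x) x (mem_chart_source _ _), ← bil_single (_ * _),
    bil_pull]
  rfl

end Pool.Agent.Lib.MP_1301ff_gt
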