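import Pool.Agent.Lib.MP_1301ff_gt.Defs

set_option autoImplicit false

namespace Pool.Agent.Lib.MP_1301ff_gt

open Filter Topology Matrix
open scoped ContDiff

variable {n : ℕ}

section pdcalc

variable {i : Fin n} {x : Fin n → ℝ} {f g : (Fin n → ℝ) → ℝ}

theorem pd_const (c : ℝ) : pd i (fun _ => c) x = 0 := by simp [pd]

theorem pd_add (hf : DifferentiableAt ℝ f x) (hg : DifferentiableAt ℝ g x) :
    pd i (fun y => f y + g y) x = pd i f x + pd i g x := by
  simp [pd, fderiv_fun_add hf hg]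

theorem pd_sub (hf : DifferentiableAt ℝ f x) (hg : DifferentiableAt ℝ g x) :
    pd i (fun y => f y - g y) x = pd i f x - pd i g x := by
  simp [pd, fderiv_fun_sub hf hg]

theorem pd_mul (hf : DifferentiableAt ℝ f x) (hg : DifferentiableAt ℝ g x) :
    pd i (fun y => f y * g y) x = pd i f x * g x + f x * pd i g x := by
  simp [pd, fderiv_fun_mul hf hg]; ring

theorem pd_sum {ι : Type} (s : Finset ι) {F : ι → (Fin n → ℝ) → ℝ}
    (hF : ∀ a ∈ s, DifferentiableAt ℝ (F a) x) :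
    pd i (fun y => ∑ a ∈ s, F a y) x = ∑ a ∈ s, pd i (F a) x := by
  simp [pd, fderiv_fun_sum hF]

theorem pd_congr (h : f =ᶠ[𝓝 x] g) : pd i f x = pd i g x := by
  simp only [pd, h.fderiv_eq]

theorem pd_congr' (h : f =ᶠ[𝓝 x] g) : pd i f =ᶠ[𝓝 x] pd i g :=
  h.eventuallyEq_nhds.mono fun _ hy => pd_congr hy

theorem pd_coord (a : Fin n) : pd i (fun y : Fin n → ℝ => y a) x = if a = i then 1 else 0 := by
  have : fderiv ℝ (fun y : Fin n → ℝ => y a) x = ContinuousLinearMap.proj a :=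
    (hasFDerivAt_apply (𝕜 := ℝ) a x).fderiv
  simp [pd, this, Pi.single_apply]

theorem pd_of_hasFDerivAt {L : (Fin n → ℝ) →L[ℝ] ℝ} (h : HasFDerivAt f L x) :
    pd i f x = L (Pi.single i 1) := by
  rw [pd, h.fderiv]

theorem pd_scomp {h : ℝ → ℝ} {h' : ℝ} (hh : HasDerivAt h h' (f x)) (hf : DifferentiableAt ℝ f x) :
    pd i (fun y => h (f y)) x = h' * pd i f x := by
  refine (pd_of_hasFDerivAt (hh.comp_hasFDerivAt x hf.hasFDerivAt)).trans ?_
  simp [pd]

theorem contDiffAt_pd {k m : ℕ∞ω} (hf : ContDiffAt ℝ m f x) (hk : k + 1 ≤ m) :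
    ContDiffAt ℝ k (pd i f) x :=
  (hf.fderiv_right hk).clm_apply contDiffAt_const

theorem pd_comm {j : Fin n} (hf : ContDiffAt ℝ 2 f x) : pd i (pd j f) x = pd j (pd i f) x := by
  have h1 : DifferentiableAt ℝ (fderiv ℝ f) x :=
    (hf.fderiv_right (m := 1) (by norm_num)).differentiableAt (by norm_num)
  have h2 : ∀ a b : Fin n, pd a (pd b f) x =
      fderiv ℝ (fderiv ℝ f) x (Pi.single a 1) (Pi.single b 1) := fun a b => by
    rw [pd]
    unfold pd
    rw [fderiv_clm_apply h1 (differentiableAt_const _)]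
    simp
  rw [h2, h2]
  exact (hf.isSymmSndFDerivAt (by simp)).eq _ _

theorem fderiv_eq_sum {F : Type} [NormedAddCommGroup F] [NormedSpace ℝ F]
    (L : (Fin n → ℝ) →L[ℝ] F) (v : Fin n → ℝ) : L v = ∑ b, v b • L (Pi.single b 1) := by
  conv_lhs => rw [pi_eq_sum_univ' v]
  simp

end pdcalc

/-- The Jacobian matrix. -/
noncomputable def Jac {m : ℕ} (φ : (Fin n → ℝ) → Fin m → ℝ) (x : Fin n → ℝ) :
    Matrix (Fin m) (Fin n) ℝ :=
  Matrix.of fun a i => pd i (fun y => φ y a) x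

theorem Jac_apply {m : ℕ} {φ : (Fin n → ℝ) → Fin m → ℝ} {x : Fin n → ℝ}
    (hφ : DifferentiableAt ℝ φ x) (a : Fin m) (i : Fin n) :
    Jac φ x a i = fderiv ℝ φ x (Pi.single i 1) a := by
  simp only [Jac, of_apply, pd, fderiv_apply (𝕜 := ℝ) hφ a]
  rfl

theorem pd_comp {m : ℕ} {φ : (Fin n → ℝ) → Fin m → ℝ} {f : (Fin m → ℝ) → ℝ} {x : Fin n → ℝ}
    (hf : DifferentiableAt ℝ f (φ x)) (hφ : DifferentiableAt ℝ φ x) (i : Fin n) :
    pd i (fun y => f (φ y)) x = ∑ b, Jac φ x b i * pd b f (φ x) := by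
  refine (pd_of_hasFDerivAt (hf.hasFDerivAt.comp x hφ.hasFDerivAt)).trans ?_
  rw [ContinuousLinearMap.comp_apply, fderiv_eq_sum]
  simp only [Jac_apply hφ, pd, smul_eq_mul]

abbrev MF (n : ℕ) : Type := (Fin n → ℝ) → Matrix (Fin n) (Fin n) ℝ

/-- Entrywise derivative of a matrix valued function. -/
noncomputable def pdM (i : Fin n) (A : MF n) : MF n :=
  fun x => Matrix.of fun a b => pd i (fun y => A y a b) x

/-- Entrywise smoothness. -/
def CD (k : ℕ∞ω) (A : MF n) (x : Fin n → ℝ) : Prop :=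
  ∀ a b, ContDiffAt ℝ k (fun y => A y a b) x

section CD

variable {k : ℕ∞ω} {A B : MF n} {x : Fin n → ℝ} {i : Fin n}

theorem CD.of_le {m : ℕ∞ω} (h : CD k A x) (hm : m ≤ k) : CD m A x := fun a b => (h a b).of_le hm

theorem CD.mul (hA : CD k A x) (hB : CD k B x) : CD k (fun y => A y * B y) x := fun a b => by
  simp only [mul_apply]
  exact ContDiffAt.sum fun c _ => (hA a c).mul (hB c b)

theorem CD.add (hA : CD k A x) (hB : CD k B x) : CD k (fun y => A y + B y) x := fun a b =>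
  (hA a b).add (hB a b)

theorem CD.tr (hA : CD k A x) : CD k (fun y => (A y)ᵀ) x := fun a b => hA b a

theorem CD.smul {f : (Fin n → ℝ) → ℝ} (hf : ContDiffAt ℝ k f x) (hA : CD k A x) :
    CD k (fun y => f y • A y) x := fun a b => hf.mul (hA a b)

theorem CD.sum {ι : Type} (s : Finset ι) {F : ι → MF n} (hF : ∀ c ∈ s, CD k (F c) x) :
    CD k (fun y => ∑ c ∈ s, F c y) x := fun a b => by
  simp only [Matrix.sum_apply]
  exact ContDiffAt.sum fun c hc => hF c hc a b

theorem CD.det (hA : CD k A x) : ContDiffAt ℝ k (fun y => (A y).det) x := by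
  simp only [det_apply']
  exact ContDiffAt.sum fun σ _ => contDiffAt_const.mul (contDiffAt_prod fun c _ => hA _ _)

theorem CD.inv (hA : CD k A x) (hd : (A x).det ≠ 0) : CD k (fun y => (A y)⁻¹) x := by
  simp only [inv_def, Ring.inverse_eq_inv']
  refine CD.smul (hA.det.inv hd) fun a b => ?_
  simp only [adjugate_apply]
  refine CD.det fun c d => ?_
  simp only [updateRow_apply]
  split_ifs
  · exact contDiffAt_const
  · exact hA c d

theorem CD.pdM {m : ℕ∞ω} (hA : CD m A x) (hk : k + 1 ≤ m) : CD k (pdM i A) x := fun a b =>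
  contDiffAt_pd (hA a b) hk

theorem CD.comp {m : ℕ} {φ : (Fin m → ℝ) → Fin n → ℝ} {z : Fin m → ℝ} (hA : CD k A (φ z))
    (hφ : ContDiffAt ℝ k φ z) (a b : Fin n) : ContDiffAt ℝ k (fun y => A (φ y) a b) z :=
  (hA a b).comp z hφ

theorem CD.eventually (hA : CD k A x) (hk : k ≠ ∞) : ∀ᶠ y in 𝓝 x, CD k A y :=
  eventually_all.2 fun a => eventually_all.2 fun b => (hA a b).eventually hk

theorem CD.congr (hA : CD k A x) (h : B =ᶠ[𝓝 x] A) : CD k B x := fun a b =>
  (hA a b).congr_of_eventuallyEq (h.mono fun _ hy => congrFun (congrFun hy a) b)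

theorem CD.det_ne (hA : CD k A x) (hd : (A x).det ≠ 0) : ∀ᶠ y in 𝓝 x, (A y).det ≠ 0 :=
  hA.det.continuousAt.eventually_ne hd

theorem CD.diff (hA : CD 1 A x) (a b : Fin n) : DifferentiableAt ℝ (fun y => A y a b) x :=
  (hA a b).differentiableAt one_ne_zero

theorem CD_Jac {φ : (Fin n → ℝ) → Fin n → ℝ} {m : ℕ∞ω} (hφ : ContDiffAt ℝ m φ x)
    (hk : k + 1 ≤ m) : CD k (Jac φ) x := fun a _ =>
  contDiffAt_pd (contDiffAt_pi.1 hφ a) hk

theorem pdM_mul (hA : CD 1 A x) (hB : CD 1 B x) :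
    pdM i (fun y => A y * B y) x = pdM i A x * B x + A x * pdM i B x := by
  ext a b
  simp only [pdM, of_apply, mul_apply, Matrix.add_apply]
  rw [pd_sum _ fun c _ => (hA.diff a c).fun_mul (hB.diff c b), ← Finset.sum_add_distrib]
  exact Finset.sum_congr rfl fun c _ => pd_mul (hA.diff a c) (hB.diff c b)

theorem pdM_add (hA : CD 1 A x) (hB : CD 1 B x) :
    pdM i (fun y => A y + B y) x = pdM i A x + pdM i B x := by
  ext a b
  exact pd_add (hA.diff a b) (hB.diff a b)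

theorem pdM_tr : pdM i (fun y => (A y)ᵀ) x = (pdM i A x)ᵀ := rfl

theorem pdM_smul {f : (Fin n → ℝ) → ℝ} (hf : ContDiffAt ℝ 1 f x) (hA : CD 1 A x) :
    pdM i (fun y => f y • A y) x = pd i f x • A x + f x • pdM i A x := by
  ext a b
  exact pd_mul (hf.differentiableAt one_ne_zero) (hA.diff a b)

theorem pdM_sum {ι : Type} (s : Finset ι) {F : ι → MF n} (hF : ∀ c ∈ s, CD 1 (F c) x) :
    pdM i (fun y => ∑ c ∈ s, F c y) x = ∑ c ∈ s, pdM i (F c) x := by
  ext a b
  simp only [pdM, of_apply, Matrix.sum_apply]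
  exact pd_sum s fun c hc => (hF c hc).diff a b

theorem pdM_comp {φ : (Fin n → ℝ) → Fin n → ℝ} (hA : CD 1 A (φ x))
    (hφ : DifferentiableAt ℝ φ x) :
    pdM i (fun y => A (φ y)) x = ∑ b, Jac φ x b i • pdM b A (φ x) := by
  ext a c
  simp only [pdM, of_apply, Matrix.sum_apply, Matrix.smul_apply, smul_eq_mul]
  exact pd_comp (f := fun y => A y a c) (hA.diff a c) hφ i

theorem pdM_congr (h : A =ᶠ[𝓝 x] B) : pdM i A x = pdM i B x := by
  ext a b
  exact pd_congr (h.mono fun _ hy => congrFun (congrFun hy a) b)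

theorem pdM_comm {j : Fin n} (hA : CD 2 A x) : pdM i (pdM j A) x = pdM j (pdM i A) x := by
  ext a b
  exact pd_comm (hA a b)

end CD

/-- The connection matrices. -/
noncomputable def Gam (G : MF n) (i : Fin n) : MF n := fun x => Matrix.of fun k j => Chr G k i j x

/-- The matrices of the Christoffel symbols of the first kind. -/
noncomputable def Kam (G : MF n) (i : Fin n) : MF n := fun x => Matrix.of fun l j =>
  1 / 2 * (pdM i G x j l + pdM j G x i l - pdM l G x i j)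

theorem Gam_eq (G : MF n) (i : Fin n) (x : Fin n → ℝ) : Gam G i x = (G x)⁻¹ * Kam G i x := by
  ext k j
  simp only [Gam, Kam, Chr, of_apply, mul_apply, pdM, Finset.mul_sum]
  exact Finset.sum_congr rfl fun l _ => by ring

theorem CD.Kam {k m : ℕ∞ω} {G : MF n} {x : Fin n → ℝ} (hG : CD m G x) (hk : k + 1 ≤ m)
    (i : Fin n) : CD k (Kam G i) x := fun _ _ =>
  contDiffAt_const.mul (((hG.pdM hk _ _).add (hG.pdM hk _ _)).sub (hG.pdM hk _ _))

theorem CD.Gam {k m : ℕ∞ω} {G : MF n} {x : Fin n → ℝ} (hG : CD m G x) (hk : k + 1 ≤ m)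
    (hd : (G x).det ≠ 0) (i : Fin n) : CD k (Gam G i) x := by
  have : Pool.Agent.Lib.MP_1301ff_gt.Gam G i = fun y => (G y)⁻¹ * Pool.Agent.Lib.MP_1301ff_gt.Kam G i y :=
    funext (Gam_eq G i)
  rw [this]
  exact ((hG.of_le (le_self_add.trans hk)).inv hd).mul (hG.Kam hk i)

theorem mul_Gam {G : MF n} {x : Fin n → ℝ} (hd : (G x).det ≠ 0) (i : Fin n) :
    G x * Gam G i x = Kam G i x := by
  rw [Gam_eq, mul_nonsing_inv_cancel_left _ _ (Ne.isUnit hd)]

theorem pdM_symm {G : MF n} (hs : ∀ y, (G y)ᵀ = G y) (i : Fin n) (x : Fin n → ℝ) (a b : Fin n) :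
    pdM i G x a b = pdM i G x b a := by
  have : ∀ y, G y a b = G y b a := fun y => by rw [← transpose_apply (G y) b a, hs]
  simp only [pdM, of_apply, this]

theorem Gam_symm {G : MF n} (hs : ∀ y, (G y)ᵀ = G y) (x : Fin n → ℝ) (k i j : Fin n) :
    Gam G i x k j = Gam G j x k i := by
  simp only [Gam_eq, mul_apply, Kam, of_apply]
  exact Finset.sum_congr rfl fun l _ => by rw [pdM_symm hs l x i j]; ring

theorem Gam_compat {G : MF n} (hs : ∀ y, (G y)ᵀ = G y) {x : Fin n → ℝ} (hd : (G x).det ≠ 0)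
    (i : Fin n) : pdM i G x = (Gam G i x)ᵀ * G x + G x * Gam G i x := by
  have : (Gam G i x)ᵀ * G x = (G x * Gam G i x)ᵀ := by rw [transpose_mul, hs]
  rw [this, mul_Gam hd]
  ext a b
  simp only [Kam, Matrix.add_apply, transpose_apply, of_apply]
  rw [pdM_symm hs i x b a]
  ring

theorem Gam_unique {G : MF n} {x : Fin n → ℝ} (hs : (G x)ᵀ = G x) (hd : (G x).det ≠ 0)
    {B : Fin n → Matrix (Fin n) (Fin n) ℝ} (h1 : ∀ k i j, B i k j = B j k i)
    (h2 : ∀ i, pdM i G x = (B i)ᵀ * G x + G x * B i) (i : Fin n) : Gam G i x = B i := by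
  have h3 : ∀ i a b, pdM i G x a b = (G x * B i) b a + (G x * B i) a b := fun i a b => by
    rw [h2, Matrix.add_apply, ← transpose_apply (G x * B i) a b, transpose_mul, hs]
  have h4 : ∀ l i j, (G x * B i) l j = (G x * B j) l i := fun l i j => by
    simp only [mul_apply, h1 _ i j]
  have : Kam G i x = G x * B i := by
    ext l j
    simp only [Kam, of_apply, h3]
    rw [h4 l j i, h4 j l i, h4 i l j]
    ring
  rw [Gam_eq, this, nonsing_inv_mul_cancel_left _ _ (Ne.isUnit hd)]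

/-- The curvature matrices. -/
noncomputable def Om (Γ : Fin n → MF n) (i j : Fin n) (x : Fin n → ℝ) :
    Matrix (Fin n) (Fin n) ℝ :=
  pdM i (Γ j) x - pdM j (Γ i) x + (Γ i x * Γ j x - Γ j x * Γ i x)

theorem Ric_eq (G : MF n) (x : Fin n → ℝ) (j k : Fin n) :
    Ric G x j k = ∑ i, Om (Gam G) i j x i k := by
  simp only [Ric, Om, Matrix.add_apply, Matrix.sub_apply, mul_apply, Finset.sum_sub_distrib]
  rfl

theorem Om_congr {Γ Γ' : Fin n → MF n} {x : Fin n → ℝ} (h : ∀ i, Γ i =ᶠ[𝓝 x] Γ' i)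
    (i j : Fin n) : Om Γ i j x = Om Γ' i j x := by
  simp only [Om, pdM_congr (h _), (h _).eq_of_nhds]

theorem Gam_congr {G G' : MF n} {x : Fin n → ℝ} (h : G =ᶠ[𝓝 x] G') (i : Fin n) :
    Gam G i =ᶠ[𝓝 x] Gam G' i :=
  h.eventuallyEq_nhds.mono fun y hy => by
    simp only [Gam_eq, hy.eq_of_nhds]
    congr 1
    ext l j
    simp only [Kam, of_apply, pdM_congr hy]

theorem Ric_congr {G G' : MF n} {x : Fin n → ℝ} (h : G =ᶠ[𝓝 x] G') : Ric G x = Ric G' x := by
  ext j k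
  simp only [Ric_eq, Om_congr (Gam_congr h)]

end Pool.Agent.Lib.MP_1301ff_gt
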