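import Mathlib

set_option autoImplicit false

namespace Pool.Agent.Lib.MP_1301ff_gt

open scoped ContDiff Manifold
open MeasureTheory

variable {n : ℕ}

/-- The derivative of `f` at `x` along the `i`-th coordinate vector of `ℝⁿ`. -/
noncomputable def pd (i : Fin n) (f : (Fin n → ℝ) → ℝ) (x : Fin n → ℝ) : ℝ :=
  fderiv ℝ f x (Pi.single i 1)

/-- Christoffel symbols `Γᵏᵢⱼ = ½ gᵏˡ (∂ᵢ gⱼₗ + ∂ⱼ gᵢₗ - ∂ₗ gᵢⱼ)` of a metric given in coordinates. -/
noncomputable def Chr (G : (Fin n → ℝ) → Matrix (Fin n) (Fin n) ℝ) (k i j : Fin n)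
    (x : Fin n → ℝ) : ℝ :=
  1 / 2 * ∑ l, (G x)⁻¹ k l *
    (pd i (fun y => G y j l) x + pd j (fun y => G y i l) x - pd l (fun y => G y i j) x)

/-- Ricci tensor `Rⱼₖ = ∂ᵢ Γⁱⱼₖ - ∂ⱼ Γⁱᵢₖ + Γⁱᵢₚ Γᵖⱼₖ - Γⁱⱼₚ Γᵖᵢₖ` of a metric given in coordinates. -/
noncomputable def Ric (G : (Fin n → ℝ) → Matrix (Fin n) (Fin n) ℝ) (x : Fin n → ℝ)
    (j k : Fin n) : ℝ :=
  ∑ i, (pd i (Chr G i j k) x - pd j (Chr G i i k) x +
    ∑ p, (Chr G i i p x * Chr G p j k x - Chr G i j p x * Chr G p i k x))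

section Generic

variable (E : Type) [NormedAddCommGroup E] [NormedSpace ℝ E] (M : Type) [TopologicalSpace M]
  [ChartedSpace E M]

/-- Smooth Riemannian metrics on a manifold `M` modelled on `E`. -/
abbrev RMetric [IsManifold 𝓘(ℝ, E) ∞ M] : Type :=
  Bundle.ContMDiffRiemannianMetric 𝓘(ℝ, E) ∞ E (TangentSpace 𝓘(ℝ, E) : M → Type)

variable {E M}

/-- The value `B(v, w)` of a continuous bilinear form. -/
noncomputable def app₂ {V : Type} [AddCommGroup V] [Module ℝ V] [TopologicalSpace V] (B : V →L[ℝ] V →L[ℝ] ℝ)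
    (v w : V) : ℝ :=
  B v w

/-- The inner product `g_q(v, w)` of two tangent vectors at `q`. -/
noncomputable def ip [IsManifold 𝓘(ℝ, E) ∞ M] (g : RMetric E M) (q : M)
    (v w : TangentSpace 𝓘(ℝ, E) q) : ℝ :=
  app₂ (g.inner q) v w

/-- The tangent vector with components `v` in the chart at `p`, at the point with coordinates `x`:
the image of `v` under the differential of the inverse chart. -/
noncomputable def chartVec (p : M) (x v : E) : TangentSpace 𝓘(ℝ, E) ((chartAt E p).symm x) :=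
  mfderiv 𝓘(ℝ, E) 𝓘(ℝ, E) (chartAt E p).symm x v

end Generic

variable {M : Type} [TopologicalSpace M] [ChartedSpace (Fin n → ℝ) M]
  [IsManifold 𝓘(ℝ, Fin n → ℝ) ∞ M]

/-- The matrix `gᵢⱼ(x)` of the metric in the chart at `p`. -/
noncomputable def coeff (g : RMetric (Fin n → ℝ) M) (p : M) (x : Fin n → ℝ) :
    Matrix (Fin n) (Fin n) ℝ :=
  Matrix.of fun i j => ip g ((chartAt (Fin n → ℝ) p).symm x) (chartVec p x (Pi.single i 1))
    (chartVec p x (Pi.single j 1))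

/-- `Ric_g = c g`, in every chart. -/
def IsEinstein (g : RMetric (Fin n → ℝ) M) (c : ℝ) : Prop :=
  ∀ p : M, ∀ x ∈ (chartAt (Fin n → ℝ) p).target, ∀ j k,
    Ric (coeff g p) x j k = c * coeff g p x j k

/-- `μ` is the Riemannian volume measure: in every chart it is `√(det gᵢⱼ) dx`. -/
def IsVolume [MeasurableSpace M] (g : RMetric (Fin n → ℝ) M) (μ : Measure M) : Prop :=
  ∀ p : M, (μ.restrict (chartAt (Fin n → ℝ) p).source).map (chartAt (Fin n → ℝ) p) =
    (volume.restrict (chartAt (Fin n → ℝ) p).target).withDensity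
      fun x => ENNReal.ofReal √(coeff g p x).det

variable (n M)

/-- The set of normalized Einstein constants `c · Vol(M, g) ^ (2 / n)`. -/
def einsteinConstants [MeasurableSpace M] : Set ℝ :=
  {a | ∃ (g : RMetric (Fin n → ℝ) M) (c : ℝ) (μ : Measure M), IsEinstein g c ∧ IsVolume g μ ∧
    a = c * (μ Set.univ).toReal ^ ((2 : ℝ) / n)}

end Pool.Agent.Lib.MP_1301ff_gt
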