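import Pool.Agent.Lib.MP_1301ff_gt.Sphere

set_option autoImplicit false

namespace Pool.Agent.Lib.MP_1301ff_gt

open Filter Topology Matrix Set Real
open scoped ContDiff

variable {n : ℕ}

theorem pd_ite {i : Fin n} {x : Fin n → ℝ} {f : (Fin n → ℝ) → ℝ} (p : Prop) [Decidable p] :
    pd i (fun y => if p then f y else 0) x = if p then pd i f x else 0 := by
  split_ifs
  · rfl
  · exact pd_const 0

theorem diff_ite {x : Fin n → ℝ} {f : (Fin n → ℝ) → ℝ} (p : Prop) [Decidable p]
    (hf : DifferentiableAt ℝ f x) : DifferentiableAt ℝ (fun y => if p then f y else 0) x := by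
  split_ifs
  · exact hf
  · exact differentiableAt_const _

theorem pd_exp {i : Fin n} {x : Fin n → ℝ} {f : (Fin n → ℝ) → ℝ} (hf : DifferentiableAt ℝ f x) :
    pd i (fun y => exp (f y)) x = exp (f x) * pd i f x :=
  pd_scomp (hasDerivAt_exp _) hf

/-- Diagonal metrics. -/
noncomputable def dmet (u : Fin n → (Fin n → ℝ) → ℝ) : MF n := fun x =>
  Matrix.diagonal fun i => exp (2 * u i x)

theorem dmet_inv (u : Fin n → (Fin n → ℝ) → ℝ) (x : Fin n → ℝ) :
    (dmet u x)⁻¹ = Matrix.diagonal fun i => (exp (2 * u i x))⁻¹ := by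
  apply Matrix.inv_eq_right_inv
  rw [dmet, diagonal_mul_diagonal, ← diagonal_one]
  congr 1
  ext i
  exact mul_inv_cancel₀ (exp_ne_zero _)

theorem pd_dmet {u : Fin n → (Fin n → ℝ) → ℝ} (hu : ∀ i, Differentiable ℝ (u i)) (l i j : Fin n)
    (x : Fin n → ℝ) : pd l (fun y => dmet u y i j) x =
      if i = j then exp (2 * u i x) * (2 * pd l (u i) x) else 0 := by
  simp only [dmet, diagonal_apply]
  rw [pd_ite]
  split_ifs
  · have := hu i
    rw [pd_exp (by fun_prop), pd_mul (by fun_prop) (by fun_prop), pd_const]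
    simp
  · rfl

def gD (c d : Fin n → Fin n → ℝ) (k i j : Fin n) : ℝ :=
  (if j = k then d i k else 0) + (if i = k then d j k else 0) - if i = j then c i k * d k i else 0

def dgD (c d : Fin n → Fin n → ℝ) (e : Fin n → Fin n → Fin n → ℝ) (m k i j : Fin n) : ℝ :=
  (if j = k then e m i k else 0) + (if i = k then e m j k else 0) -
    if i = j then c i k * ((2 * d m i - 2 * d m k) * d k i + e m k i) else 0

def ricD (c d : Fin n → Fin n → ℝ) (e : Fin n → Fin n → Fin n → ℝ) (j k : Fin n) : ℝ :=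
  ∑ i, (dgD c d e i i j k - dgD c d e j i i k +
    ∑ p, (gD c d i i p * gD c d p j k - gD c d i j p * gD c d p i k))

theorem Chr_dmet {u : Fin n → (Fin n → ℝ) → ℝ} (hu : ∀ i, Differentiable ℝ (u i)) (k i j : Fin n)
    (x : Fin n → ℝ) : Chr (dmet u) k i j x =
      gD (fun i k => exp (2 * u i x - 2 * u k x)) (fun m a => pd m (u a) x) k i j := by
  rw [Chr, dmet_inv, Finset.sum_eq_single k]
  · simp only [pd_dmet hu, diagonal_apply_eq, exp_sub, gD]
    have := exp_ne_zero (2 * u k x)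
    split_ifs with h1 h2 h3 <;> subst_vars <;> field_simp <;> ring
  · intro l _ hl
    simp [diagonal_apply_ne _ hl.symm]
  · simp

theorem Ric_dmet {u : Fin n → (Fin n → ℝ) → ℝ} (hu : ∀ i, ContDiff ℝ ∞ (u i)) (x : Fin n → ℝ) :
    Ric (dmet u) x = ricD (fun i k => exp (2 * u i x - 2 * u k x)) (fun m a => pd m (u a) x)
      fun m l a => pd m (pd l (u a)) x := by
  have h1 : ∀ i, Differentiable ℝ (u i) := fun i => (hu i).differentiable (by simp)
  have h2 : ∀ i a, DifferentiableAt ℝ (pd i (u a)) x := fun i a =>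
    (contDiffAt_pd (k := 1) (hu a).contDiffAt two_le_inf).differentiableAt one_ne_zero
  have e : ∀ m k i j, pd m (Chr (dmet u) k i j) x =
      dgD (fun i k => exp (2 * u i x - 2 * u k x)) (fun m a => pd m (u a) x)
        (fun m l a => pd m (pd l (u a)) x) m k i j := fun m k i j => by
    have h3 : DifferentiableAt ℝ (fun y => exp (2 * u i y - 2 * u k y)) x := by
      have := h1 i
      have := h1 k
      fun_prop
    rw [funext (Chr_dmet h1 k i j)]
    simp only [gD, dgD]
    rw [pd_sub ((diff_ite _ (h2 _ _)).fun_add (diff_ite _ (h2 _ _)))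
      (diff_ite _ (h3.fun_mul (h2 _ _))), pd_add (diff_ite _ (h2 _ _)) (diff_ite _ (h2 _ _)),
      pd_ite, pd_ite, pd_ite, pd_mul h3 (h2 _ _),
      pd_exp (((h1 i x).const_mul 2).fun_sub ((h1 k x).const_mul 2)),
      pd_sub ((h1 i x).const_mul 2) ((h1 k x).const_mul 2),
      pd_mul (differentiableAt_const _) (h1 i x), pd_mul (differentiableAt_const _) (h1 k x),
      pd_const]
    split_ifs <;> ring
  ext j k
  simp only [Ric, ricD, e, Chr_dmet h1]

noncomputable def cW (E : ℝ) : Fin (3 + 2) → Fin (3 + 2) → ℝ :=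
  Fin.addCases (fun _ => Fin.addCases (fun _ => 1) fun _ => E⁻¹)
    fun _ => Fin.addCases (fun _ => E) fun _ => 1

def dW (x : Fin 3 → ℝ) (y : Fin 2 → ℝ) (a b s : ℝ) : Fin (3 + 2) → Fin (3 + 2) → ℝ :=
  Fin.addCases (fun m => Fin.addCases (fun _ => 2 * x m * a) fun _ => 2 * x m * b)
    fun m => Fin.addCases (fun _ => 0) fun _ => -s * y m

def eW (x : Fin 3 → ℝ) (y : Fin 2 → ℝ) (a b a' b' s : ℝ) :
    Fin (3 + 2) → Fin (3 + 2) → Fin (3 + 2) → ℝ :=
  Fin.addCases
    (fun m => Fin.addCases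
      (fun l => Fin.addCases (fun _ => (if l = m then 2 * a else 0) + 4 * x l * x m * a')
        fun _ => (if l = m then 2 * b else 0) + 4 * x l * x m * b')
      fun _ _ => 0)
    fun m => Fin.addCases (fun _ _ => 0)
      fun l => Fin.addCases (fun _ => 0) fun _ => s ^ 2 * y l * y m - if l = m then s else 0

theorem ricD_W (x : Fin 3 → ℝ) (y : Fin 2 → ℝ) (E a b a' b' s : ℝ) :
    Matrix.of (ricD (cW E) (dW x y a b s) (eW x y a b a' b' s)) =
      blk (Matrix.of fun i j => (if i = j then -8 * a - 4 * nsq x * a' - 4 * nsq x * a ^ 2 - 4 * b -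
          8 * nsq x * a * b else 0) +
          4 * x i * x j * (-a' + a ^ 2 - 2 * b' - 2 * b ^ 2 + 4 * a * b))
        ((2 * s - s ^ 2 * nsq y -
          E * (6 * b + 4 * nsq x * b' + 8 * nsq x * b ^ 2 + 4 * nsq x * a * b)) • 1) := by
  apply blk_ext <;> intro i j <;>
    simp only [of_apply, blk_ll, blk_lr, blk_rl, blk_rr, ricD, gD, dgD, Fin.sum_univ_add, cW, dW,
      eW, Fin.addCases_left, Fin.addCases_right, Fin.castAdd_inj, Fin.natAdd_inj, cast_ne_nat,
      (cast_ne_nat _ _).symm, if_false, nsq] <;>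
    fin_cases i <;> fin_cases j <;> simp [Fin.sum_univ_three, Fin.sum_univ_two] <;> ring

end Pool.Agent.Lib.MP_1301ff_gt
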