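import Mathlib

set_option autoImplicit false

namespace Pool.Agent.Lib.MP_1301ff_gt

open Set Filter Topology Metric
open scoped ContDiff NNReal

variable {E : Type} [NormedAddCommGroup E] [NormedSpace ℝ E]

theorem exists_sol_Ioo [CompleteSpace E] {v : E → E} {K L : ℝ≥0} (hK : LipschitzWith K v)
    (hL : ∀ x, ‖v x‖ ≤ L) (x : E) (n : ℕ) :
    ∃ α : ℝ → E, α 0 = x ∧ ∀ t ∈ Ioo (-((n : ℝ) + 1)) ((n : ℝ) + 1),
      HasDerivAt α (v (α t)) t := by
  have hn : (0 : ℝ) < (n : ℝ) + 1 := by positivity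
  have h : IsPicardLindelof (fun _ : ℝ => v) (tmin := -((n : ℝ) + 1)) (tmax := (n : ℝ) + 1)
      ⟨0, by constructor <;> linarith⟩ x (L * ((n : ℝ≥0) + 1)) 0 L K :=
    { lipschitzOnWith := fun _ _ => hK.lipschitzOnWith
      continuousOn := fun _ _ => continuousOn_const
      norm_le := fun _ _ y _ => hL y
      mul_max_le := by simp }
  obtain ⟨α, h0, hα⟩ := h.exists_eq_forall_mem_Icc_hasDerivWithinAt₀
  exact ⟨α, h0, fun t ht => (hα t (Ioo_subset_Icc_self ht)).hasDerivAt (Icc_mem_nhds ht.1 ht.2)⟩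

/-- Global flow of a bounded Lipschitz vector field, jointly continuous in forward time. -/
theorem exists_flow [CompleteSpace E] {v : E → E} {K L : ℝ≥0} (hK : LipschitzWith K v)
    (hL : ∀ x, ‖v x‖ ≤ L) :
    ∃ Φ : E → ℝ → E, (∀ x, Φ x 0 = x) ∧ (∀ x t, HasDerivAt (Φ x) (v (Φ x t)) t) ∧
      ContinuousOn (fun q : E × ℝ => Φ q.1 q.2) (univ ×ˢ Ici 0) := by
  choose α h0 hα using exists_sol_Ioo hK hL
  have hmem : ∀ (n : ℕ) (t : ℝ), |t| < n + 1 → t ∈ Ioo (-((n : ℝ) + 1)) ((n : ℝ) + 1) :=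
    fun n t h => ⟨(abs_lt.1 h).1, (abs_lt.1 h).2⟩
  have huniq : ∀ x (n m : ℕ), n ≤ m → ∀ t : ℝ, |t| < n + 1 → α x n t = α x m t := by
    intro x n m hnm t ht
    have hnm' : (n : ℝ) ≤ m := Nat.cast_le.2 hnm
    refine ODE_solution_unique_of_mem_Ioo (v := fun _ => v) (s := fun _ => univ) (K := K)
      (a := -((n : ℝ) + 1)) (b := (n : ℝ) + 1) (t₀ := 0)
      (fun _ _ => hK.lipschitzOnWith) (hmem n 0 (by simp; positivity))
      (fun s hs => ⟨hα x n s hs, trivial⟩)
      (fun s hs => ⟨hα x m s ⟨by linarith [hs.1], by linarith [hs.2]⟩, trivial⟩)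
      (by rw [h0, h0]) (hmem n t ht)
  have hceil : ∀ t : ℝ, |t| < (⌈|t|⌉₊ : ℝ) + 1 := fun t => by linarith [Nat.le_ceil |t|]
  set Φ : E → ℝ → E := fun x t => α x ⌈|t|⌉₊ t with hΦ
  have hloc : ∀ x (n : ℕ) (t : ℝ), |t| < n + 1 → Φ x t = α x n t := by
    intro x n t ht
    rcases le_total n ⌈|t|⌉₊ with h | h
    · exact (huniq x _ _ h t ht).symm
    · exact huniq x _ _ h t (hceil t)
  have hder : ∀ x t, HasDerivAt (Φ x) (v (Φ x t)) t := by
    intro x t
    have h1 := hα x ⌈|t|⌉₊ t (hmem _ t (hceil t))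
    refine h1.congr_of_eventuallyEq ?_
    have : ∀ᶠ s in 𝓝 t, |s| < (⌈|t|⌉₊ : ℝ) + 1 :=
      (continuous_abs.tendsto t).eventually (gt_mem_nhds (hceil t))
    exact this.mono fun s hs => hloc x _ s hs
  have hΦ0 : ∀ x, Φ x 0 = x := fun x => h0 x _
  refine ⟨Φ, hΦ0, hder, ?_⟩
  have hcont : ∀ x, Continuous (Φ x) := fun x =>
    continuous_iff_continuousAt.2 fun t => (hder x t).continuousAt
  have hdist : ∀ x y t, 0 ≤ t → dist (Φ x t) (Φ y t) ≤ dist x y * Real.exp (K * t) := by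
    intro x y t ht
    have := dist_le_of_trajectories_ODE (v := fun _ => v) (K := K) (a := 0) (b := t)
      (f := Φ x) (g := Φ y) (δ := dist x y) (fun _ => hK) (hcont x).continuousOn
      (fun s _ => (hder x s).hasDerivWithinAt) (hcont y).continuousOn
      (fun s _ => (hder y s).hasDerivWithinAt) (by rw [hΦ0, hΦ0]) t ⟨ht, le_rfl⟩
    simpa using this
  rintro ⟨x, t⟩ ⟨-, ht⟩
  rw [ContinuousWithinAt, tendsto_iff_dist_tendsto_zero]
  have hb : Tendsto (fun q : E × ℝ => dist q.1 x * Real.exp (K * q.2) + dist (Φ x q.2) (Φ x t))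
      (𝓝 (x, t)) (𝓝 0) := by
    have hc : Continuous
        (fun q : E × ℝ => dist q.1 x * Real.exp (K * q.2) + dist (Φ x q.2) (Φ x t)) := by
      have := hcont x
      fun_prop
    simpa using hc.tendsto (x, t)
  refine squeeze_zero' (Eventually.of_forall fun _ => dist_nonneg) ?_
    (hb.mono_left nhdsWithin_le_nhds)
  filter_upwards [self_mem_nhdsWithin] with q hq
  have := dist_triangle (Φ q.1 q.2) (Φ x q.2) (Φ x t)
  have := hdist q.1 x q.2 hq.2
  linarith

/-- A global solution of a smooth autonomous system is smooth. -/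
theorem contDiff_of_ode {V : E → E} (hV : ContDiff ℝ ∞ V) {z : ℝ → E}
    (hz : ∀ t, HasDerivAt z (V (z t)) t) : ContDiff ℝ ∞ z := by
  have hd : deriv z = V ∘ z := funext fun t => (hz t).deriv
  have hdiff : Differentiable ℝ z := fun t => (hz t).differentiableAt
  refine contDiff_infty.2 fun n => ?_
  induction n with
  | zero => exact contDiff_zero.2 hdiff.continuous
  | succ n ih =>
    rw [Nat.cast_succ, contDiff_succ_iff_deriv]
    refine ⟨hdiff, by simp, ?_⟩
    rw [hd]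
    exact (hV.of_le (by exact_mod_cast le_top)).comp ih

/-- Solutions of a scalar linear equation. -/
theorem linear_ode {g k : ℝ → ℝ} (hk : Continuous k) {a b : ℝ}
    (hg : ∀ t ∈ Icc a b, HasDerivAt g (k t * g t) t) :
    ∀ t ∈ Icc a b, g t = g a * Real.exp (∫ s in a..t, k s) := by
  have hI : ∀ t, HasDerivAt (fun t => ∫ s in a..t, k s) (k t) t := fun t =>
    intervalIntegral.integral_hasDerivAt_right (hk.intervalIntegrable _ _)
      (hk.stronglyMeasurableAtFilter _ _) hk.continuousAt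
  have hd : ∀ t ∈ Icc a b, HasDerivAt (fun t => g t * Real.exp (-∫ s in a..t, k s)) 0 t := by
    intro t ht
    refine ((hg t ht).mul ((hI t).neg.exp)).congr_deriv ?_
    simp only [Pi.neg_apply]
    ring
  intro t ht
  have := constant_of_has_deriv_right_zero (f := fun t => g t * Real.exp (-∫ s in a..t, k s))
    (a := a) (b := b) (fun s hs => (hd s hs).continuousAt.continuousWithinAt)
    (fun s hs => (hd s (Ico_subset_Icc_self hs)).hasDerivWithinAt) t ht
  simp only [intervalIntegral.integral_same, neg_zero, Real.exp_zero, mul_one] at this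
  rw [← this, mul_assoc, ← Real.exp_add]
  simp

theorem mono_of_deriv {g g' : ℝ → ℝ} {a b : ℝ} (hg : ∀ t ∈ Icc a b, HasDerivAt g (g' t) t)
    (h0 : ∀ t ∈ Icc a b, 0 ≤ g' t) : MonotoneOn g (Icc a b) :=
  monotoneOn_of_hasDerivWithinAt_nonneg (convex_Icc a b)
    (fun t ht => (hg t ht).continuousAt.continuousWithinAt)
    (fun t ht => (hg t (interior_subset ht)).hasDerivWithinAt)
    (fun t ht => h0 t (interior_subset ht))

theorem le_of_deriv_nonneg {g g' : ℝ → ℝ} {a b : ℝ} (hab : a ≤ b)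
    (hg : ∀ t ∈ Icc a b, HasDerivAt g (g' t) t) (h0 : ∀ t ∈ Icc a b, 0 ≤ g' t) : g a ≤ g b :=
  mono_of_deriv hg h0 ⟨le_rfl, hab⟩ ⟨hab, le_rfl⟩ hab

theorem le_of_deriv_nonpos {g g' : ℝ → ℝ} {a b : ℝ} (hab : a ≤ b)
    (hg : ∀ t ∈ Icc a b, HasDerivAt g (g' t) t) (h0 : ∀ t ∈ Icc a b, g' t ≤ 0) : g b ≤ g a := by
  have := le_of_deriv_nonneg (g := fun t => - g t) (g' := fun t => - g' t) hab
    (fun t ht => (hg t ht).neg) (fun t ht => by linarith [h0 t ht])
  simpa using this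

end Pool.Agent.Lib.MP_1301ff_gt
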