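import Pool.Agent.Lib.MP_1301ff_gt.Flow

set_option autoImplicit false

namespace Pool.Agent.Lib.MP_1301ff_gt

open Set Filter Topology Real

theorem sinh_le_mul_cosh {v : ℝ} (hv : 0 ≤ v) : sinh v ≤ v * cosh v := by
  have := le_of_deriv_nonneg (g := fun t => t * cosh t - sinh t) (g' := fun t => t * sinh t) hv
    (fun t _ => by
      refine (((hasDerivAt_id t).mul (hasDerivAt_cosh t)).sub (hasDerivAt_sinh t)).congr_deriv ?_
      simp)
    (fun t ht => mul_nonneg ht.1 (sinh_nonneg_iff.2 ht.1))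
  simpa using this

theorem mul_sinh_le (u : ℝ) : u * sinh u ≤ u ^ 2 * cosh u := by
  rcases le_total 0 u with h | h
  · nlinarith [sinh_le_mul_cosh h]
  · have := sinh_le_mul_cosh (neg_nonneg.2 h)
    rw [sinh_neg, cosh_neg] at this
    nlinarith

theorem sq_le_mul_sinh (u : ℝ) : u ^ 2 ≤ u * sinh u := by
  rcases le_total 0 u with h | h
  · nlinarith [self_le_sinh_iff.2 h]
  · nlinarith [sinh_le_self_iff.2 h]

theorem cosh_sub_one (u : ℝ) : cosh u - 1 = 2 * sinh (u / 2) ^ 2 := by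
  have h1 := cosh_two_mul (u / 2)
  have h2 := cosh_sq (u / 2)
  rw [show 2 * (u / 2) = u by ring] at h1
  linarith

theorem sq_le_cosh (u : ℝ) : u ^ 2 ≤ 2 * (cosh u - 1) := by
  rw [cosh_sub_one]
  have h : (u / 2) ^ 2 ≤ sinh (u / 2) ^ 2 := by
    rcases le_total 0 (u / 2) with h | h
    · exact pow_le_pow_left₀ h (self_le_sinh_iff.2 h) 2
    · have := sinh_le_self_iff.2 h
      nlinarith
  linarith

theorem cosh_le_mul_sinh (u : ℝ) : 2 * (cosh u - 1) ≤ u * sinh u := by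
  rw [cosh_sub_one]
  have h1 := sinh_two_mul (u / 2)
  rw [show 2 * (u / 2) = u by ring] at h1
  rw [h1]
  rcases le_total 0 (u / 2) with h | h
  · have := sinh_le_mul_cosh h
    have := sinh_nonneg_iff.2 h
    nlinarith
  · have h2 := sinh_le_mul_cosh (neg_nonneg.2 h)
    rw [sinh_neg, cosh_neg] at h2
    have := sinh_nonpos_iff.2 h
    nlinarith

/-- `Ψ(z) = ∫₀ᶻ (1 + s²)⁻³ ds`. -/
noncomputable def Psi (z : ℝ) : ℝ :=
  3 / 8 * arctan z + z * (3 * z ^ 2 + 5) / (8 * (1 + z ^ 2) ^ 2)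

theorem hasDerivAt_Psi (z : ℝ) : HasDerivAt Psi (1 / (1 + z ^ 2) ^ 3) z := by
  have h0 : (1 + z ^ 2) ≠ 0 := by positivity
  have h1 : HasDerivAt (fun z : ℝ => z * (3 * z ^ 2 + 5)) (9 * z ^ 2 + 5) z := by
    refine ((hasDerivAt_id z).mul (((hasDerivAt_pow 2 z).const_mul 3).add_const 5)).congr_deriv ?_
    simp; ring
  have h2 : HasDerivAt (fun z : ℝ => 8 * (1 + z ^ 2) ^ 2) (32 * z * (1 + z ^ 2)) z := by
    refine ((((hasDerivAt_pow 2 z).const_add 1).pow 2).const_mul 8).congr_deriv ?_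
    simp; ring
  refine (((hasDerivAt_arctan z).const_mul (3 / 8)).add (h1.div h2 (by positivity))).congr_deriv ?_
  field_simp
  ring

theorem Psi_zero : Psi 0 = 0 := by simp [Psi]

theorem Psi_lower (z : ℝ) : 3 / 8 * arctan z ≤ Psi z ∨ z < 0 := by
  rcases lt_or_ge z 0 with h | h
  · exact Or.inr h
  · left
    have : 0 ≤ z * (3 * z ^ 2 + 5) / (8 * (1 + z ^ 2) ^ 2) := by positivity
    unfold Psi; linarith

theorem tendsto_Psi : Tendsto Psi atTop (𝓝 (3 * π / 16)) := by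
  have h1 : Tendsto (fun z : ℝ => 3 / 8 * arctan z) atTop (𝓝 (3 / 8 * (π / 2))) :=
    (tendsto_arctan_atTop.mono_right nhdsWithin_le_nhds).const_mul _
  have h2 : Tendsto (fun z : ℝ => z * (3 * z ^ 2 + 5) / (8 * (1 + z ^ 2) ^ 2)) atTop (𝓝 0) := by
    refine squeeze_zero' ?_ ?_ tendsto_inv_atTop_zero
    · filter_upwards [eventually_ge_atTop 0] with z hz using by positivity
    · filter_upwards [eventually_gt_atTop 0] with z hz
      rw [inv_eq_one_div, div_le_div_iff₀ (by positivity) hz]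
      nlinarith [sq_nonneg z, sq_nonneg (z ^ 2)]
  have := h1.add h2
  rw [show 3 / 8 * (π / 2) + 0 = 3 * π / 16 by ring] at this
  exact this

theorem Psi_le (z : ℝ) : Psi z ≤ 3 * π / 16 := by
  have hm : Monotone Psi := monotone_of_hasDerivAt_nonneg hasDerivAt_Psi
    (fun z => by simp only [Pi.zero_apply]; positivity)
  exact hm.ge_of_tendsto tendsto_Psi z

theorem Psi_tail {z : ℝ} (hz : 0 < z) : 3 * π / 16 - 1 / (5 * z ^ 5) ≤ Psi z := by
  have hd : ∀ t, 0 < t → HasDerivAt (fun t => Psi t + 1 / (5 * t ^ 5))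
      (1 / (1 + t ^ 2) ^ 3 - 1 / t ^ 6) t := by
    intro t ht
    have h2 : HasDerivAt (fun t : ℝ => 5 * t ^ 5) (25 * t ^ 4) t := by
      refine ((hasDerivAt_pow 5 t).const_mul 5).congr_deriv ?_
      simp; ring
    refine ((hasDerivAt_Psi t).add ((hasDerivAt_const t (1 : ℝ)).div h2
      (by positivity))).congr_deriv ?_
    field_simp
    ring
  have hlim : Tendsto (fun t => Psi t + 1 / (5 * t ^ 5)) atTop (𝓝 (3 * π / 16 + 0)) := by
    refine tendsto_Psi.add ?_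
    refine tendsto_const_nhds.div_atTop ?_
    exact (tendsto_pow_atTop (by norm_num)).const_mul_atTop (by norm_num)
  have : 3 * π / 16 + 0 ≤ Psi z + 1 / (5 * z ^ 5) := by
    refine le_of_tendsto hlim ?_
    filter_upwards [eventually_ge_atTop z] with w hw
    refine le_of_deriv_nonpos hw (fun t ht => hd t (hz.trans_le ht.1)) fun t ht => ?_
    have ht0 : 0 < t := hz.trans_le ht.1
    have : 1 / (1 + t ^ 2) ^ 3 ≤ 1 / t ^ 6 := by
      refine one_div_le_one_div_of_le (by positivity) ?_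
      rw [show t ^ 6 = (t ^ 2) ^ 3 by ring]
      exact pow_le_pow_left₀ (by positivity) (by linarith) 3
    linarith
  linarith

/-- The key pointwise inequality behind the strict lower bound for the volume. -/
theorem key_H {u p y r c s : ℝ} (hc : u ^ 2 ≤ 2 * c) (hs : u * s ≤ u ^ 2 * (1 + c))
    (he : p ^ 2 + 4 * c ≤ 1 / 100) (hcon : y ^ 2 + r ^ 2 = (p ^ 2 + 4 * (1 + c)) / 12) :
    1 / 200 * (u ^ 2 + p ^ 2) ≤
      1 - (y ^ 2 + r ^ 2 + p ^ 2 / 4) / (9 * (y ^ 2 + r ^ 2) ^ 3) -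
        13 / 50 * (5 * y ^ 2 * u ^ 2 - (r ^ 2 + p ^ 2 / 4) * u ^ 2 - p ^ 2 + 2 * (u * s)) := by
  have hc0 : 0 ≤ c := by nlinarith [sq_nonneg u]
  set k : ℝ := (p ^ 2 + 4 * c) / 4 with hk
  have hk0 : 0 ≤ k := by positivity
  have hk1 : k ≤ 1 / 400 := by linarith
  have hE : y ^ 2 + r ^ 2 = (1 + k) / 3 := by rw [hcon, hk]; ring
  have h1 : (y ^ 2 + r ^ 2 + p ^ 2 / 4) / (9 * (y ^ 2 + r ^ 2) ^ 3) ≤
      1 - 2 * k + 3 * k ^ 2 + 3 / 4 * p ^ 2 := by
    rw [hE, div_le_iff₀ (by positivity)]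
    have h2 : 0 ≤ p ^ 2 * (3 * k + 3 * k ^ 2 + k ^ 3) := by positivity
    have h3 : 0 ≤ k ^ 3 * (4 + 7 * k + 3 * k ^ 2) := by positivity
    nlinarith
  have hy : y ^ 2 ≤ 401 / 1200 := by nlinarith [sq_nonneg r]
  have h4 : y ^ 2 * u ^ 2 ≤ 401 / 1200 * u ^ 2 := mul_le_mul_of_nonneg_right hy (sq_nonneg u)
  have h5 : 0 ≤ (r ^ 2 + p ^ 2 / 4) * u ^ 2 := by positivity
  have h6 : u ^ 2 * c ≤ u ^ 2 * (1 / 400) :=
    mul_le_mul_of_nonneg_left (by nlinarith [sq_nonneg p]) (sq_nonneg u)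
  have h7 : k ^ 2 ≤ k / 400 := by nlinarith
  have h8 : p ^ 2 / 4 + u ^ 2 / 2 ≤ k := by rw [hk]; linarith
  nlinarith [sq_nonneg u, sq_nonneg p]

theorem key_N {u p y r c s : ℝ} (hc : u ^ 2 ≤ 2 * c) (hs : u * s ≤ u ^ 2 * (1 + c))
    (he : p ^ 2 + 4 * c ≤ 1 / 100) (hcon : y ^ 2 + r ^ 2 = (p ^ 2 + 4 * (1 + c)) / 12)
    (hy : 0 ≤ y) (hr : r ^ 2 ≤ 1 / 12) :
    0 ≤ y * p ^ 2 + 3 * y ^ 2 * (u * p) + 16 * y * c - 6 * y * (u * s) -
      3 * (r ^ 2 + p ^ 2 / 4) * (u * p) := by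
  have hc0 : 0 ≤ c := by nlinarith [sq_nonneg u]
  have hy1 : 1 / 2 ≤ y := by nlinarith [sq_nonneg p]
  have hy2 : y ≤ 58 / 100 := by nlinarith [sq_nonneg r]
  have h6 : u ^ 2 * c ≤ u ^ 2 * (1 / 400) :=
    mul_le_mul_of_nonneg_left (by nlinarith [sq_nonneg p]) (sq_nonneg u)
  have ha : 198 / 100 * u ^ 2 ≤ 16 * c - 6 * (u * s) := by nlinarith
  set w := |u * p| with hw
  have hw0 : 0 ≤ w := abs_nonneg _
  have hw1 : -w ≤ u * p := neg_abs_le _
  have hw2 : u * p ≤ w := le_abs_self _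
  have hw3 : 28 / 10 * w ≤ p ^ 2 + 198 / 100 * u ^ 2 := by
    rcases abs_cases (u * p) with ⟨h, -⟩ | ⟨h, -⟩ <;> rw [hw, h] <;>
      nlinarith [sq_nonneg (p - 14 / 10 * u), sq_nonneg (p + 14 / 10 * u)]
  have hq : r ^ 2 + p ^ 2 / 4 ≤ 9 / 100 := by nlinarith
  have hq0 : 0 ≤ r ^ 2 + p ^ 2 / 4 := by positivity
  have e1 : -(3 * y ^ 2 * w) ≤ 3 * y ^ 2 * (u * p) := by nlinarith [sq_nonneg y]
  have e2 : 3 * (r ^ 2 + p ^ 2 / 4) * (u * p) ≤ 27 / 100 * w := by nlinarith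
  have e3 : y * (28 / 10 * w) ≤ y * (p ^ 2 + (16 * c - 6 * (u * s))) :=
    mul_le_mul_of_nonneg_left (by linarith) hy
  have e4 : 27 / 100 ≤ y * (28 / 10) - 3 * y ^ 2 := by nlinarith
  nlinarith

end Pool.Agent.Lib.MP_1301ff_gt
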