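import Pool.Agent.Lib.MP_1301ff_gt.Curv

set_option autoImplicit false

namespace Pool.Agent.Lib.MP_1301ff_gt

open Filter Topology Matrix
open scoped ContDiff

variable {n : ℕ}

/-- Pulled back connection matrices. -/
noncomputable def pbc (φ : (Fin n → ℝ) → Fin n → ℝ) (Γ : Fin n → MF n) (i : Fin n) : MF n :=
  fun y => ∑ b, Jac φ y b i • Γ b (φ y)

theorem pdM_Jac_symm {φ : (Fin n → ℝ) → Fin n → ℝ} {x : Fin n → ℝ} (hφ : ContDiffAt ℝ 2 φ x)
    (a i j : Fin n) : pdM i (Jac φ) x a j = pdM j (Jac φ) x a i :=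
  pd_comm (contDiffAt_pi.1 hφ a)

theorem Gam_pullback {φ : (Fin n → ℝ) → Fin n → ℝ} {G G' : MF n} {x : Fin n → ℝ}
    (hφ : ContDiffAt ℝ 2 φ x) (hG : CD 1 G (φ x)) (hs : ∀ y, (G y)ᵀ = G y)
    (hd : (G (φ x)).det ≠ 0) (hJ : (Jac φ x).det ≠ 0)
    (h : G' =ᶠ[𝓝 x] fun y => (Jac φ y)ᵀ * G (φ y) * Jac φ y) (i : Fin n) :
    Jac φ x * Gam G' i x = pbc φ (Gam G) i x * Jac φ x + pdM i (Jac φ) x := by
  have hu := Ne.isUnit hJ
  have e0 := h.eq_of_nhds
  have cJ : CD 1 (Jac φ) x := CD_Jac hφ (by norm_num)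
  have cG : CD 1 (fun y => G (φ y)) x := hG.comp (hφ.of_le (by norm_num))
  rw [Gam_unique (G := G') (B := fun i => (Jac φ x)⁻¹ *
    (pbc φ (Gam G) i x * Jac φ x + pdM i (Jac φ) x)), mul_nonsing_inv_cancel_left _ _ hu]
  · simp only [e0, transpose_mul, transpose_transpose, hs, Matrix.mul_assoc]
  · simp only [e0, det_mul, det_transpose]
    exact mul_ne_zero (mul_ne_zero hJ hd) hJ
  · intro k i j
    simp only [mul_apply]
    refine Finset.sum_congr rfl fun a _ => ?_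
    simp only [Matrix.add_apply, pdM_Jac_symm hφ a i j, mul_apply, pbc, Matrix.sum_apply,
      Matrix.smul_apply, smul_eq_mul, Finset.sum_mul]
    rw [Finset.sum_comm]
    congr 2
    refine Finset.sum_congr rfl fun b _ => Finset.sum_congr rfl fun c _ => ?_
    rw [Gam_symm hs _ a b c]
    ring
  · intro i
    have e1 : pdM i (fun y => G (φ y)) x =
        (pbc φ (Gam G) i x)ᵀ * G (φ x) + G (φ x) * pbc φ (Gam G) i x := by
      rw [pdM_comp hG (hφ.differentiableAt (by norm_num))]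
      simp only [Gam_compat hs hd, pbc, transpose_sum, transpose_smul, Finset.sum_mul,
        Finset.mul_sum, smul_mul, Matrix.mul_smul, smul_add, Finset.sum_add_distrib]
    have e2 : ∀ Z : Matrix (Fin n) (Fin n) ℝ, (Jac φ x)⁻¹ᵀ * ((Jac φ x)ᵀ * Z) = Z := fun Z => by
      rw [← Matrix.mul_assoc, ← transpose_mul, mul_nonsing_inv _ hu, transpose_one, Matrix.one_mul]
    rw [pdM_congr h, pdM_mul (cJ.tr.mul cG) cJ, pdM_mul cJ.tr cG, pdM_tr, e1, e0]
    simp only [transpose_mul, transpose_add, Matrix.mul_assoc, e2,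
      mul_nonsing_inv_cancel_left _ _ hu, Matrix.mul_add, Matrix.add_mul]
    abel

theorem Om_pbc {φ : (Fin n → ℝ) → Fin n → ℝ} {Γ : Fin n → MF n} {x : Fin n → ℝ}
    (hφ : ContDiffAt ℝ 2 φ x) (hΓ : ∀ b, CD 1 (Γ b) (φ x)) (i j : Fin n) :
    Om (pbc φ Γ) i j x = ∑ d, ∑ b, (Jac φ x d i * Jac φ x b j) • Om Γ d b (φ x) := by
  have cJ : CD 1 (Jac φ) x := CD_Jac hφ (by norm_num)
  have e1 : ∀ i j, pdM i (pbc φ Γ j) x = ∑ b, pdM i (Jac φ) x b j • Γ b (φ x) +
      ∑ d, ∑ b, (Jac φ x d i * Jac φ x b j) • pdM d (Γ b) (φ x) := fun i j => by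
    unfold pbc
    rw [pdM_sum _ fun b _ => CD.smul (cJ b j) ((hΓ b).comp (hφ.of_le (by norm_num))),
      Finset.sum_comm, ← Finset.sum_add_distrib]
    refine Finset.sum_congr rfl fun b _ => ?_
    rw [pdM_smul (cJ b j) ((hΓ b).comp (hφ.of_le (by norm_num))),
      pdM_comp (hΓ b) (hφ.differentiableAt (by norm_num)), Finset.smul_sum]
    simp only [smul_smul, mul_comm]
    rfl
  have e2 : ∀ i j, pbc φ Γ i x * pbc φ Γ j x =
      ∑ d, ∑ b, (Jac φ x d i * Jac φ x b j) • (Γ d (φ x) * Γ b (φ x)) := fun i j => by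
    simp only [pbc, Finset.sum_mul_sum, smul_mul, Matrix.mul_smul, smul_smul,
      mul_comm (Jac φ x _ j)]
  simp only [Om, e1, e2, smul_add, smul_sub, Finset.sum_add_distrib, Finset.sum_sub_distrib,
    pdM_Jac_symm hφ _ i j]
  rw [Finset.sum_comm (f := fun d b => (Jac φ x d j * Jac φ x b i) • pdM d (Γ b) (φ x)),
    Finset.sum_comm (f := fun d b => (Jac φ x d j * Jac φ x b i) • (Γ d (φ x) * Γ b (φ x)))]
  simp only [mul_comm (Jac φ x _ j)]
  abel

theorem Om_gauge {J : MF n} {A B : Fin n → MF n} {x : Fin n → ℝ} (hJ : CD 2 J x)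
    (hA : ∀ i, CD 1 (A i) x) (hB : ∀ i, CD 1 (B i) x)
    (h : ∀ i, ∀ᶠ y in 𝓝 x, J y * B i y = A i y * J y + pdM i J y) (i j : Fin n) :
    J x * Om B i j x = Om A i j x * J x := by
  have cJ : CD 1 J x := hJ.of_le (by norm_num)
  have e1 : ∀ i j, J x * pdM i (B j) x = pdM i (A j) x * J x + A j x * pdM i J x +
      pdM i (pdM j J) x - pdM i J x * B j x := fun i j => by
    have := pdM_congr (i := i) (h j)
    rw [pdM_mul cJ (hB j), pdM_add ((hA j).mul cJ) (hJ.pdM (by norm_num)), pdM_mul (hA j) cJ]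
      at this
    rw [← this]
    abel
  have e2 : ∀ i j, J x * (B i x * B j x) = A i x * (A j x * J x) + A i x * pdM j J x +
      pdM i J x * B j x := fun i j => by
    rw [← Matrix.mul_assoc, (h i).self_of_nhds, Matrix.add_mul, Matrix.mul_assoc,
      (h j).self_of_nhds, Matrix.mul_add]
  simp only [Om, Matrix.mul_add, Matrix.mul_sub, Matrix.add_mul, Matrix.sub_mul, e1, e2,
    Matrix.mul_assoc, pdM_comm (i := i) (j := j) hJ]
  abel

/-- Invariance of the Ricci tensor under changes of coordinates. -/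
theorem Ric_pullback {φ : (Fin n → ℝ) → Fin n → ℝ} {G G' : MF n} {x : Fin n → ℝ}
    (hφ : ContDiffAt ℝ 3 φ x) (hG : CD 2 G (φ x)) (hs : ∀ y, (G y)ᵀ = G y)
    (hd : (G (φ x)).det ≠ 0) (hJ : (Jac φ x).det ≠ 0)
    (h : G' =ᶠ[𝓝 x] fun y => (Jac φ y)ᵀ * G (φ y) * Jac φ y) :
    Matrix.of (Ric G' x) = (Jac φ x)ᵀ * Matrix.of (Ric G (φ x)) * Jac φ x := by
  have hu := Ne.isUnit hJ
  have hφ2 : ContDiffAt ℝ 2 φ x := hφ.of_le (by norm_num)
  have cJ : CD 2 (Jac φ) x := CD_Jac hφ (by norm_num)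
  have cG : CD 2 (fun y => G (φ y)) x := hG.comp hφ2
  have cG' : CD 2 G' x := ((cJ.tr.mul cG).mul cJ).congr h
  have hd' : (G' x).det ≠ 0 := by
    simp only [h.eq_of_nhds, det_mul, det_transpose]
    exact mul_ne_zero (mul_ne_zero hJ hd) hJ
  have cΓ : ∀ b, CD 1 (Gam G b) (φ x) := hG.Gam (by norm_num) hd
  have key := Om_gauge (A := pbc φ (Gam G)) (B := Gam G') cJ
    (fun i => CD.sum _ fun b _ => CD.smul ((cJ b i).of_le (by norm_num))
      ((cΓ b).comp (hφ.of_le (by norm_num))))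
    (cG'.Gam (by norm_num) hd') fun i => by
      filter_upwards [hφ2.eventually (by simp), hφ.continuousAt.eventually
        ((hG.of_le (m := 1) (by norm_num)).eventually (by simp)), cG.det_ne hd, cJ.det_ne hJ,
        h.eventuallyEq_nhds] with y a1 a2 a3 a4 a5
      exact Gam_pullback a1 a2 hs a3 a4 a5 i
  have e1 : ∀ i j, Om (Gam G') i j x = (Jac φ x)⁻¹ * (Om (pbc φ (Gam G)) i j x * Jac φ x) :=
    fun i j => by rw [← key, nonsing_inv_mul_cancel_left _ _ hu]
  have e2 : ∀ d a, ∑ i, Jac φ x d i * (Jac φ x)⁻¹ i a = if d = a then 1 else 0 := fun d a => by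
    rw [← mul_apply, mul_nonsing_inv _ hu, one_apply]
  ext j k
  calc Matrix.of (Ric G' x) j k
      = ∑ i, ∑ a, ∑ d, ∑ b, Jac φ x d i * (Jac φ x)⁻¹ i a *
          (Jac φ x b j * (Om (Gam G) d b (φ x) * Jac φ x) a k) := by
        simp only [of_apply, Ric_eq, e1, Om_pbc hφ2 cΓ, Finset.sum_mul, smul_mul]
        refine Finset.sum_congr rfl fun i _ => ?_
        rw [mul_apply]
        refine Finset.sum_congr rfl fun a _ => ?_
        simp only [Matrix.sum_apply, Matrix.smul_apply, smul_eq_mul, Finset.mul_sum]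
        exact Finset.sum_congr rfl fun d _ => Finset.sum_congr rfl fun b _ => by ring
    _ = ∑ a, ∑ b, Jac φ x b j * (Om (Gam G) a b (φ x) * Jac φ x) a k := by
        rw [Finset.sum_comm]
        refine Finset.sum_congr rfl fun a _ => ?_
        rw [Finset.sum_comm]
        simp only [← Finset.mul_sum, ← Finset.sum_mul, e2]
        simp
    _ = _ := by
        rw [Finset.sum_comm, Matrix.mul_assoc, mul_apply]
        refine Finset.sum_congr rfl fun b _ => ?_
        simp only [← Finset.mul_sum, transpose_apply, mul_apply, of_apply, Ric_eq, Finset.sum_mul]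
        rw [Finset.sum_comm]

end Pool.Agent.Lib.MP_1301ff_gt
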