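import Pool.Agent.Lib.MP_1301ff_gt.Inv

set_option autoImplicit false

namespace Pool.Agent.Lib.MP_1301ff_gt

open Filter Topology Matrix Real
open scoped ContDiff

variable {n : ℕ}

section alg

variable {R : Type} [Field R]

def kJ (D : Fin n → Matrix (Fin n) (Fin n) R) (i : Fin n) : Matrix (Fin n) (Fin n) R :=
  Matrix.of fun l j => 1 / 2 * (D i j l + D j i l - D l i j)

/-- The Ricci tensor in terms of the `2`-jet of the metric. -/
def ricJ (H : Matrix (Fin n) (Fin n) R) (D : Fin n → Matrix (Fin n) (Fin n) R)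
    (E : Fin n → Fin n → Matrix (Fin n) (Fin n) R) (j k : Fin n) : R :=
  ∑ i, (H * (kJ (E i) j - D i * (H * kJ D j)) - H * (kJ (E j) i - D j * (H * kJ D i)) +
    (H * kJ D i * (H * kJ D j) - H * kJ D j * (H * kJ D i))) i k

end alg

theorem ricJ_cast (H : Matrix (Fin n) (Fin n) ℚ) (D : Fin n → Matrix (Fin n) (Fin n) ℚ)
    (E : Fin n → Fin n → Matrix (Fin n) (Fin n) ℚ) (j k : Fin n) :
    ricJ (H.map ((↑) : ℚ → ℝ)) (fun m => (D m).map (↑)) (fun m l => (E m l).map (↑)) j k =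
      ((ricJ H D E j k : ℚ) : ℝ) := by
  simp [ricJ, kJ, mul_apply]

theorem Ric_jet {G : MF n} {x : Fin n → ℝ} (hG : CD 2 G x) (hd : (G x).det ≠ 0) :
    Ric G x = ricJ (G x)⁻¹ (fun m => pdM m G x) fun m l => pdM m (pdM l G) x := by
  have c1 : ∀ l, CD 1 (pdM l G) x := fun l => hG.pdM (by norm_num)
  have e1 : ∀ m i, pdM m (Kam G i) x = kJ (fun l => pdM m (pdM l G) x) i := fun m i => by
    ext l j
    simp only [kJ, of_apply]
    rw [pdM, of_apply]
    simp only [Kam, of_apply]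
    rw [pd_mul (differentiableAt_const _) ((((c1 i).diff j l).fun_add ((c1 j).diff i l)).fun_sub
      ((c1 l).diff i j)), pd_sub (((c1 i).diff j l).fun_add ((c1 j).diff i l)) ((c1 l).diff i j),
      pd_add ((c1 i).diff j l) ((c1 j).diff i l), pd_const, zero_mul, zero_add]
    rfl
  have e2 : ∀ i, Gam G i x = (G x)⁻¹ * kJ (fun m => pdM m G x) i := fun i => Gam_eq G i x
  have e3 : ∀ m i, pdM m (Gam G i) x = (G x)⁻¹ * (kJ (fun l => pdM m (pdM l G) x) i -
      pdM m G x * ((G x)⁻¹ * kJ (fun m => pdM m G x) i)) := fun m i => by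
    have := pdM_congr (i := m) ((hG.det_ne hd).mono fun y hy => mul_Gam hy i)
    rw [pdM_mul (hG.of_le (by norm_num)) (hG.Gam (by norm_num) hd i), e1] at this
    rw [← this, ← e2, add_sub_cancel_left, nonsing_inv_mul_cancel_left _ _ (Ne.isUnit hd)]
  ext j k
  simp only [Ric_eq, Om, e2, e3, ricJ]

theorem pdM_comb {ι : Type} [Fintype ι] {f : ι → (Fin n → ℝ) → ℝ}
    (hf : ∀ a, Differentiable ℝ (f a)) (C : ι → Matrix (Fin n) (Fin n) ℝ) (l : Fin n) :
    pdM l (fun z => ∑ a, f a z • C a) = fun z => ∑ a, pd l (f a) z • C a := by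
  funext z
  ext i j
  simp only [pdM, of_apply, Matrix.sum_apply, Matrix.smul_apply, smul_eq_mul]
  rw [pd_sum _ fun a _ => (hf a z).mul_const _]
  refine Finset.sum_congr rfl fun a _ => ?_
  rw [pd_mul (hf a z) (differentiableAt_const _), pd_const, mul_zero, add_zero]

noncomputable def sE (a : Fin n) (z : Fin n → ℝ) : ℝ := sin (2 * z a)

theorem contDiff_sE (a : Fin n) : ContDiff ℝ ∞ (sE a) := by
  unfold sE
  fun_prop

theorem pd_sE (a l : Fin n) : pd l (sE a) = fun z => cos (2 * z a) * if a = l then 2 else 0 := by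
  funext z
  refine (pd_scomp (hasDerivAt_sin _) (by fun_prop)).trans ?_
  rw [pd_mul (by fun_prop) (by fun_prop), pd_const, pd_coord]
  simp

theorem pd_sE2 (a l m : Fin n) : pd m (pd l (sE a)) 0 = 0 := by
  rw [pd_sE, pd_mul (by fun_prop) (by fun_prop), pd_const,
    pd_scomp (hasDerivAt_cos _) (by fun_prop)]
  simp

theorem pd_sE_mul (a b l : Fin n) : pd l (fun z => sE a z * sE b z) =
    fun z => pd l (sE a) z * sE b z + sE a z * pd l (sE b) z :=
  funext fun z => pd_mul ((contDiff_sE a).differentiable (by simp) z)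
    ((contDiff_sE b).differentiable (by simp) z)

theorem pd_sE_mul2 (a b l m : Fin n) : pd m (pd l fun z => sE a z * sE b z) 0 =
    (if a = l then 2 else 0) * (if b = m then 2 else 0) +
      (if a = m then 2 else 0) * (if b = l then 2 else 0) := by
  have h1 : ∀ a, DifferentiableAt ℝ (sE a : (Fin n → ℝ) → ℝ) 0 := fun a =>
    (contDiff_sE a).differentiable (by simp) 0
  have h2 : ∀ a, DifferentiableAt ℝ (pd l (sE a)) (0 : Fin n → ℝ) := fun a => by
    rw [pd_sE]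
    fun_prop
  rw [pd_sE_mul, pd_add ((h2 a).fun_mul (h1 b)) ((h1 a).fun_mul (h2 b)), pd_mul (h2 a) (h1 b),
    pd_mul (h1 a) (h2 b), pd_sE2, pd_sE2]
  simp [pd_sE]

noncomputable def fE : Fin 6 → (Fin 5 → ℝ) → ℝ :=
  ![fun _ => 1, sE 0, sE 2, fun z => sE 0 z * sE 0 z, fun z => sE 0 z * sE 2 z,
    fun z => sE 2 z * sE 2 z]

def cE : Fin 6 → Matrix (Fin 5) (Fin 5) ℚ :=
  ![!![2/3, 0, 0, 0, 0; 0, 2/3, 0, 0, 0; 0, 0, 2/3, 0, 0; 0, 0, 0, 2/3, 0; 0, 0, 0, 0, 4/9],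
    !![0, 0, 0, 0, 0; 0, 0, 0, 0, 4/9; 0, 0, 0, 0, 0; 0, 0, 0, 0, 0; 0, 4/9, 0, 0, 0],
    !![0, 0, 0, 0, 0; 0, 0, 0, 0, 0; 0, 0, 0, 0, 0; 0, 0, 0, 0, -4/9; 0, 0, 0, -4/9, 0],
    !![0, 0, 0, 0, 0; 0, -2/9, 0, 0, 0; 0, 0, 0, 0, 0; 0, 0, 0, 0, 0; 0, 0, 0, 0, 0],
    !![0, 0, 0, 0, 0; 0, 0, 0, -4/9, 0; 0, 0, 0, 0, 0; 0, -4/9, 0, 0, 0; 0, 0, 0, 0, 0],
    !![0, 0, 0, 0, 0; 0, 0, 0, 0, 0; 0, 0, 0, 0, 0; 0, 0, 0, -2/9, 0; 0, 0, 0, 0, 0]]

/-- The metric of `T^{1,1}` in Euler type coordinates. -/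
noncomputable def GE : MF 5 := fun z => ∑ a, fE a z • (cE a).map ((↑) : ℚ → ℝ)

def dE (m : Fin 5) : Matrix (Fin 5) (Fin 5) ℚ :=
  if m = 0 then (2 : ℚ) • cE 1 else if m = 2 then (2 : ℚ) • cE 2 else 0

def eE (m l : Fin 5) : Matrix (Fin 5) (Fin 5) ℚ :=
  if m = 0 then (if l = 0 then (8 : ℚ) • cE 3 else if l = 2 then (4 : ℚ) • cE 4 else 0)
  else if m = 2 then (if l = 0 then (4 : ℚ) • cE 4 else if l = 2 then (8 : ℚ) • cE 5 else 0) else 0

def hE : Matrix (Fin 5) (Fin 5) ℚ :=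
  !![3/2, 0, 0, 0, 0; 0, 3/2, 0, 0, 0; 0, 0, 3/2, 0, 0; 0, 0, 0, 3/2, 0; 0, 0, 0, 0, 9/4]

theorem ricJ_E : ∀ j k, ricJ hE dE eE j k = 4 * cE 0 j k := by decide +kernel

theorem hE_mul : cE 0 * hE = 1 := by decide +kernel

theorem contDiff_fE (a : Fin 6) : ContDiff ℝ ∞ (fE a) := by
  fin_cases a
  exacts [contDiff_const, contDiff_sE 0, contDiff_sE 2, (contDiff_sE 0).mul (contDiff_sE 0),
    (contDiff_sE 0).mul (contDiff_sE 2), (contDiff_sE 2).mul (contDiff_sE 2)]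

theorem GE_zero : GE 0 = (cE 0).map (↑) := by
  simp [GE, fE, sE, Fin.sum_univ_six]

theorem Ric_GE : Matrix.of (Ric GE 0) = (4 : ℝ) • GE 0 := by
  have h1 : ∀ a, Differentiable ℝ (fE a) := fun a => (contDiff_fE a).differentiable (by simp)
  have h2 : ∀ l a, Differentiable ℝ (pd l (fE a)) := fun l a z =>
    (contDiffAt_pd (k := 1) (contDiff_fE a).contDiffAt
      (WithTop.coe_le_coe.2 le_top)).differentiableAt one_ne_zero
  have c : CD 2 GE 0 := CD.sum _ fun a _ => CD.smul ((contDiff_fE a).contDiffAt.of_le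
    (WithTop.coe_le_coe.2 le_top)) fun _ _ => contDiffAt_const
  have e0 : GE 0 * hE.map (↑) = 1 := by
    rw [GE_zero, ← Rat.coe_castHom, ← Matrix.map_mul, hE_mul, Matrix.map_one _ (map_zero _)
      (map_one _)]
  have e1 : (fun m => pdM m GE 0) = fun m => (dE m).map (↑) := funext fun m => by
    unfold GE
    rw [pdM_comb h1]
    have : ∀ a : Fin 5, sE a 0 = 0 := fun a => by simp [sE]
    fin_cases m <;>
      simp [fE, dE, Fin.sum_univ_six, pd_const, pd_sE, pd_sE_mul, this, Matrix.map_smul']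
  have e2 : (fun m l => pdM m (pdM l GE) 0) = fun m l => (eE m l).map (↑) := funext₂ fun m l => by
    unfold GE
    rw [pdM_comb h1, pdM_comb (h2 l)]
    have : pd m (pd l fun _ => (1 : ℝ)) 0 = 0 := by
      rw [show pd l (fun _ => (1 : ℝ)) = fun _ => 0 from funext fun _ => pd_const _, pd_const]
    simp only [fE, Fin.sum_univ_six, cons_val, pd_sE2, pd_sE_mul2, this]
    fin_cases m <;> fin_cases l <;> simp [eE, Matrix.map_smul'] <;> norm_num
  rw [Ric_jet c (det_ne_zero_of_right_inverse e0), inv_eq_right_inv e0, e1, e2]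
  ext j k
  simp [ricJ_cast, ricJ_E, GE_zero]

end Pool.Agent.Lib.MP_1301ff_gt
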