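import Pool.Agent.Lib.MP_1301ff_gt.Blk

set_option autoImplicit false

namespace Pool.Agent.Lib.MP_1301ff_gt

open Filter Topology Matrix Set MeasureTheory
open scoped ContDiff Manifold

variable {m n : ℕ}

/-- Closed manifolds whose charts are onto `ℝⁿ`, one of them having a null complement. -/
structure Mfd (n : ℕ) where
  M : Type
  [top : TopologicalSpace M]
  [cs : ChartedSpace (Fin n → ℝ) M]
  [man : IsManifold 𝓘(ℝ, Fin n → ℝ) ∞ M]
  [t2 : T2Space M]
  [cpt : CompactSpace M]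
  [con : ConnectedSpace M]
  tgt : ∀ p : M, (chartAt (Fin n → ℝ) p).target = univ
  o : M
  ae : ∀ p : M, ∀ᵐ x, (chartAt (Fin n → ℝ) p).symm x ∈ (chartAt (Fin n → ℝ) o).source

attribute [instance] Mfd.top Mfd.cs Mfd.man Mfd.t2 Mfd.cpt Mfd.con

section prod

variable (m n) (M N : Type) [TopologicalSpace M] [ChartedSpace (Fin m → ℝ) M] [TopologicalSpace N]
  [ChartedSpace (Fin n → ℝ) N]

@[reducible] noncomputable def prodCS : ChartedSpace (Fin (m + n) → ℝ) (M × N) where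
  atlas := range fun p : M × N => ((chartAt (Fin m → ℝ) p.1).prod
    (chartAt (Fin n → ℝ) p.2)).transHomeomorph (Fin.appendHomeomorph m n)
  chartAt p := ((chartAt (Fin m → ℝ) p.1).prod
    (chartAt (Fin n → ℝ) p.2)).transHomeomorph (Fin.appendHomeomorph m n)
  mem_chart_source p := ⟨mem_chart_source _ p.1, mem_chart_source _ p.2⟩
  chart_mem_atlas p := ⟨p, rfl⟩

theorem contDiffAt_append {k : ℕ} {φ : (Fin k → ℝ) → Fin m → ℝ} {ψ : (Fin k → ℝ) → Fin n → ℝ}
    {z : Fin k → ℝ} (hφ : ContDiffAt ℝ ∞ φ z) (hψ : ContDiffAt ℝ ∞ ψ z) :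
    ContDiffAt ℝ ∞ (fun z => Fin.append (φ z) (ψ z)) z := by
  refine contDiffAt_pi.2 fun a => ?_
  induction a using Fin.addCases with
  | left a => simpa using contDiffAt_pi.1 hφ a
  | right a => simpa using contDiffAt_pi.1 hψ a

theorem prod_isManifold [IsManifold 𝓘(ℝ, Fin m → ℝ) ∞ M] [IsManifold 𝓘(ℝ, Fin n → ℝ) ∞ N] :
    letI := prodCS m n M N
    IsManifold 𝓘(ℝ, Fin (m + n) → ℝ) ∞ (M × N) := by
  let _ := prodCS m n M N
  refine isManifold_of_contDiffOn _ _ _ ?_
  rintro _ _ ⟨p, rfl⟩ ⟨q, rfl⟩ z ⟨⟨⟨h1, h2⟩, h3, h4⟩, -⟩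
  exact (contDiffAt_append m n ((contDiffAt_tr (x := fs z) h1 h3).comp z contDiff_fs.contDiffAt)
    ((contDiffAt_tr (x := sn z) h2 h4).comp z contDiff_sn.contDiffAt)).contDiffWithinAt

end prod

noncomputable def Mfd.prod (X : Mfd m) (Y : Mfd n) : Mfd (m + n) where
  M := X.M × Y.M
  cs := prodCS m n X.M Y.M
  man := prod_isManifold m n X.M Y.M
  tgt p := eq_univ_of_forall fun z =>
    ⟨(X.tgt p.1).symm ▸ mem_univ (fs z), (Y.tgt p.2).symm ▸ mem_univ (sn z)⟩
  o := (X.o, Y.o)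
  ae p := by
    filter_upwards [(Measure.quasiMeasurePreserving_fst.comp
      measurePreserving_split.quasiMeasurePreserving).ae (X.ae p.1),
      (Measure.quasiMeasurePreserving_snd.comp
      measurePreserving_split.quasiMeasurePreserving).ae (Y.ae p.2)] with z h1 h2
    exact ⟨h1, h2⟩

theorem Mfd.mem (X : Mfd n) (p : X.M) (x : Fin n → ℝ) : x ∈ (chartAt (Fin n → ℝ) p).target :=
  (X.tgt p).symm ▸ mem_univ x

theorem MData.warp {X : Mfd m} {Y : Mfd n} {A : X.M → MF m} {B : Y.M → MF n} (hA : MData A)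
    (hB : MData B) {f h : X.M → ℝ} (f0 : ∀ q, 0 < f q) (h0 : ∀ q, 0 < h q)
    (cf : ∀ p : X.M, ContDiff ℝ ∞ fun x => f ((chartAt (Fin m → ℝ) p).symm x))
    (ch : ∀ p : X.M, ContDiff ℝ ∞ fun x => h ((chartAt (Fin m → ℝ) p).symm x)) :
    MData (M := (X.prod Y).M) fun p z =>
      blk (f ((chartAt (Fin m → ℝ) p.1).symm (fs z)) • A p.1 (fs z))
        (h ((chartAt (Fin m → ℝ) p.1).symm (fs z)) • B p.2 (sn z)) where
  sm p z := CD_blk
    (fun a b => ((cf p.1).comp contDiff_fs).contDiffAt.mul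
      ((hA.sm p.1 _).comp contDiff_fs.contDiffAt a b))
    (fun a b => ((ch p.1).comp contDiff_fs).contDiffAt.mul
      ((hB.sm p.2 _).comp contDiff_sn.contDiffAt a b))
  pos p z := posDef_blk ((hA.pos _ _).smul (f0 _)) ((hB.pos _ _).smul (h0 _))
  compat := by
    rintro p q z ⟨h1, h2⟩
    have e : tr (n := m + n) (M := (X.prod Y).M) p q =
      fun z => Fin.append (tr (n := m) p.1 q.1 (fs z)) (tr (n := n) p.2 q.2 (sn z)) := rfl
    have h1' : (chartAt (Fin m → ℝ) p.1).symm (fs z) ∈ (chartAt (Fin m → ℝ) q.1).source := h1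
    have h2' : (chartAt (Fin n → ℝ) p.2).symm (sn z) ∈ (chartAt (Fin n → ℝ) q.2).source := h2
    rw [e, Jac_append ((contDiffAt_tr (X.mem _ _) h1').differentiableAt (by simp))
      ((contDiffAt_tr (Y.mem _ _) h2').differentiableAt (by simp)), fs_append, sn_append, blk_tr,
      blk_mul, blk_mul, hA.compat p.1 q.1 _ h1', hB.compat p.2 q.2 _ h2', tr,
      (chartAt (Fin m → ℝ) q.1).left_inv h1']
    simp only [Matrix.mul_smul, smul_mul]

/-- There is an Einstein metric with Einstein constant `c` and volume `V`. -/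
def EData (X : Mfd n) (c V : ℝ) : Prop :=
  ∃ G : X.M → MF n, MData G ∧ (∀ p x, Matrix.of (Ric (G p) x) = c • G p x) ∧
    (∫⁻ x, dens (G X.o) x).toReal = V

theorem symm_of_posDef {A : Matrix (Fin n) (Fin n) ℝ} (h : A.PosDef) : Aᵀ = A := by
  rw [← conjTranspose_eq_transpose_of_trivial, h.isHermitian]

theorem two_le_inf : (2 : ℕ∞ω) ≤ ∞ := by
  exact WithTop.coe_le_coe.2 le_top

theorem three_le_inf : (3 : ℕ∞ω) ≤ ∞ := by
  exact WithTop.coe_le_coe.2 le_top

theorem EData.prod {X : Mfd m} {Y : Mfd n} {c V W : ℝ} (hX : EData X c V) (hY : EData Y c W) :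
    EData (X.prod Y) c (V * W) := by
  obtain ⟨A, hA, eA, rfl⟩ := hX
  obtain ⟨B, hB, eB, rfl⟩ := hY
  refine ⟨fun p => pm (A p.1) (B p.2), ?_, fun p z => ?_, ?_⟩
  · have := hA.warp hB (f := fun _ => 1) (h := fun _ => 1)
      (fun _ => one_pos) (fun _ => one_pos) (fun _ => contDiff_const) fun _ => contDiff_const
    simp only [one_smul] at this
    exact this
  · beta_reduce
    rw [Ric_pm (fun x => (hA.sm _ x).of_le two_le_inf) (fun x => (hB.sm _ x).of_le two_le_inf)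
      (fun x => symm_of_posDef (hA.pos _ x)) (fun x => symm_of_posDef (hB.pos _ x))
      (fun x => (hA.pos _ x).det_pos.ne') (fun x => (hB.pos _ x).det_pos.ne'), eA, eB, pm,
      blk_smul]
  · rw [← ENNReal.toReal_mul, ← lintegral_split (measurable_dens (hA.sm _))
      (measurable_dens (hB.sm _))]
    congr 1
    exact lintegral_congr fun z => dens_pm _ _ _ (hA.pos _ _).det_pos.le

theorem EData.mem {X : Mfd n} [MeasurableSpace X.M] [BorelSpace X.M] {c V : ℝ}
    (h : EData X c V) : c * V ^ ((2 : ℝ) / n) ∈ einsteinConstants n X.M := by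
  obtain ⟨G, hG, e, rfl⟩ := h
  exact hG.mem_einsteinConstants X.tgt X.o X.ae e

end Pool.Agent.Lib.MP_1301ff_gt
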