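import Pool.Agent.Lib.MP_1301ff_gt.Flow

set_option autoImplicit false

namespace Pool.Agent.Lib.MP_1301ff_gt

open Set Filter Topology Real Metric
open scoped ContDiff

abbrev CI : Type := C(Icc (0 : ℝ) 1, ℝ)

/-- Extension of a function on `[0, 1]` to the line. -/
noncomputable def ext (g : CI) (t : ℝ) : ℝ := g (projIcc 0 1 zero_le_one t)

theorem continuous_ext (g : CI) : Continuous (ext g) := g.continuous.comp continuous_projIcc

theorem ext_coe (g : CI) (v : Icc (0 : ℝ) 1) : ext g v = g v := by simp [ext]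

theorem ext_of_mem (g : CI) {v : ℝ} (hv : v ∈ Icc (0 : ℝ) 1) : ext g v = g ⟨v, hv⟩ := by
  simp [ext, projIcc_of_mem _ hv]

noncomputable def Kfun (k : ℕ) (g : CI) : CI :=
  ⟨fun v => ∫ w in (0 : ℝ)..1, w ^ k * ext g (w * v), by
    have := continuous_ext g
    exact intervalIntegral.continuous_parametric_intervalIntegral_of_continuous' (by fun_prop) 0 1⟩

theorem Kfun_apply (k : ℕ) (g : CI) (v : Icc (0 : ℝ) 1) :
    Kfun k g v = ∫ w in (0 : ℝ)..1, w ^ k * ext g (w * v) := rfl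

noncomputable def Kop (k : ℕ) : CI →L[ℝ] CI :=
  LinearMap.mkContinuous
    { toFun := Kfun k
      map_add' := fun g h => by
        ext v
        have := continuous_ext g
        have := continuous_ext h
        rw [ContinuousMap.add_apply, Kfun_apply, Kfun_apply, Kfun_apply,
          ← intervalIntegral.integral_add (Continuous.intervalIntegrable (by fun_prop) _ _)
            (Continuous.intervalIntegrable (by fun_prop) _ _)]
        simp [ext, mul_add]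
      map_smul' := fun c g => by
        ext v
        rw [RingHom.id_apply, ContinuousMap.smul_apply, Kfun_apply, Kfun_apply, smul_eq_mul,
          ← intervalIntegral.integral_const_mul]
        simp [ext, mul_left_comm] } 1 (fun g => by
    rw [one_mul, ContinuousMap.norm_le _ (norm_nonneg g)]
    intro v
    have := intervalIntegral.norm_integral_le_of_norm_le_const (a := 0) (b := 1) (C := ‖g‖)
      (f := fun w : ℝ => w ^ k * ext g (w * v)) (fun w hw => by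
        rw [uIoc_of_le zero_le_one] at hw
        rw [norm_mul]
        have h1 : ‖w ^ k‖ ≤ 1 := by
          rw [norm_pow, Real.norm_of_nonneg hw.1.le]
          exact pow_le_one₀ hw.1.le hw.2
        have h2 : ‖ext g (w * v)‖ ≤ ‖g‖ := g.norm_coe_le_norm _
        nlinarith [norm_nonneg (w ^ k), norm_nonneg (ext g (w * v))])
    simpa [Kfun_apply] using this)

theorem Kop_apply (k : ℕ) (g : CI) (v : Icc (0 : ℝ) 1) :
    Kop k g v = ∫ w in (0 : ℝ)..1, w ^ k * ext g (w * v) := rfl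

noncomputable def qq : CI := ⟨fun v => (v : ℝ) ^ 2, by fun_prop⟩

abbrev C4 : Type := CI × CI × CI × CI

noncomputable def aN (P : (ℝ × ℝ) × C4) : CI :=
  1 + (2 * P.1.1) • (qq * Kop 1 (P.2.2.2.1 * (P.2.1 - P.2.2.1)))
noncomputable def cN (P : (ℝ × ℝ) × C4) : CI :=
  1 + (2 * P.1.1) • (qq * Kop 1 (P.2.2.2.2 * P.2.1))
noncomputable def yN (P : (ℝ × ℝ) × C4) : CI :=
  Kop 2 (aN P - P.1.2 • cN P - P.1.1 • (qq * (P.2.1 * P.2.2.1 + (2 : ℝ) • (P.2.2.1 * P.2.2.1))))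
noncomputable def xN (P : (ℝ × ℝ) × C4) : CI :=
  Kop 3 ((-2 : ℝ) • yN P - P.1.2 • cN P -
    P.1.1 • (qq * (P.2.1 * P.2.1 + (2 : ℝ) • (P.2.1 * P.2.2.1))))
noncomputable def fI (P : (ℝ × ℝ) × C4) : C4 := P.2 - (xN P, yN P, aN P, cN P)

theorem contDiff_Kop (k : ℕ) {f : (ℝ × ℝ) × C4 → CI} (hf : ContDiff ℝ ω f) :
    ContDiff ℝ ω fun P => Kop k (f P) := (Kop k).contDiff.comp hf

theorem contDiff_fI : ContDiff ℝ ω fI := by
  have ha : ContDiff ℝ ω aN := by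
    have := contDiff_Kop 1 (f := fun P => P.2.2.2.1 * (P.2.1 - P.2.2.1)) (by fun_prop)
    unfold aN; fun_prop
  have hc : ContDiff ℝ ω cN := by
    have := contDiff_Kop 1 (f := fun P => P.2.2.2.2 * P.2.1) (by fun_prop)
    unfold cN; fun_prop
  have hy : ContDiff ℝ ω yN := contDiff_Kop 2 (by fun_prop)
  have hx : ContDiff ℝ ω xN := contDiff_Kop 3 (by fun_prop)
  unfold fI; fun_prop

noncomputable def z0 : C4 :=
  (ContinuousMap.const _ (-1 / 6), ContinuousMap.const _ (1 / 3), 1, 1)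

theorem fI_zero (z : C4) : fI ((0, 0), z) = z - z0 := by
  have ha : aN ((0, 0), z) = 1 := by simp [aN]
  have hc : cN ((0, 0), z) = 1 := by simp [cN]
  have hy : yN ((0, 0), z) = ContinuousMap.const _ (1 / 3) := by
    ext v
    simp only [yN, ha, zero_smul, sub_zero, Kop_apply, ext]
    norm_num
  have hx : xN ((0, 0), z) = ContinuousMap.const _ (-1 / 6) := by
    ext v
    simp only [xN, hy, zero_smul, sub_zero, Kop_apply, ext]
    simp
    norm_num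
  simp [fI, ha, hc, hy, hx, z0]

/-- The integral equations, pointwise. -/
def Eqs (τ ε : ℝ) (x y a c : ℝ → ℝ) : Prop :=
  ∀ v ∈ Icc (0 : ℝ) 1,
    a v = 1 + 2 * τ * (v ^ 2 * ∫ w in (0 : ℝ)..1, w ^ 1 * (a (w * v) * (x (w * v) - y (w * v)))) ∧
    c v = 1 + 2 * τ * (v ^ 2 * ∫ w in (0 : ℝ)..1, w ^ 1 * (c (w * v) * x (w * v))) ∧
    y v = (∫ w in (0 : ℝ)..1, w ^ 2 * (a (w * v) - ε * c (w * v) -
      τ * ((w * v) ^ 2 * (x (w * v) * y (w * v) + 2 * (y (w * v) * y (w * v)))))) ∧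
    x v = ∫ w in (0 : ℝ)..1, w ^ 3 * (-2 * y (w * v) - ε * c (w * v) -
      τ * ((w * v) ^ 2 * (x (w * v) * x (w * v) + 2 * (x (w * v) * y (w * v)))))

theorem ext_qq {t : ℝ} (ht : t ∈ Icc (0 : ℝ) 1) :
    qq (projIcc 0 1 zero_le_one t) = t ^ 2 := by
  rw [projIcc_of_mem _ ht]; rfl

theorem fI_iff (τ ε : ℝ) (z : C4) : fI ((τ, ε), z) = 0 ↔
    Eqs τ ε (ext z.1) (ext z.2.1) (ext z.2.2.1) (ext z.2.2.2) := by
  obtain ⟨x, y, a, c⟩ := z
  have hmem : ∀ v : Icc (0 : ℝ) 1, ∀ w ∈ uIcc (0 : ℝ) 1, w * v ∈ Icc (0 : ℝ) 1 := by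
    intro v w hw
    rw [uIcc_of_le zero_le_one] at hw
    exact ⟨mul_nonneg hw.1 v.2.1, mul_le_one₀ hw.2 v.2.1 v.2.2⟩
  have ea : ∀ v : Icc (0 : ℝ) 1, aN ((τ, ε), x, y, a, c) v = 1 + 2 * τ * ((v : ℝ) ^ 2 *
      ∫ w in (0 : ℝ)..1, w ^ 1 * (ext a (w * v) * (ext x (w * v) - ext y (w * v)))) :=
    fun v => rfl
  have ec : ∀ v : Icc (0 : ℝ) 1, cN ((τ, ε), x, y, a, c) v = 1 + 2 * τ * ((v : ℝ) ^ 2 *
      ∫ w in (0 : ℝ)..1, w ^ 1 * (ext c (w * v) * ext x (w * v))) := fun v => rfl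
  have ey : aN ((τ, ε), x, y, a, c) = a → cN ((τ, ε), x, y, a, c) = c →
      ∀ v : Icc (0 : ℝ) 1, yN ((τ, ε), x, y, a, c) v =
      ∫ w in (0 : ℝ)..1, w ^ 2 * (ext a (w * v) - ε * ext c (w * v) - τ * ((w * v) ^ 2 *
        (ext x (w * v) * ext y (w * v) + 2 * (ext y (w * v) * ext y (w * v))))) := by
    intro h1 h2 v
    rw [yN, h1, h2, Kop_apply]
    refine intervalIntegral.integral_congr fun w hw => ?_
    simp only [← ext_qq (hmem v w hw)]
    rfl
  have ex : yN ((τ, ε), x, y, a, c) = y → cN ((τ, ε), x, y, a, c) = c →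
      ∀ v : Icc (0 : ℝ) 1, xN ((τ, ε), x, y, a, c) v =
      ∫ w in (0 : ℝ)..1, w ^ 3 * (-2 * ext y (w * v) - ε * ext c (w * v) - τ * ((w * v) ^ 2 *
        (ext x (w * v) * ext x (w * v) + 2 * (ext x (w * v) * ext y (w * v))))) := by
    intro h1 h2 v
    rw [xN, h1, h2, Kop_apply]
    refine intervalIntegral.integral_congr fun w hw => ?_
    simp only [← ext_qq (hmem v w hw)]
    rfl
  rw [fI, sub_eq_zero]
  simp only [Prod.mk.injEq]
  constructor
  · rintro ⟨hx, hy, ha, hc⟩ v hv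
    refine ⟨?_, ?_, ?_, ?_⟩
    · rw [← ea ⟨v, hv⟩, ← ha, ext_of_mem _ hv]
    · rw [← ec ⟨v, hv⟩, ← hc, ext_of_mem _ hv]
    · rw [← ey ha.symm hc.symm ⟨v, hv⟩, ← hy, ext_of_mem _ hv]
    · rw [← ex hy.symm hc.symm ⟨v, hv⟩, ← hx, ext_of_mem _ hv]
  · intro h
    have ha : aN ((τ, ε), x, y, a, c) = a := by
      ext v; rw [ea, ← (h v v.2).1, ext_coe]
    have hc : cN ((τ, ε), x, y, a, c) = c := by
      ext v; rw [ec, ← (h v v.2).2.1, ext_coe]
    have hy : yN ((τ, ε), x, y, a, c) = y := by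
      ext v; rw [ey ha hc, ← (h v v.2).2.2.1, ext_coe]
    have hx : xN ((τ, ε), x, y, a, c) = x := by
      ext v; rw [ex hy hc, ← (h v v.2).2.2.2, ext_coe]
    exact ⟨hx.symm, hy.symm, ha.symm, hc.symm⟩

theorem Eqs.congr {τ ε : ℝ} {x y a c x' y' a' c' : ℝ → ℝ} (h : Eqs τ ε x y a c)
    (hx : ∀ v ∈ Icc (0 : ℝ) 1, x v = x' v) (hy : ∀ v ∈ Icc (0 : ℝ) 1, y v = y' v)
    (ha : ∀ v ∈ Icc (0 : ℝ) 1, a v = a' v) (hc : ∀ v ∈ Icc (0 : ℝ) 1, c v = c' v) :
    Eqs τ ε x' y' a' c' := by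
  intro v hv
  have hmem : ∀ w ∈ uIcc (0 : ℝ) 1, w * v ∈ Icc (0 : ℝ) 1 := by
    intro w hw
    rw [uIcc_of_le zero_le_one] at hw
    exact ⟨mul_nonneg hw.1 hv.1, mul_le_one₀ hw.2 hv.1 hv.2⟩
  obtain ⟨h1, h2, h3, h4⟩ := h v hv
  rw [← hx v hv, ← hy v hv, ← ha v hv, ← hc v hv]
  refine ⟨h1.trans ?_, h2.trans ?_, h3.trans ?_, h4.trans ?_⟩
  · congr 3
    exact intervalIntegral.integral_congr fun w hw => by
      simp only [hx _ (hmem w hw), hy _ (hmem w hw), ha _ (hmem w hw)]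
  · congr 3
    exact intervalIntegral.integral_congr fun w hw => by
      simp only [hx _ (hmem w hw), hc _ (hmem w hw)]
  · exact intervalIntegral.integral_congr fun w hw => by
      simp only [hx _ (hmem w hw), hy _ (hmem w hw), ha _ (hmem w hw), hc _ (hmem w hw)]
  · exact intervalIntegral.integral_congr fun w hw => by
      simp only [hx _ (hmem w hw), hy _ (hmem w hw), hc _ (hmem w hw)]

theorem Eqs.scale {τ ε : ℝ} {x y a c : ℝ → ℝ} (h : Eqs τ ε x y a c) {s : ℝ}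
    (hs : s ∈ Icc (0 : ℝ) 1) :
    Eqs (τ * s ^ 2) ε (fun v => x (s * v)) (fun v => y (s * v)) (fun v => a (s * v))
      (fun v => c (s * v)) := by
  intro v hv
  obtain ⟨h1, h2, h3, h4⟩ := h (s * v) ⟨mul_nonneg hs.1 hv.1, mul_le_one₀ hs.2 hv.1 hv.2⟩
  have e : ∀ w, w * (s * v) = s * (w * v) := fun w => by ring
  simp only [e] at h1 h2 h3 h4
  refine ⟨h1.trans (by ring), h2.trans (by ring), h3.trans ?_, h4.trans ?_⟩
  · congr 1; ext w; ring
  · congr 1; ext w; ring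

noncomputable def scl (s : ℝ) (g : CI) : CI :=
  ⟨fun v => ext g (s * v), by have := continuous_ext g; fun_prop⟩

theorem ext_scl (s : ℝ) (g : CI) : ∀ v ∈ Icc (0 : ℝ) 1, ext g (s * v) = ext (scl s g) v := by
  intro v hv
  rw [ext_of_mem _ hv]; rfl

theorem dist_scl (s : ℝ) (g : CI) (k : ℝ) :
    dist (scl s g) (ContinuousMap.const _ k) ≤ dist g (ContinuousMap.const _ k) := by
  rw [ContinuousMap.dist_le dist_nonneg]
  intro v
  exact ContinuousMap.dist_apply_le_dist (f := g) (g := ContinuousMap.const _ k) _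

theorem exists_Z : ∃ δ > 0, ∃ Zx Zy Za Zc : ℝ × ℝ → ℝ,
    (∀ P ∈ ball (0 : ℝ × ℝ) δ, ContDiffAt ℝ ω Zx P ∧ ContDiffAt ℝ ω Zy P ∧ ContDiffAt ℝ ω Za P ∧
      ContDiffAt ℝ ω Zc P ∧ |Zx P + 1 / 6| < 1 / 10 ∧ |Zy P - 1 / 3| < 1 / 10 ∧
      |Za P - 1| < 1 / 10 ∧ |Zc P - 1| < 1 / 10 ∧
      Eqs P.1 P.2 (fun v => Zx (P.1 * v ^ 2, P.2)) (fun v => Zy (P.1 * v ^ 2, P.2))
        (fun v => Za (P.1 * v ^ 2, P.2)) (fun v => Zc (P.1 * v ^ 2, P.2))) := by
  have cdf : ContDiffAt ℝ ω fI ((0, 0), z0) := contDiff_fI.contDiffAt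
  have pn : (ω : WithTop ℕ∞) ≠ 0 := by simp
  have hid : fderiv ℝ fI ((0, 0), z0) ∘L ContinuousLinearMap.inr ℝ (ℝ × ℝ) C4 =
      ContinuousLinearMap.id ℝ C4 := by
    have h1 : HasFDerivAt (fun z : C4 => fI ((0, 0), z))
        (fderiv ℝ fI ((0, 0), z0) ∘L ContinuousLinearMap.inr ℝ (ℝ × ℝ) C4) z0 :=
      (cdf.differentiableAt pn).hasFDerivAt.comp z0 (hasFDerivAt_prodMk_right (0, 0) z0)
    have h2 : HasFDerivAt (fun z : C4 => fI ((0, 0), z)) (ContinuousLinearMap.id ℝ C4) z0 := by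
      simp only [fI_zero]
      exact (hasFDerivAt_id z0).sub_const z0
    exact h1.unique h2
  have if₂ : (fderiv ℝ fI ((0, 0), z0) ∘L ContinuousLinearMap.inr ℝ (ℝ × ℝ) C4).IsInvertible := by
    rw [hid]; exact ⟨ContinuousLinearEquiv.refl ℝ C4, rfl⟩
  set ψ := cdf.implicitFunction pn if₂ with hψ
  have f0 : fI ((0, 0), z0) = 0 := by rw [fI_zero, sub_self]
  have h1 : ContDiffAt ℝ ω ψ (0, 0) := cdf.contDiffAt_implicitFunction pn if₂
  have h2 := cdf.eventually_apply_implicitFunction pn if₂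
  have h3 := cdf.eventually_apply_eq_iff_implicitFunction pn if₂
  have h4 : ψ (0, 0) = z0 := cdf.implicitFunction_apply_self pn if₂
  rw [f0] at h2 h3
  obtain ⟨δ₁, hδ₁, h3⟩ := Metric.eventually_nhds_iff_ball.1 h3
  have h5 : ∀ᶠ P in 𝓝 ((0, 0) : ℝ × ℝ), dist (ψ P) z0 < min δ₁ (1 / 10) := by
    have := h1.continuousAt.tendsto
    rw [h4] at this
    exact Metric.tendsto_nhds.1 this _ (by positivity)
  obtain ⟨δ₂, hδ₂, h6⟩ := Metric.eventually_nhds_iff_ball.1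
    ((h1.eventually (by simp)).and (h2.and h5))
  let one : Icc (0 : ℝ) 1 := ⟨1, zero_le_one, le_rfl⟩
  have hev : ∀ {f : ℝ × ℝ → CI} {P : ℝ × ℝ}, ContDiffAt ℝ ω f P →
      ContDiffAt ℝ ω (fun P => f P one) P := fun {f P} hf =>
    ContDiffAt.comp P (g := (ContinuousMap.evalCLM ℝ one : CI →L[ℝ] ℝ)) (f := f)
      (ContinuousLinearMap.contDiff _).contDiffAt hf
  refine ⟨min δ₁ δ₂, by positivity, fun P => (ψ P).1 one, fun P => (ψ P).2.1 one,
    fun P => (ψ P).2.2.1 one, fun P => (ψ P).2.2.2 one, fun P hP => ?_⟩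
  have hP1 : P ∈ ball (0 : ℝ × ℝ) δ₁ := ball_subset_ball (min_le_left _ _) hP
  obtain ⟨k1, k2, k3⟩ := h6 P (ball_subset_ball (min_le_right _ _) hP)
  have d1 : dist (ψ P).1 z0.1 ≤ dist (ψ P) z0 := by simp [Prod.dist_eq]
  have d2 : dist (ψ P).2.1 z0.2.1 ≤ dist (ψ P) z0 := by simp [Prod.dist_eq]
  have d3 : dist (ψ P).2.2.1 z0.2.2.1 ≤ dist (ψ P) z0 := by simp [Prod.dist_eq]
  have d4 : dist (ψ P).2.2.2 z0.2.2.2 ≤ dist (ψ P) z0 := by simp [Prod.dist_eq]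
  have k4 : dist (ψ P) z0 < 1 / 10 := k3.trans_le (min_le_right _ _)
  have k5 : dist (ψ P) z0 < δ₁ := k3.trans_le (min_le_left _ _)
  have E := (fI_iff P.1 P.2 (ψ P)).1 k2
  have key : ∀ s ∈ Icc (0 : ℝ) 1, ψ (P.1 * s ^ 2, P.2) =
      (scl s (ψ P).1, scl s (ψ P).2.1, scl s (ψ P).2.2.1, scl s (ψ P).2.2.2) := by
    intro s hs
    refine (h3 ((P.1 * s ^ 2, P.2), (scl s (ψ P).1, scl s (ψ P).2.1, scl s (ψ P).2.2.1,
      scl s (ψ P).2.2.2)) ?_).1 ?_
    · rw [mem_ball, Prod.dist_eq, max_lt_iff]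
      constructor
      · rw [mem_ball, Prod.dist_eq, max_lt_iff] at hP1
        rw [Prod.dist_eq, max_lt_iff]
        refine ⟨lt_of_le_of_lt ?_ hP1.1, hP1.2⟩
        simp only [Prod.fst_zero, dist_zero_right, norm_mul]
        refine mul_le_of_le_one_right (norm_nonneg _) ?_
        rw [norm_pow, Real.norm_of_nonneg hs.1]
        exact pow_le_one₀ hs.1 hs.2
      · simp only [Prod.dist_eq, max_lt_iff]
        exact ⟨((dist_scl s _ _).trans d1).trans_lt k5, ((dist_scl s _ _).trans d2).trans_lt k5,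
          ((dist_scl s _ 1).trans d3).trans_lt k5, ((dist_scl s _ 1).trans d4).trans_lt k5⟩
    · exact (fI_iff _ _ _).2 ((E.scale hs).congr (ext_scl _ _) (ext_scl _ _) (ext_scl _ _)
        (ext_scl _ _))
  have e1 : ∀ (s : ℝ) (g : CI), scl s g one = ext g s := fun s g => by
    change ext g (s * 1) = _
    rw [mul_one]
  refine ⟨hev k1.fst, hev k1.snd.fst, hev k1.snd.snd.fst, hev k1.snd.snd.snd, ?_, ?_, ?_, ?_, ?_⟩
  · have := ((ContinuousMap.dist_apply_le_dist one).trans d1).trans_lt k4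
    rw [Real.dist_eq] at this
    have e : (ψ P).1 one - z0.1 one = (ψ P).1 one + 1 / 6 := by
      simp only [z0, ContinuousMap.const_apply]; ring
    rwa [e] at this
  · exact ((ContinuousMap.dist_apply_le_dist one).trans d2).trans_lt k4
  · exact ((ContinuousMap.dist_apply_le_dist one).trans d3).trans_lt k4
  · exact ((ContinuousMap.dist_apply_le_dist one).trans d4).trans_lt k4
  · refine E.congr ?_ ?_ ?_ ?_ <;> intro v hv <;> simp only [key v hv, e1]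

end Pool.Agent.Lib.MP_1301ff_gt
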