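import Pool.Agent.Lib.MP_1301ff_gt.Phase2

set_option autoImplicit false

namespace Pool.Agent.Lib.MP_1301ff_gt

open Set Filter Topology Real

variable {B : ℝ} {m u p y r : ℝ → ℝ} {T : ℝ}

/-- Angular velocity of `(u, p)`. -/
noncomputable def om (u p y : ℝ) : ℝ :=
  -(p ^ 2 + 3 * y * (u * p) + 2 * (u * sinh u)) / (u ^ 2 + p ^ 2)

theorem sq_add_sq_pos {u p : ℝ} (h : 0 < en u p) : 0 < u ^ 2 + p ^ 2 := by
  by_contra hc
  have h1 : u = 0 := by nlinarith [sq_nonneg u, sq_nonneg p]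
  have h2 : p = 0 := by nlinarith [sq_nonneg u, sq_nonneg p]
  simp [en, h1, h2] at h

theorem om_le {u p y B : ℝ} (h : 0 < en u p) (hy0 : 0 ≤ y) (hy1 : y ≤ B) :
    om u p y ≤ 3 / 2 * B := by
  have h1 := sq_add_sq_pos h
  rw [om, div_le_iff₀ h1]
  have h2 := sq_le_mul_sinh u
  have h3 : -(u * p) ≤ (u ^ 2 + p ^ 2) / 2 := by nlinarith [sq_nonneg (u + p)]
  have h4 : y * (-(u * p)) ≤ y * ((u ^ 2 + p ^ 2) / 2) := mul_le_mul_of_nonneg_left h3 hy0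
  have h5 : y * (u ^ 2 + p ^ 2) ≤ B * (u ^ 2 + p ^ 2) := mul_le_mul_of_nonneg_right hy1 h1.le
  nlinarith [sq_nonneg u, sq_nonneg p]

theorem om_le' {u p y : ℝ} (h : 0 < en u p) (hy0 : 0 ≤ y) (hy1 : y ≤ 58 / 100) :
    om u p y ≤ -(1 / 10) := by
  have h1 := sq_add_sq_pos h
  rw [om, div_le_iff₀ h1]
  have h2 := sq_le_mul_sinh u
  have h3 : -(u * p) ≤ (u ^ 2 + p ^ 2) / 2 := by nlinarith [sq_nonneg (u + p)]
  have h4 : y * (-(u * p)) ≤ y * ((u ^ 2 + p ^ 2) / 2) := mul_le_mul_of_nonneg_left h3 hy0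
  have h5 : y * (u ^ 2 + p ^ 2) ≤ 58 / 100 * (u ^ 2 + p ^ 2) :=
    mul_le_mul_of_nonneg_right hy1 h1.le
  nlinarith [sq_nonneg u, sq_nonneg p]

theorem Sol.y_small (h : Sol B m u p y r T) {t : ℝ} (ht : t ∈ Icc 0 T)
    (he : en (u t) (p t) ≤ 1 / 100) : y t ≤ 58 / 100 := by
  have := h.con' t ht
  nlinarith [sq_nonneg (r t), h.y0 t ht]

theorem Sol.rT (h : Sol B m u p y r T) : 1 / 2 ≤ r T := by
  have h1 := h.con' T ⟨h.hT, le_rfl⟩
  have h2 := h.r0 T ⟨h.hT, le_rfl⟩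
  have h3 := en_ge (u T) (p T)
  rw [h.yT] at h1
  nlinarith [sq_nonneg (u T), sq_nonneg (p T)]

theorem Sol.angle (h : Sol B m u p y r T) (hB : 1 ≤ B) (h0 : 0 < en (u 0) (p 0)) {θ : ℝ → ℝ}
    (hθ : ∀ t ∈ Icc 0 T, HasDerivAt θ (m t * om (u t) (p t) (y t)) t) {t₁ : ℝ}
    (ht₁ : t₁ ∈ Icc 0 T) (he : en (u t₁) (p t₁) ≤ 1 / 100) :
    θ T ≤ θ 0 + 3 / 2 * B ^ 2 * t₁ + 1 / 10 * log (2 * r t₁) := by
  have a1 := le_of_deriv_nonpos (g := fun t => θ t - 3 / 2 * B ^ 2 * t)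
    (g' := fun t => m t * om (u t) (p t) (y t) - 3 / 2 * B ^ 2) ht₁.1
    (fun x hx => by
      have hx' : x ∈ Icc 0 T := ⟨hx.1, hx.2.trans ht₁.2⟩
      refine ((hθ x hx').sub ((hasDerivAt_id x).const_mul (3 / 2 * B ^ 2))).congr_deriv ?_
      ring)
    (fun x hx => by
      have hx' : x ∈ Icc 0 T := ⟨hx.1, hx.2.trans ht₁.2⟩
      have k1 := om_le (h.en_pos hB h0 x hx') (h.y0 x hx') (h.y1 x hx')
      have k2 := mul_le_mul_of_nonneg_left k1 (h.mpos hB x hx').le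
      have k3 : m x * (3 / 2 * B) ≤ B * (3 / 2 * B) :=
        mul_le_mul_of_nonneg_right (h.m1 x hx') (by linarith)
      nlinarith)
  have a2 := le_of_deriv_nonpos (g := fun t => θ t + 1 / 10 * log (r t))
    (g' := fun t => m t * (om (u t) (p t) (y t) + 1 / 10 * y t)) ht₁.2
    (fun x hx => by
      have hx' : x ∈ Icc 0 T := ⟨ht₁.1.trans hx.1, hx.2⟩
      have := (h.r0 x hx').ne'
      refine ((hθ x hx').add (((h.dr x hx').log this).const_mul (1 / 10))).congr_deriv ?_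
      field_simp)
    (fun x hx => by
      have hx' : x ∈ Icc 0 T := ⟨ht₁.1.trans hx.1, hx.2⟩
      have hy := h.y_small hx' ((h.en_anti hB ht₁.1 hx.1 hx.2).trans he)
      have k1 := om_le' (h.en_pos hB h0 x hx') (h.y0 x hx') hy
      exact mul_nonpos_of_nonneg_of_nonpos (h.mpos hB x hx').le (by linarith))
  have a3 : log (1 / 2) ≤ log (r T) := log_le_log (by norm_num) h.rT
  rw [log_mul (by norm_num) (h.r0 t₁ ht₁).ne']
  rw [one_div, log_inv] at a3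
  simp only [mul_zero, sub_zero] at a1
  linarith

/-- The volume integral. -/
noncomputable def Wv (m r : ℝ → ℝ) (t : ℝ) : ℝ := ∫ s in (0 : ℝ)..t, r s ^ 5 * m s

theorem Sol.dW (h : Sol B m u p y r T) (t : ℝ) : HasDerivAt (Wv m r) (r t ^ 5 * m t) t := by
  have hc : Continuous fun s => r s ^ 5 * m s := (h.cr.pow 5).mul h.cm
  exact intervalIntegral.integral_hasDerivAt_right (hc.intervalIntegrable _ _)
    (hc.stronglyMeasurableAtFilter _ _) hc.continuousAt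

theorem Sol.dPsi (h : Sol B m u p y r T) : ∀ t ∈ Icc 0 T,
    HasDerivAt (fun t => Psi (y t / r t))
      (-(r t ^ 5 * m t * ((y t ^ 2 + r t ^ 2 + p t ^ 2 / 4) / (y t ^ 2 + r t ^ 2) ^ 3))) t := by
  intro t ht
  have hr := h.r0 t ht
  refine ((hasDerivAt_Psi _).comp t ((h.dy t ht).div (h.dr t ht) hr.ne')).congr_deriv ?_
  have : y t ^ 2 + r t ^ 2 ≠ 0 := by positivity
  have : r t ^ 2 + y t ^ 2 ≠ 0 := by positivity
  simp only [Pi.div_apply]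
  field_simp
  ring

theorem Sol.W_upper (h : Sol B m u p y r T) (hB : 1 ≤ B) {t₁ η : ℝ} (ht₁ : t₁ ∈ Icc 0 T)
    (he : en (u t₁) (p t₁) ≤ η) :
    Wv m r T ≤ r t₁ ^ 5 * B * t₁ + (1 / 3 + η / 12) ^ 2 * (3 * π / 16) := by
  have a1 := le_of_deriv_nonpos (g := fun t => Wv m r t - r t₁ ^ 5 * B * t)
    (g' := fun t => r t ^ 5 * m t - r t₁ ^ 5 * B) ht₁.1
    (fun x _ => by
      refine ((h.dW x).sub ((hasDerivAt_id x).const_mul (r t₁ ^ 5 * B))).congr_deriv ?_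
      ring)
    (fun x hx => by
      have hx' : x ∈ Icc 0 T := ⟨hx.1, hx.2.trans ht₁.2⟩
      have k1 := h.r_mono hB hx.1 hx.2 ht₁.2
      have k2 := h.r0 x hx'
      have k3 : r x ^ 5 * m x ≤ r t₁ ^ 5 * B :=
        mul_le_mul (pow_le_pow_left₀ k2.le k1 5) (h.m1 x hx') (h.mpos hB x hx').le
          (pow_nonneg (k2.le.trans k1) 5)
      linarith)
  have a2 := le_of_deriv_nonpos
    (g := fun t => Wv m r t + (1 / 3 + η / 12) ^ 2 * Psi (y t / r t))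
    (g' := fun t => r t ^ 5 * m t * (1 - (1 / 3 + η / 12) ^ 2 *
      ((y t ^ 2 + r t ^ 2 + p t ^ 2 / 4) / (y t ^ 2 + r t ^ 2) ^ 3))) ht₁.2
    (fun x hx => by
      have hx' : x ∈ Icc 0 T := ⟨ht₁.1.trans hx.1, hx.2⟩
      refine ((h.dW x).add ((h.dPsi x hx').const_mul _)).congr_deriv ?_
      ring)
    (fun x hx => by
      have hx' : x ∈ Icc 0 T := ⟨ht₁.1.trans hx.1, hx.2⟩
      have k0 := h.r0 x hx'
      have k1 := h.mpos hB x hx'
      have k2 : y x ^ 2 + r x ^ 2 ≤ 1 / 3 + η / 12 := by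
        rw [h.con' x hx']
        linarith [(h.en_anti hB ht₁.1 hx.1 hx.2).trans he]
      have k3 : 0 < y x ^ 2 + r x ^ 2 := by positivity
      refine mul_nonpos_of_nonneg_of_nonpos (by positivity) ?_
      rw [sub_nonpos, ← mul_div_assoc, le_div_iff₀ (by positivity)]
      have k4 : (y x ^ 2 + r x ^ 2) ^ 2 ≤ (1 / 3 + η / 12) ^ 2 := pow_le_pow_left₀ k3.le k2 2
      calc 1 * (y x ^ 2 + r x ^ 2) ^ 3 = (y x ^ 2 + r x ^ 2) ^ 2 * (y x ^ 2 + r x ^ 2) := by ring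
        _ ≤ _ := mul_le_mul k4 (by nlinarith [sq_nonneg (p x)]) k3.le (by positivity))
  have a3 := mul_le_mul_of_nonneg_left (Psi_le (y t₁ / r t₁)) (sq_nonneg (1 / 3 + η / 12))
  simp only [h.yT, zero_div, Psi_zero, mul_zero, add_zero] at a2
  simp only [Wv, intervalIntegral.integral_same, mul_zero, sub_zero] at a1 a2 ⊢
  linarith

theorem Sol.W_lower (h : Sol B m u p y r T) (hB : 1 ≤ B) {t₁ : ℝ} (ht₁ : t₁ ∈ Icc 0 T)
    (he : en (u t₁) (p t₁) = 1 / 100) (hr : r t₁ ≤ 1 / 10 ^ 8) (hp : p T = 0) :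
    π / 48 < Wv m r T := by
  have hsub : ∀ x ∈ Icc t₁ T, x ∈ Icc 0 T := fun x hx => ⟨ht₁.1.trans hx.1, hx.2⟩
  have hen : ∀ x ∈ Icc t₁ T, p x ^ 2 + 4 * (cosh (u x) - 1) ≤ 1 / 100 := fun x hx =>
    (h.en_anti hB ht₁.1 hx.1 hx.2).trans he.le
  have hcon : ∀ x ∈ Icc t₁ T,
      y x ^ 2 + r x ^ 2 = (p x ^ 2 + 4 * (1 + (cosh (u x) - 1))) / 12 := fun x hx => by
    rw [h.con x (hsub x hx)]; ring
  have hs : ∀ a : ℝ, a * sinh a ≤ a ^ 2 * (1 + (cosh a - 1)) := fun a => by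
    simpa using mul_sinh_le a
  have hr1 := h.r0 t₁ ht₁
  obtain ⟨t₂, ht₂, hrt₂⟩ : ∃ t₂ ∈ Icc t₁ T, r t₂ = 1 / 4 :=
    intermediate_value_Icc ht₁.2 h.cr.continuousOn ⟨by linarith, by linarith [h.rT]⟩
  set Q : ℝ → ℝ := fun t => Wv m r t + 1 / 9 * Psi (y t / r t) -
    13 / 50 * (r t ^ 5 * (y t * u t ^ 2 - u t * p t)) with hQ
  have dQ : ∀ x ∈ Icc t₁ T, HasDerivAt Q (r x ^ 5 * m x *
      (1 - (y x ^ 2 + r x ^ 2 + p x ^ 2 / 4) / (9 * (y x ^ 2 + r x ^ 2) ^ 3) -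
        13 / 50 * (5 * y x ^ 2 * u x ^ 2 - (r x ^ 2 + p x ^ 2 / 4) * u x ^ 2 - p x ^ 2 +
          2 * (u x * sinh (u x))))) x := by
    intro x hx
    have hx' := hsub x hx
    refine (((h.dW x).add ((h.dPsi x hx').const_mul (1 / 9))).sub
      ((((h.dr x hx').pow 5).mul (((h.dy x hx').mul ((h.du x hx').pow 2)).sub
        ((h.du x hx').mul (h.dp x hx')))).const_mul (13 / 50))).congr_deriv ?_
    have := h.r0 x hx'
    have : y x ^ 2 + r x ^ 2 ≠ 0 := by positivity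
    simp only [Nat.cast_ofNat, Pi.pow_apply, Pi.sub_apply, Pi.mul_apply]
    field_simp
    ring
  have kH : ∀ x ∈ Icc t₁ T, r x ^ 5 * m x * (1 / 200 * (u x ^ 2 + p x ^ 2)) ≤ r x ^ 5 * m x *
      (1 - (y x ^ 2 + r x ^ 2 + p x ^ 2 / 4) / (9 * (y x ^ 2 + r x ^ 2) ^ 3) -
        13 / 50 * (5 * y x ^ 2 * u x ^ 2 - (r x ^ 2 + p x ^ 2 / 4) * u x ^ 2 - p x ^ 2 +
          2 * (u x * sinh (u x)))) := by
    intro x hx
    have := h.r0 x (hsub x hx)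
    have := h.mpos hB x (hsub x hx)
    exact mul_le_mul_of_nonneg_left (key_H (sq_le_cosh _) (hs _) (hen x hx) (hcon x hx))
      (by positivity)
  have a2 : Q t₂ ≤ Q T := le_of_deriv_nonneg ht₂.2
    (fun x hx => dQ x ⟨ht₂.1.trans hx.1, hx.2⟩) (fun x hx => by
      have hx' : x ∈ Icc t₁ T := ⟨ht₂.1.trans hx.1, hx.2⟩
      have := h.r0 x (hsub x hx')
      have := h.mpos hB x (hsub x hx')
      exact le_trans (by positivity) (kH x hx'))
  set N : ℝ → ℝ := fun t => (en (u t) (p t) + 3 * (y t * (u t * p t))) * r t ^ 4 with hN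
  have hsub2 : ∀ x ∈ Icc t₁ t₂, x ∈ Icc t₁ T := fun x hx => ⟨hx.1, hx.2.trans ht₂.2⟩
  have hr4 : ∀ x ∈ Icc t₁ t₂, r x ≤ 1 / 4 := fun x hx =>
    hrt₂ ▸ h.r_mono hB (ht₁.1.trans hx.1) hx.2 ht₂.2
  have Nmono : MonotoneOn N (Icc t₁ t₂) := mono_of_deriv
    (g' := fun x => m x * r x ^ 4 * (y x * p x ^ 2 + 3 * y x ^ 2 * (u x * p x) +
      16 * y x * (cosh (u x) - 1) - 6 * y x * (u x * sinh (u x)) -
      3 * (r x ^ 2 + p x ^ 2 / 4) * (u x * p x)))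
    (fun x hx => by
      have hx' := hsub x (hsub2 x hx)
      refine (((h.den x hx').add (((h.dy x hx').mul ((h.du x hx').mul (h.dp x hx'))).const_mul
        3)).mul ((h.dr x hx').pow 4)).congr_deriv ?_
      simp only [Nat.cast_ofNat, Pi.pow_apply, Pi.add_apply, Pi.mul_apply, en]
      ring)
    (fun x hx => by
      have hx' := hsub x (hsub2 x hx)
      have k0 := h.r0 x hx'
      have := h.mpos hB x hx'
      have k := key_N (sq_le_cosh _) (hs _) (hen x (hsub2 x hx)) (hcon x (hsub2 x hx))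
        (h.y0 x hx') (by nlinarith [hr4 x hx])
      positivity)
  have hup : ∀ a b : ℝ, |a * b| ≤ 36 / 100 * (b ^ 2 + 2 * a ^ 2) := by
    intro a b
    rw [abs_le]
    constructor <;> nlinarith [sq_nonneg (b - 14 / 10 * a), sq_nonneg (b + 14 / 10 * a)]
  have N1 : 3 / 1000 * r t₁ ^ 4 ≤ N t₁ := by
    refine mul_le_mul_of_nonneg_right ?_ (by positivity)
    have k1 := h.y_small ht₁ he.le
    have k2 := h.y0 t₁ ht₁
    have k3 := (abs_le.1 (hup (u t₁) (p t₁))).1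
    have k4 := en_ge (u t₁) (p t₁)
    have k5 : y t₁ * (-(36 / 100 * (1 / 100))) ≤ y t₁ * (u t₁ * p t₁) :=
      mul_le_mul_of_nonneg_left (by linarith) k2
    nlinarith
  have Nle : ∀ x ∈ Icc t₁ t₂, N x ≤ 5 * (u x ^ 2 + p x ^ 2) * r x ^ 4 := by
    intro x hx
    have hx' := hsub x (hsub2 x hx)
    refine mul_le_mul_of_nonneg_right ?_ (by positivity)
    have k1 := h.y_small hx' (hen x (hsub2 x hx))
    have k2 := h.y0 x hx'
    have k3 := (abs_le.1 (hup (u x) (p x))).2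
    have k5 : y x * (u x * p x) ≤ y x * (36 / 100 * (p x ^ 2 + 2 * u x ^ 2)) :=
      mul_le_mul_of_nonneg_left k3 k2
    have k6 : y x * (p x ^ 2 + 2 * u x ^ 2) ≤ 58 / 100 * (p x ^ 2 + 2 * u x ^ 2) :=
      mul_le_mul_of_nonneg_right k1 (by positivity)
    have k7 := cosh_le_mul_sinh (u x)
    have k8 := hs (u x)
    have k9 := hen x (hsub2 x hx)
    have k10 : u x ^ 2 * (cosh (u x) - 1) ≤ u x ^ 2 * (1 / 400) :=
      mul_le_mul_of_nonneg_left (by nlinarith [sq_nonneg (p x)]) (sq_nonneg _)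
    unfold en
    nlinarith [sq_nonneg (u x), sq_nonneg (p x)]
  set κ := 3 / 10 ^ 6 * r t₁ ^ 4 with hκ
  have a1 : Q t₁ - κ * r t₁ ≤ Q t₂ - κ * r t₂ := le_of_deriv_nonneg
    (g := fun t => Q t - κ * r t) ht₂.1
    (fun x hx => (dQ x (hsub2 x hx)).sub ((h.dr x (hsub x (hsub2 x hx))).const_mul κ))
    (fun x hx => by
      have hx' := hsub x (hsub2 x hx)
      have k0 := h.r0 x hx'
      have k1 := h.mpos hB x hx'
      have k2 := kH x (hsub2 x hx)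
      have k3 := (N1.trans (Nmono ⟨le_rfl, ht₂.1⟩ hx hx.1)).trans (Nle x hx)
      have k4 := h.y_small hx' (hen x (hsub2 x hx))
      have k5 : κ ≤ 1 / 200 * (u x ^ 2 + p x ^ 2) * r x ^ 4 := by rw [hκ]; linarith
      have k6 : κ * (m x * (y x * r x)) ≤
          (1 / 200 * (u x ^ 2 + p x ^ 2) * r x ^ 4) * (m x * (1 * r x)) := by
        have := h.y0 x hx'
        gcongr
        linarith
      have k7 : (1 / 200 * (u x ^ 2 + p x ^ 2) * r x ^ 4) * (m x * (1 * r x)) =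
          r x ^ 5 * m x * (1 / 200 * (u x ^ 2 + p x ^ 2)) := by ring
      linarith)
  have W1 : 0 ≤ Wv m r t₁ := intervalIntegral.integral_nonneg ht₁.1 fun x hx => by
    have hx' : x ∈ Icc 0 T := ⟨hx.1, hx.2.trans ht₁.2⟩
    have := h.r0 x hx'
    have := h.mpos hB x hx'
    positivity
  have hy1 : 1 / 2 ≤ y t₁ := by
    have := h.con' t₁ ht₁
    have := h.y0 t₁ ht₁
    nlinarith
  have P1 : 3 * π / 16 - 7 * r t₁ ^ 5 ≤ Psi (y t₁ / r t₁) := by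
    have k1 := Psi_tail (z := y t₁ / r t₁) (by positivity)
    have k2 : 1 / (5 * (y t₁ / r t₁) ^ 5) ≤ 7 * r t₁ ^ 5 := by
      rw [div_pow, div_le_iff₀ (by positivity)]
      have : (1 / 2 : ℝ) ^ 5 ≤ y t₁ ^ 5 := pow_le_pow_left₀ (by norm_num) hy1 5
      have e : 7 * r t₁ ^ 5 * (5 * (y t₁ ^ 5 / r t₁ ^ 5)) = 35 * y t₁ ^ 5 := by
        field_simp; ring
      rw [e]; linarith
    linarith
  have F1 : r t₁ ^ 5 * (y t₁ * u t₁ ^ 2 - u t₁ * p t₁) ≤ r t₁ ^ 5 * 1 := by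
    refine mul_le_mul_of_nonneg_left ?_ (by positivity)
    have k1 := h.y_small ht₁ he.le
    have k3 := (abs_le.1 (hup (u t₁) (p t₁))).1
    have k4 := en_ge (u t₁) (p t₁)
    have k5 : y t₁ * u t₁ ^ 2 ≤ 58 / 100 * u t₁ ^ 2 := mul_le_mul_of_nonneg_right k1 (sq_nonneg _)
    nlinarith [sq_nonneg (p t₁)]
  have QT : Q T = Wv m r T := by simp [hQ, h.yT, hp, Psi_zero]
  have Q1 : Q t₁ = Wv m r t₁ + 1 / 9 * Psi (y t₁ / r t₁) -
    13 / 50 * (r t₁ ^ 5 * (y t₁ * u t₁ ^ 2 - u t₁ * p t₁)) := rfl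
  have fin : 2 * r t₁ ^ 5 < κ * (1 / 4 - r t₁) := by
    rw [hκ, show r t₁ ^ 5 = r t₁ ^ 4 * r t₁ by ring]
    have : 0 < r t₁ ^ 4 := by positivity
    nlinarith
  have : 0 < r t₁ ^ 5 := by positivity
  rw [hrt₂] at a1
  linarith

theorem phase2 {B : ℝ} (hB : 1 ≤ B) {γ : ℝ} (hγ : 0 < γ) (Λ : ℝ) :
    ∃ r₀ > 0, ∀ (m u p y r θ : ℝ → ℝ) (T : ℝ), Sol B m u p y r T → 1 / 100 ≤ en (u 0) (p 0) →
      en (u 0) (p 0) ≤ B → r 0 ≤ r₀ →
      (∀ t ∈ Icc 0 T, HasDerivAt θ (m t * om (u t) (p t) (y t)) t) →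
      (p T = 0 → π / 48 < Wv m r T) ∧ Wv m r T < π / 48 + γ ∧ θ T ≤ θ 0 - Λ := by
  obtain ⟨η, hη0, hη1, hη⟩ : ∃ η : ℝ, 0 < η ∧ η ≤ 1 / 100 ∧
      (1 / 3 + η / 12) ^ 2 * (3 * π / 16) ≤ π / 48 + γ / 2 := by
    refine ⟨min (1 / 100) γ, by positivity, min_le_left _ _, ?_⟩
    set η := min (1 / 100) γ
    have h1 : η ≤ 1 / 100 := min_le_left _ _
    have h2 : η ≤ γ := min_le_right _ _
    have h3 : 0 < η := by positivity
    have h4 : (1 / 3 + η / 12) ^ 2 ≤ 1 / 9 + η / 10 := by nlinarith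
    have h5 := mul_le_mul_of_nonneg_right h4 (by positivity : 0 ≤ 3 * π / 16)
    nlinarith [pi_lt_four, pi_pos]
  set S := 3 * B ^ 3 / η + 1 with hS
  set S' := 3 * B ^ 3 / (1 / 100) + 1 with hS'
  have hB0 : 0 < B := by linarith
  have hS0 : 0 < S := by positivity
  have hSS : S' ≤ S := by
    rw [hS, hS']
    gcongr
  set C := exp (B ^ 2 * S) with hC
  have hC0 : 0 < C := exp_pos _
  set ρ := min (1 / 10 ^ 8) (min (γ / (4 * B * S)) (exp (-(10 * Λ + 15 * B ^ 2 * S)) / 2)) with hρ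
  have hρ0 : 0 < ρ := by positivity
  have hρ1 : ρ ≤ 1 / 10 ^ 8 := min_le_left _ _
  have hρ2 : ρ ≤ γ / (4 * B * S) := (min_le_right _ _).trans (min_le_left _ _)
  have hρ3 : ρ ≤ exp (-(10 * Λ + 15 * B ^ 2 * S)) / 2 :=
    (min_le_right _ _).trans (min_le_right _ _)
  refine ⟨ρ / C, by positivity, fun m u p y r θ T h he0 he1 hr hθ => ?_⟩
  have hr0 := h.r0 0 ⟨le_rfl, h.hT⟩
  have hbound : ∀ t, t ≤ S → r 0 * exp (B ^ 2 * t) ≤ ρ := by
    intro t ht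
    calc r 0 * exp (B ^ 2 * t) ≤ ρ / C * C := by
          rw [hC]; gcongr
      _ = ρ := by field_simp
  obtain ⟨t₁, ht₁, hts₁, he₁⟩ := h.reach hB hη0 (hη1.trans he0) he1
    ((hbound S le_rfl).trans (by linarith))
  obtain ⟨t₂, ht₂, hts₂, he₂⟩ := h.reach hB (η := 1 / 100) (by norm_num) he0 he1
    ((hbound S' hSS).trans (by linarith))
  have hr₁ : r t₁ ≤ ρ := (h.r_le hB t₁ ht₁).trans (hbound t₁ hts₁)
  have hr₂ : r t₂ ≤ ρ := (h.r_le hB t₂ ht₂).trans (hbound t₂ (hts₂.trans hSS))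
  have hp₁ := h.r0 t₁ ht₁
  refine ⟨fun hp => h.W_lower hB ht₂ he₂ (hr₂.trans hρ1) hp, ?_, ?_⟩
  · have k1 := h.W_upper hB ht₁ he₁.le
    have k2 : r t₁ ^ 5 ≤ γ / (4 * B * S) := by
      refine le_trans ?_ (hr₁.trans hρ2)
      calc r t₁ ^ 5 ≤ r t₁ ^ 1 := pow_le_pow_of_le_one hp₁.le (by linarith) (by norm_num)
        _ = r t₁ := pow_one _
    have k3 : r t₁ ^ 5 * B * t₁ ≤ γ / (4 * B * S) * B * S := by
      have := ht₁.1
      gcongr
    have k4 : γ / (4 * B * S) * B * S = γ / 4 := by field_simp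
    linarith
  · have k1 := h.angle hB (by linarith) hθ ht₁ (he₁.le.trans hη1)
    have k2 : log (2 * r t₁) ≤ -(10 * Λ + 15 * B ^ 2 * S) := by
      rw [log_le_iff_le_exp (by positivity)]
      linarith
    have k3 : 3 / 2 * B ^ 2 * t₁ ≤ 3 / 2 * B ^ 2 * S := by gcongr
    linarith

end Pool.Agent.Lib.MP_1301ff_gt
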