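import Pool.Agent.Lib.MP_1301ff_gt.Phase1
import Pool.Agent.Lib.MP_1301ff_gt.Phase2b

set_option autoImplicit false

namespace Pool.Agent.Lib.MP_1301ff_gt

open Set Filter Topology Real Metric
open scoped ContDiff

theorem subst_int (k : ℕ) (G : ℝ → ℝ) (ρ : ℝ) :
    ρ ^ (k + 1) * ∫ w in (0 : ℝ)..1, w ^ k * G (w * ρ) = ∫ t in (0 : ℝ)..ρ, t ^ k * G t := by
  have h := intervalIntegral.mul_integral_comp_mul_right (a := 0) (b := 1)
    (f := fun t => t ^ k * G t) ρ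
  simp only [zero_mul, one_mul] at h
  rw [← h, pow_succ, mul_comm (ρ ^ k), mul_assoc, ← intervalIntegral.integral_const_mul]
  congr 2
  ext w
  ring

theorem hasDerivAt_int {G : ℝ → ℝ} {d ρ : ℝ} (hG : ContinuousOn G (Ioo (-d) d)) (h0 : 0 < ρ)
    (h1 : ρ < d) : HasDerivAt (fun s => ∫ t in (0 : ℝ)..s, G t) (G ρ) ρ := by
  have hm : ρ ∈ Ioo (-d) d := ⟨by linarith, h1⟩
  refine intervalIntegral.integral_hasDerivAt_right ?_
    (hG.stronglyMeasurableAtFilter isOpen_Ioo ρ hm) (hG.continuousAt (isOpen_Ioo.mem_nhds hm))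
  refine (hG.mono ?_).intervalIntegrable
  rw [uIcc_of_le h0.le]
  exact fun t ht => ⟨by linarith [ht.1], ht.2.trans_lt h1⟩

theorem deriv_sing (k : ℕ) {G z : ℝ → ℝ} {d : ℝ} (hG : ContinuousOn G (Ioo (-d) d))
    (hz : ∀ ρ ∈ Ioo 0 d, z ρ = ∫ w in (0 : ℝ)..1, w ^ k * G (w * ρ)) :
    ∀ ρ ∈ Ioo 0 d, HasDerivAt z ((G ρ - (k + 1) * z ρ) / ρ) ρ := by
  intro ρ hρ
  have e : ∀ s ∈ Ioo 0 d, z s = (∫ t in (0 : ℝ)..s, t ^ k * G t) / s ^ (k + 1) := by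
    intro s hs
    rw [← subst_int k G s, hz s hs, mul_div_cancel_left₀ _ (pow_pos hs.1 _).ne']
  have h1 := hasDerivAt_int (G := fun t => t ^ k * G t) ((continuousOn_pow k).mul hG) hρ.1 hρ.2
  have h2 := h1.div (hasDerivAt_pow (k + 1) ρ) (pow_pos hρ.1 _).ne'
  refine (h2.congr_of_eventuallyEq ?_).congr_deriv ?_
  · filter_upwards [isOpen_Ioo.mem_nhds hρ] with s hs using e s hs
  · rw [e ρ hρ]
    have := hρ.1.ne'
    simp only [Nat.cast_add, Nat.cast_one, Nat.add_one_sub_one]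
    field_simp
    ring

theorem deriv_reg {G z : ℝ → ℝ} {d : ℝ} (hG : ContinuousOn G (Ioo (-d) d))
    (hz : ∀ ρ ∈ Ioo 0 d, z ρ = 1 + 2 * ρ ^ 2 * ∫ w in (0 : ℝ)..1, w ^ 1 * G (w * ρ)) :
    ∀ ρ ∈ Ioo 0 d, HasDerivAt z (2 * (ρ * G ρ)) ρ := by
  intro ρ hρ
  have h1 := hasDerivAt_int (G := fun t => t ^ 1 * G t) ((continuousOn_pow 1).mul hG) hρ.1 hρ.2
  refine (((h1.const_mul 2).const_add 1).congr_of_eventuallyEq ?_).congr_deriv (by simp)
  filter_upwards [isOpen_Ioo.mem_nhds hρ] with s hs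
  rw [hz s hs, ← subst_int 1 G s]
  ring

/-- The Einstein system in conformal time. -/
structure FK (F K X Y : ℝ → ℝ) (t : ℝ) : Prop where
  dF : HasDerivAt F (X t) t
  dK : HasDerivAt K (Y t) t
  dX : HasDerivAt X (1 - X t ^ 2 - 2 * X t * Y t - 4 * exp (2 * F t)) t
  dY : HasDerivAt Y (-(X t * Y t) - 2 * Y t ^ 2 + exp (2 * F t - 2 * K t) - 4 * exp (2 * F t)) t

noncomputable def conI (F K X Y : ℝ) : ℝ :=
  X ^ 2 + Y ^ 2 + 4 * X * Y - 1 - exp (2 * F - 2 * K) + 6 * exp (2 * F)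

theorem FK.dI {F K X Y : ℝ → ℝ} {t : ℝ} (h : FK F K X Y t) :
    HasDerivAt (fun t => conI (F t) (K t) (X t) (Y t) * exp (2 * F t + 4 * K t)) 0 t := by
  refine (((((((h.dX.pow 2).add (h.dY.pow 2)).add ((h.dX.const_mul 4).mul h.dY)).sub_const 1).sub
    ((h.dF.const_mul 2).sub (h.dK.const_mul 2)).exp).add
    ((h.dF.const_mul 2).exp.const_mul 6)).mul
    ((h.dF.const_mul 2).add (h.dK.const_mul 4)).exp).congr_deriv ?_
  simp only [Nat.cast_ofNat, Pi.pow_apply, Pi.sub_apply, Pi.mul_apply, Pi.add_apply]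
  ring

theorem exists_FK : ∃ δ > 0, δ ≤ 1 / 100 ∧ ∃ (X Y : ℝ → ℝ → ℝ) (α β : ℝ → ℝ → ℝ),
    (∀ ε ∈ Ioo 0 δ, ∀ τ ∈ Ioo (-δ) δ, ContDiffAt ℝ ∞ (α ε) τ ∧ ContDiffAt ℝ ∞ (β ε) τ) ∧
    (∀ ξ, exp (2 * ξ) < δ → ContinuousOn (fun ε => X ε ξ) (Ioo 0 δ) ∧
      ContinuousOn (fun ε => Y ε ξ) (Ioo 0 δ) ∧
      ContinuousOn (fun ε => α ε (exp (2 * ξ))) (Ioo 0 δ) ∧
      ContinuousOn (fun ε => β ε (exp (2 * ξ))) (Ioo 0 δ)) ∧
    ∀ ε ∈ Ioo 0 δ, ∀ ξ, exp (2 * ξ) < δ →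
      FK (fun ξ => ξ + α ε (exp (2 * ξ))) (fun ξ => β ε (exp (2 * ξ))) (X ε) (Y ε) ξ ∧
      |X ε ξ - 1| ≤ 1 / 100 ∧ |Y ε ξ| ≤ 1 / 100 ∧
      exp (2 * α ε (exp (2 * ξ))) ≤ ε ∧ exp (2 * β ε (exp (2 * ξ))) ≤ ε ∧
      |α ε (exp (2 * ξ)) - β ε (exp (2 * ξ))| ≤ 1 := by
  obtain ⟨δ₀, hδ₀, Zx, Zy, Za, Zc, hZ⟩ := exists_Z
  set δ := min δ₀ (1 / 100) with hδ
  have hδ1 : δ ≤ δ₀ := min_le_left _ _
  have hδ2 : δ ≤ 1 / 100 := min_le_right _ _
  have hδ0 : 0 < δ := by positivity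
  have hball : ∀ ε ∈ Ioo 0 δ, ∀ τ ∈ Ioo (-δ) δ, (τ, ε) ∈ ball (0 : ℝ × ℝ) δ₀ := by
    intro ε hε τ hτ
    rw [mem_ball, Prod.dist_eq, max_lt_iff]
    simp only [Prod.fst_zero, Prod.snd_zero, Real.dist_eq, sub_zero, abs_lt]
    exact ⟨⟨by linarith [hτ.1], by linarith [hτ.2]⟩, by linarith [hε.1], by linarith [hε.2]⟩
  have hexp : ∀ ξ, exp (2 * ξ) < δ → exp (2 * ξ) ∈ Ioo (-δ) δ := fun ξ h =>
    ⟨by linarith [exp_pos (2 * ξ)], h⟩
  have ha0 : ∀ P ∈ ball (0 : ℝ × ℝ) δ₀, 9 / 10 < Za P ∧ Za P < 11 / 10 := fun P hP => by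
    have := abs_lt.1 (hZ P hP).2.2.2.2.2.2.1
    constructor <;> linarith
  have hc0 : ∀ P ∈ ball (0 : ℝ × ℝ) δ₀, 9 / 10 < Zc P ∧ Zc P < 11 / 10 := fun P hP => by
    have := abs_lt.1 (hZ P hP).2.2.2.2.2.2.2.1
    constructor <;> linarith
  refine ⟨δ, hδ0, hδ2, fun ε ξ => 1 + exp (2 * ξ) * Zx (exp (2 * ξ), ε),
    fun ε ξ => exp (2 * ξ) * Zy (exp (2 * ξ), ε),
    fun ε τ => 1 / 2 * log (ε * Zc (τ, ε) / 4),
    fun ε τ => 1 / 2 * log (ε * Zc (τ, ε) / 4) - 1 / 2 * log (Za (τ, ε)), ?_, ?_, ?_⟩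
  · intro ε hε τ hτ
    have hP := hball ε hε τ hτ
    obtain ⟨-, -, h3, h4, -⟩ := hZ _ hP
    have hi : ContDiffAt ℝ ∞ (fun τ : ℝ => (τ, ε)) τ := by fun_prop
    have k3 : ContDiffAt ℝ ∞ (fun τ : ℝ => Za (τ, ε)) τ := (h3.of_le le_top).comp τ hi
    have k4 : ContDiffAt ℝ ∞ (fun τ : ℝ => Zc (τ, ε)) τ := (h4.of_le le_top).comp τ hi
    have p3 := (ha0 _ hP).1
    have p4 := (hc0 _ hP).1
    have p5 := hε.1
    have l4 : ContDiffAt ℝ ∞ (fun τ : ℝ => log (ε * Zc (τ, ε) / 4)) τ :=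
      ((contDiffAt_const.mul k4).div_const 4).log (by positivity)
    have l3 : ContDiffAt ℝ ∞ (fun τ : ℝ => log (Za (τ, ε))) τ := k3.log (by positivity)
    exact ⟨contDiffAt_const.mul l4, (contDiffAt_const.mul l4).sub (contDiffAt_const.mul l3)⟩
  · intro ξ hξ
    have hc : ∀ {Z : ℝ × ℝ → ℝ}, (∀ P ∈ ball (0 : ℝ × ℝ) δ₀, ContDiffAt ℝ ω Z P) →
        ContinuousOn (fun ε => Z (exp (2 * ξ), ε)) (Ioo 0 δ) := fun {Z} h ε hε =>
      (ContinuousAt.comp (f := fun ε => (exp (2 * ξ), ε))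
        (h _ (hball ε hε _ (hexp ξ hξ))).continuousAt (by fun_prop)).continuousWithinAt
    have c1 := hc fun P hP => (hZ P hP).1
    have c2 := hc fun P hP => (hZ P hP).2.1
    have c3 := hc fun P hP => (hZ P hP).2.2.1
    have c4 := hc fun P hP => (hZ P hP).2.2.2.1
    have l4 : ContinuousOn (fun ε => log (ε * Zc (exp (2 * ξ), ε) / 4)) (Ioo 0 δ) :=
      ((continuousOn_id.mul c4).div_const 4).log fun ε hε => by
        have := (hc0 _ (hball ε hε _ (hexp ξ hξ))).1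
        have := hε.1
        change ε * Zc (exp (2 * ξ), ε) / 4 ≠ 0
        positivity
    have l3 : ContinuousOn (fun ε => log (Za (exp (2 * ξ), ε))) (Ioo 0 δ) :=
      c3.log fun ε hε => by
        have := (ha0 _ (hball ε hε _ (hexp ξ hξ))).1
        positivity
    exact ⟨continuousOn_const.add (continuousOn_const.mul c1), continuousOn_const.mul c2,
      continuousOn_const.mul l4, (continuousOn_const.mul l4).sub (continuousOn_const.mul l3)⟩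
  · intro ε hε ξ hξ
    set d := √δ with hd
    have hsq : ∀ ρ ∈ Ioo (-d) d, ρ ^ 2 ∈ Ioo (-δ) δ := fun ρ hρ =>
      ⟨by nlinarith [sq_nonneg ρ], by
        have := sq_lt_sq' hρ.1 hρ.2
        rwa [hd, sq_sqrt hδ0.le] at this⟩
    have hc : ∀ {Z : ℝ × ℝ → ℝ}, (∀ P ∈ ball (0 : ℝ × ℝ) δ₀, ContDiffAt ℝ ω Z P) →
        ContinuousOn (fun ρ : ℝ => Z (ρ ^ 2, ε)) (Ioo (-d) d) := fun {Z} h ρ hρ =>
      (ContinuousAt.comp (f := fun ρ : ℝ => (ρ ^ 2, ε))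
        (h _ (hball ε hε _ (hsq ρ hρ))).continuousAt (by fun_prop)).continuousWithinAt
    set x : ℝ → ℝ := fun ρ => Zx (ρ ^ 2, ε) with hx
    set y : ℝ → ℝ := fun ρ => Zy (ρ ^ 2, ε) with hy
    set a : ℝ → ℝ := fun ρ => Za (ρ ^ 2, ε) with ha
    set c : ℝ → ℝ := fun ρ => Zc (ρ ^ 2, ε) with hc'
    have c1 : ContinuousOn x (Ioo (-d) d) := hc fun P hP => (hZ P hP).1
    have c2 : ContinuousOn y (Ioo (-d) d) := hc fun P hP => (hZ P hP).2.1
    have c3 : ContinuousOn a (Ioo (-d) d) := hc fun P hP => (hZ P hP).2.2.1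
    have c4 : ContinuousOn c (Ioo (-d) d) := hc fun P hP => (hZ P hP).2.2.2.1
    have hE : ∀ ρ ∈ Ioo 0 d,
        a ρ = 1 + 2 * ρ ^ 2 * (∫ w in (0 : ℝ)..1, w ^ 1 * (a (w * ρ) * (x (w * ρ) - y (w * ρ)))) ∧
        c ρ = 1 + 2 * ρ ^ 2 * (∫ w in (0 : ℝ)..1, w ^ 1 * (c (w * ρ) * x (w * ρ))) ∧
        y ρ = (∫ w in (0 : ℝ)..1, w ^ 2 * (a (w * ρ) - ε * c (w * ρ) -
          (w * ρ) ^ 2 * (x (w * ρ) * y (w * ρ) + 2 * (y (w * ρ) * y (w * ρ))))) ∧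
        x ρ = ∫ w in (0 : ℝ)..1, w ^ 3 * (-2 * y (w * ρ) - ε * c (w * ρ) -
          (w * ρ) ^ 2 * (x (w * ρ) * x (w * ρ) + 2 * (x (w * ρ) * y (w * ρ)))) := by
      intro ρ hρ
      have := (hZ _ (hball ε hε _ (hsq ρ ⟨by linarith [hρ.1, hρ.2], hρ.2⟩))).2.2.2.2.2.2.2.2 1
        ⟨zero_le_one, le_rfl⟩
      simp only [one_pow, mul_one, one_mul] at this
      have e : ∀ w : ℝ, ρ ^ 2 * w ^ 2 = (w * ρ) ^ 2 := fun w => by ring
      simp only [e, ← mul_assoc (ρ ^ 2)] at this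
      exact this
    have da := deriv_reg (G := fun t => a t * (x t - y t)) (c3.mul (c1.sub c2))
      fun ρ hρ => (hE ρ hρ).1
    have dc := deriv_reg (G := fun t => c t * x t) (c4.mul c1) fun ρ hρ => (hE ρ hρ).2.1
    have dy := deriv_sing 2
      (G := fun t => a t - ε * c t - t ^ 2 * (x t * y t + 2 * (y t * y t)))
      (by fun_prop) fun ρ hρ => (hE ρ hρ).2.2.1
    have dx := deriv_sing 3
      (G := fun t => -2 * y t - ε * c t - t ^ 2 * (x t * x t + 2 * (x t * y t)))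
      (by fun_prop) fun ρ hρ => (hE ρ hρ).2.2.2
    have e2 : ∀ s : ℝ, exp (2 * s) = exp s ^ 2 := fun s => by rw [← exp_nat_mul]; norm_num
    have hρ : exp ξ ∈ Ioo 0 d := ⟨exp_pos ξ, by rw [hd, lt_sqrt (exp_pos ξ).le, ← e2]; exact hξ⟩
    have hP := hball ε hε _ (hexp ξ hξ)
    have p3 := ha0 _ hP
    have p4 := hc0 _ hP
    have p5 := hε.1
    have p6 := abs_lt.1 (hZ _ hP).2.2.2.2.1
    have p7 := abs_lt.1 (hZ _ hP).2.2.2.2.2.1
    have q3 : 0 < Za (exp (2 * ξ), ε) := by linarith [p3.1]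
    have q4 : 0 < ε * Zc (exp (2 * ξ), ε) / 4 := by have := p4.1; positivity
    have ea : exp (2 * (1 / 2 * log (ε * Zc (exp (2 * ξ), ε) / 4))) =
        ε * Zc (exp (2 * ξ), ε) / 4 := by
      rw [← mul_assoc, show (2 : ℝ) * (1 / 2) = 1 by norm_num, one_mul, exp_log q4]
    have eb : exp (2 * (1 / 2 * log (ε * Zc (exp (2 * ξ), ε) / 4) -
        1 / 2 * log (Za (exp (2 * ξ), ε)))) = ε * Zc (exp (2 * ξ), ε) / 4 / Za (exp (2 * ξ), ε) := by
      rw [mul_sub, exp_sub, ea, ← mul_assoc, show (2 : ℝ) * (1 / 2) = 1 by norm_num, one_mul,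
        exp_log q3]
    have hτ0 := exp_pos (2 * ξ)
    refine ⟨?_, ?_, ?_, ?_, ?_, ?_⟩
    · have hE1 := hasDerivAt_exp ξ
      have Da := (da _ hρ).comp ξ hE1
      have Dc := (dc _ hρ).comp ξ hE1
      have Dy := (dy _ hρ).comp ξ hE1
      have Dx := (dx _ hρ).comp ξ hE1
      have r0 := (exp_pos ξ).ne'
      have r3 : a (exp ξ) ≠ 0 := by rw [e2] at q3; exact q3.ne'
      have r4 : c (exp ξ) ≠ 0 := by rw [e2] at p4; change Zc _ ≠ 0; linarith [p4.1]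
      have r5 : ε * c (exp ξ) / 4 ≠ 0 := by rw [e2] at q4; exact q4.ne'
      have Lc := (((Dc.const_mul ε).div_const 4).log r5).const_mul (1 / 2)
      have La := (Da.log r3).const_mul (1 / 2)
      have eF : exp (2 * (ξ + 1 / 2 * log (ε * Zc (exp (2 * ξ), ε) / 4))) =
          exp ξ ^ 2 * (ε * c (exp ξ) / 4) := by
        rw [mul_add, exp_add, ea, e2]
      have eG : exp (2 * (ξ + 1 / 2 * log (ε * Zc (exp (2 * ξ), ε) / 4)) -
          2 * (1 / 2 * log (ε * Zc (exp (2 * ξ), ε) / 4) - 1 / 2 * log (Za (exp (2 * ξ), ε)))) =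
          exp ξ ^ 2 * a (exp ξ) := by
        rw [exp_sub, eF, eb, e2]
        change _ / (ε * c (exp ξ) / 4 / a (exp ξ)) = _
        field_simp
      constructor
      · simp only [e2]
        refine ((hasDerivAt_id ξ).add Lc).congr_deriv ?_
        simp only [Function.comp_apply]
        change _ = 1 + exp ξ ^ 2 * x (exp ξ)
        field_simp
      · simp only [e2]
        refine (Lc.sub La).congr_deriv ?_
        simp only [Function.comp_apply]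
        change _ = exp ξ ^ 2 * y (exp ξ)
        field_simp
        ring
      · rw [eF]
        simp only [e2]
        refine (((hE1.pow 2).mul Dx).const_add 1).congr_deriv ?_
        simp only [Function.comp_apply, Pi.pow_apply]
        change _ = 1 - (1 + exp ξ ^ 2 * x (exp ξ)) ^ 2 -
          2 * (1 + exp ξ ^ 2 * x (exp ξ)) * (exp ξ ^ 2 * y (exp ξ)) - _
        field_simp
        ring
      · rw [eG, eF]
        simp only [e2]
        refine ((hE1.pow 2).mul Dy).congr_deriv ?_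
        simp only [Function.comp_apply, Pi.pow_apply]
        change _ = -((1 + exp ξ ^ 2 * x (exp ξ)) * (exp ξ ^ 2 * y (exp ξ))) -
          2 * (exp ξ ^ 2 * y (exp ξ)) ^ 2 + _ - _
        field_simp
        ring
    · rw [add_sub_cancel_left, abs_le]
      constructor <;> nlinarith
    · rw [abs_le]
      constructor <;> nlinarith
    · rw [ea]; nlinarith
    · rw [eb, div_le_iff₀ q3]; nlinarith
    · rw [sub_sub_cancel, abs_le]
      have l1 := log_le_sub_one_of_pos q3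
      have l2 := one_sub_inv_le_log_of_pos q3
      have l3 : (Za (exp (2 * ξ), ε))⁻¹ ≤ 2 := by
        rw [inv_le_comm₀ q3 (by norm_num)]; linarith [p3.1]
      constructor <;> linarith [p3.2]

end Pool.Agent.Lib.MP_1301ff_gt
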