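import Pool.Agent.Lib.MP_1301ff_gt.Ineq

set_option autoImplicit false

namespace Pool.Agent.Lib.MP_1301ff_gt

open Set Filter Topology Real

/-- A solution of the reduced Einstein system on `[0, T]`, up to the maximal volume orbit. -/
structure Sol (B : ℝ) (m u p y r : ℝ → ℝ) (T : ℝ) : Prop where
  hT : 0 ≤ T
  cm : Continuous m
  cr : Continuous r
  m0 : ∀ t ∈ Icc 0 T, 1 / B ≤ m t
  m1 : ∀ t ∈ Icc 0 T, m t ≤ B
  du : ∀ t ∈ Icc 0 T, HasDerivAt u (m t * p t) t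
  dp : ∀ t ∈ Icc 0 T, HasDerivAt p (m t * (-3 * y t * p t - 2 * sinh (u t))) t
  dy : ∀ t ∈ Icc 0 T, HasDerivAt y (m t * (-r t ^ 2 - p t ^ 2 / 4)) t
  dr : ∀ t ∈ Icc 0 T, HasDerivAt r (m t * (y t * r t)) t
  con : ∀ t ∈ Icc 0 T, y t ^ 2 + r t ^ 2 = (p t ^ 2 + 4 * cosh (u t)) / 12
  y0 : ∀ t ∈ Icc 0 T, 0 ≤ y t
  y1 : ∀ t ∈ Icc 0 T, y t ≤ B
  yT : y T = 0
  r0 : ∀ t ∈ Icc 0 T, 0 < r t

/-- The excess energy. -/
noncomputable def en (u p : ℝ) : ℝ := p ^ 2 + 4 * (cosh u - 1)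

theorem en_ge (u p : ℝ) : p ^ 2 + 2 * u ^ 2 ≤ en u p := by
  unfold en; linarith [sq_le_cosh u]

variable {B : ℝ} {m u p y r : ℝ → ℝ} {T : ℝ}

theorem Sol.mpos (h : Sol B m u p y r T) (hB : 1 ≤ B) : ∀ t ∈ Icc 0 T, 0 < m t :=
  fun t ht => lt_of_lt_of_le (by positivity) (h.m0 t ht)

theorem Sol.den (h : Sol B m u p y r T) : ∀ t ∈ Icc 0 T,
    HasDerivAt (fun t => en (u t) (p t)) (m t * (-6 * y t * p t ^ 2)) t := by
  intro t ht
  refine (((h.dp t ht).pow 2).add (((h.du t ht).cosh.sub_const 1).const_mul 4)).congr_deriv ?_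
  simp only [Nat.cast_ofNat, Nat.add_one_sub_one, pow_one]
  ring

theorem Sol.en_anti (h : Sol B m u p y r T) (hB : 1 ≤ B) {s t : ℝ} (hs : 0 ≤ s) (hst : s ≤ t)
    (ht : t ≤ T) : en (u t) (p t) ≤ en (u s) (p s) := by
  refine le_of_deriv_nonpos hst (fun x hx => h.den x ⟨hs.trans hx.1, hx.2.trans ht⟩) ?_
  intro x hx
  have hx' : x ∈ Icc 0 T := ⟨hs.trans hx.1, hx.2.trans ht⟩
  have := h.mpos hB x hx'
  have := h.y0 x hx'
  have : 0 ≤ m x * (y x * p x ^ 2) := by positivity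
  linarith

theorem Sol.en_pos (h : Sol B m u p y r T) (hB : 1 ≤ B) (h0 : 0 < en (u 0) (p 0)) :
    ∀ t ∈ Icc 0 T, 0 < en (u t) (p t) := by
  intro t ht
  have := le_of_deriv_nonneg (g := fun t => en (u t) (p t) * r t ^ 6)
    (g' := fun t => m t * y t * r t ^ 6 * (6 * (en (u t) (p t) - p t ^ 2))) ht.1
    (fun x hx => by
      have hx' : x ∈ Icc 0 T := ⟨hx.1, hx.2.trans ht.2⟩
      refine ((h.den x hx').mul ((h.dr x hx').pow 6)).congr_deriv ?_
      simp only [Nat.cast_ofNat, Pi.pow_apply]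
      ring)
    (fun x hx => by
      have hx' : x ∈ Icc 0 T := ⟨hx.1, hx.2.trans ht.2⟩
      have := h.mpos hB x hx'
      have := h.y0 x hx'
      have : 0 ≤ en (u x) (p x) - p x ^ 2 := by nlinarith [en_ge (u x) (p x), sq_nonneg (u x)]
      positivity)
  have h1 : 0 < en (u 0) (p 0) * r 0 ^ 6 := mul_pos h0 (pow_pos (h.r0 0 ⟨le_rfl, h.hT⟩) 6)
  exact (mul_pos_iff_of_pos_right (pow_pos (h.r0 t ht) 6)).1 (h1.trans_le this)

theorem Sol.r_mono (h : Sol B m u p y r T) (hB : 1 ≤ B) {s t : ℝ} (hs : 0 ≤ s) (hst : s ≤ t)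
    (ht : t ≤ T) : r s ≤ r t := by
  refine le_of_deriv_nonneg hst (fun x hx => h.dr x ⟨hs.trans hx.1, hx.2.trans ht⟩) ?_
  intro x hx
  have hx' : x ∈ Icc 0 T := ⟨hs.trans hx.1, hx.2.trans ht⟩
  have := h.mpos hB x hx'
  have := h.y0 x hx'
  have := h.r0 x hx'
  positivity

theorem Sol.r_le (h : Sol B m u p y r T) (hB : 1 ≤ B) : ∀ t ∈ Icc 0 T,
    r t ≤ r 0 * exp (B ^ 2 * t) := by
  intro t ht
  have := le_of_deriv_nonpos (g := fun t => r t * exp (-(B ^ 2 * t)))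
    (g' := fun t => r t * exp (-(B ^ 2 * t)) * (m t * y t - B ^ 2)) ht.1
    (fun x hx => by
      have hx' : x ∈ Icc 0 T := ⟨hx.1, hx.2.trans ht.2⟩
      refine ((h.dr x hx').mul (((hasDerivAt_id x).const_mul (B ^ 2)).neg.exp)).congr_deriv ?_
      simp only [Pi.neg_apply, id]
      ring)
    (fun x hx => by
      have hx' : x ∈ Icc 0 T := ⟨hx.1, hx.2.trans ht.2⟩
      have h1 : m x * y x ≤ B * B :=
        mul_le_mul (h.m1 x hx') (h.y1 x hx') (h.y0 x hx') (by linarith)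
      have := h.r0 x hx'
      exact mul_nonpos_of_nonneg_of_nonpos (by positivity) (by nlinarith))
  simp only [mul_zero, neg_zero, exp_zero, mul_one] at this
  calc r t = r t * exp (-(B ^ 2 * t)) * exp (B ^ 2 * t) := by
        rw [mul_assoc, ← exp_add]; simp
    _ ≤ _ := mul_le_mul_of_nonneg_right this (exp_pos _).le

theorem Sol.con' (h : Sol B m u p y r T) : ∀ t ∈ Icc 0 T,
    y t ^ 2 + r t ^ 2 = 1 / 3 + en (u t) (p t) / 12 := by
  intro t ht
  rw [h.con t ht, en]; ring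

theorem key_L {B u p y s c : ℝ} (hB : 1 ≤ B) (hy0 : 1 / 2 ≤ y) (hy1 : y ≤ B)
    (h1 : u ^ 2 ≤ u * s) (h2 : 2 * c ≤ u * s) :
    -6 * y * p ^ 2 + 1 / B * (p * p + u * (-3 * y * p - 2 * s)) ≤
      -(1 / (2 * B)) * (p ^ 2 + 4 * c) := by
  have hB0 : 0 < B := by linarith
  have e : -6 * y * p ^ 2 + 1 / B * (p * p + u * (-3 * y * p - 2 * s)) +
      1 / (2 * B) * (p ^ 2 + 4 * c) =
      1 / B * (-6 * B * y * p ^ 2 + 3 / 2 * p ^ 2 - 3 * y * (u * p) - 2 * (u * s) + 2 * c) := by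
    field_simp; ring
  have h3 : -3 * y * (u * p) ≤ u ^ 2 + 9 / 4 * y ^ 2 * p ^ 2 := by
    nlinarith [sq_nonneg (u + 3 / 2 * y * p)]
  have h4 : y ^ 2 * p ^ 2 ≤ B * y * p ^ 2 :=
    mul_le_mul_of_nonneg_right (by nlinarith) (sq_nonneg p)
  have h5 : 1 / 2 * p ^ 2 ≤ B * y * p ^ 2 :=
    mul_le_mul_of_nonneg_right (by nlinarith) (sq_nonneg p)
  have h6 : -6 * B * y * p ^ 2 + 3 / 2 * p ^ 2 - 3 * y * (u * p) - 2 * (u * s) + 2 * c ≤ 0 := by
    nlinarith [sq_nonneg p]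
  have := mul_nonpos_of_nonneg_of_nonpos (by positivity : 0 ≤ 1 / B) h6
  linarith

/-- The excess energy drops to a given level within a uniformly bounded time. -/
theorem Sol.reach (h : Sol B m u p y r T) (hB : 1 ≤ B) {η : ℝ} (hη : 0 < η)
    (he0 : η ≤ en (u 0) (p 0)) (he1 : en (u 0) (p 0) ≤ B)
    (hr : r 0 * exp (B ^ 2 * (3 * B ^ 3 / η + 1)) ≤ 1 / 4) :
    ∃ t₁ ∈ Icc 0 T, t₁ ≤ 3 * B ^ 3 / η + 1 ∧ en (u t₁) (p t₁) = η := by
  set S := 3 * B ^ 3 / η + 1 with hS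
  have hB0 : 0 < B := by linarith
  have hS0 : 0 < S := by positivity
  have hr0 := h.r0 0 ⟨le_rfl, h.hT⟩
  have hy : ∀ t ∈ Icc 0 T, t ≤ S → 1 / 2 ≤ y t := by
    intro t ht hts
    have h1 : r t ≤ 1 / 4 := by
      refine (h.r_le hB t ht).trans (le_trans ?_ hr)
      gcongr
    have h2 := h.con' t ht
    have h3 := h.r0 t ht
    have h4 := en_ge (u t) (p t)
    have h5 := h.y0 t ht
    nlinarith [sq_nonneg (u t), sq_nonneg (p t)]
  have hST : S ≤ T := by
    by_contra hc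
    have := hy T ⟨h.hT, le_rfl⟩ (not_le.1 hc).le
    rw [h.yT] at this
    linarith
  have hex : ∃ t ∈ Icc 0 S, en (u t) (p t) ≤ η := by
    by_contra hc
    push Not at hc
    have hsub : ∀ x ∈ Icc 0 S, x ∈ Icc 0 T := fun x hx => ⟨hx.1, hx.2.trans hST⟩
    have := le_of_deriv_nonpos
      (g := fun t => en (u t) (p t) + 1 / B * (u t * p t) + η / (2 * B ^ 2) * t)
      (g' := fun t => m t * (-6 * y t * p t ^ 2 +
        1 / B * (p t * p t + u t * (-3 * y t * p t - 2 * sinh (u t)))) + η / (2 * B ^ 2))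
      hS0.le
      (fun x hx => by
        have hx' := hsub x hx
        refine (((h.den x hx').add (((h.du x hx').mul (h.dp x hx')).const_mul (1 / B))).add
          ((hasDerivAt_id x).const_mul (η / (2 * B ^ 2)))).congr_deriv ?_
        ring)
      (fun x hx => by
        have hx' := hsub x hx
        have k1 := key_L (p := p x) hB (hy x hx' hx.2) (h.y1 x hx') (sq_le_mul_sinh (u x))
          (cosh_le_mul_sinh (u x))
        have k2 : η ≤ p x ^ 2 + 4 * (cosh (u x) - 1) := (hc x hx).le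
        have k3 := h.m0 x hx'
        have k4 : -(1 / (2 * B)) * (p x ^ 2 + 4 * (cosh (u x) - 1)) ≤ -(1 / (2 * B)) * η :=
          mul_le_mul_of_nonpos_left k2 (by have : 0 < 1 / (2 * B) := by positivity
                                           linarith)
        have k5 : m x * (-(1 / (2 * B)) * η) ≤ 1 / B * (-(1 / (2 * B)) * η) :=
          mul_le_mul_of_nonpos_right k3 (by have : 0 < 1 / (2 * B) * η := by positivity
                                            linarith)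
        have k6 := mul_le_mul_of_nonneg_left (k1.trans k4) (h.mpos hB x hx').le
        have k7 : 1 / B * (-(1 / (2 * B)) * η) + η / (2 * B ^ 2) = 0 := by field_simp; ring
        linarith)
    have hb : ∀ a b : ℝ, |1 / B * (a * b)| ≤ en a b / 2 := by
      intro a b
      have h1 : |a * b| ≤ en a b / 2 := by
        have := en_ge a b
        rw [abs_le]
        constructor <;> nlinarith [sq_nonneg (a + b), sq_nonneg (a - b), sq_nonneg a]
      rw [abs_mul, abs_of_pos (by positivity : 0 < 1 / B)]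
      have : 1 / B ≤ 1 := by rw [div_le_one hB0]; exact hB
      nlinarith [abs_nonneg (a * b)]
    have b0 := (abs_le.1 (hb (u 0) (p 0))).2
    have b1 := (abs_le.1 (hb (u S) (p S))).1
    have b2 := hc S ⟨hS0.le, le_rfl⟩
    have b3 : η / (2 * B ^ 2) * S = 3 / 2 * B + η / (2 * B ^ 2) := by
      rw [hS]; field_simp
    have b4 : 0 < η / (2 * B ^ 2) := by positivity
    simp only [mul_zero, add_zero] at this
    linarith
  obtain ⟨t, ht, hte⟩ := hex
  have hc : ContinuousOn (fun t => en (u t) (p t)) (Icc 0 t) := fun x hx =>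
    (h.den x ⟨hx.1, hx.2.trans (ht.2.trans hST)⟩).continuousAt.continuousWithinAt
  obtain ⟨t₁, ht₁, he⟩ := intermediate_value_Icc' ht.1 hc ⟨hte, he0⟩
  exact ⟨t₁, ⟨ht₁.1, ht₁.2.trans (ht.2.trans hST)⟩, ht₁.2.trans ht.2, he⟩

end Pool.Agent.Lib.MP_1301ff_gt
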