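import Pool.Agent.Lib.MP_1301ff_gt.Mfd

set_option autoImplicit false

namespace Pool.Agent.Lib.MP_1301ff_gt

open Filter Topology Matrix Set MeasureTheory
open scoped ContDiff Manifold

variable {n : ℕ}

section pull

variable {W : Type} [NormedAddCommGroup W] [NormedSpace ℝ W]

/-- Pull back of a field of bilinear forms. -/
noncomputable def pull (B : W → W →ₗ[ℝ] W →ₗ[ℝ] ℝ) (P : (Fin n → ℝ) → W) : MF n := fun x =>
  Matrix.of fun i j => B (P x) (fderiv ℝ P x (Pi.single i 1)) (fderiv ℝ P x (Pi.single j 1))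

theorem pull_congr {B : W → W →ₗ[ℝ] W →ₗ[ℝ] ℝ} {P Q : (Fin n → ℝ) → W} {x : Fin n → ℝ}
    (h : P =ᶠ[𝓝 x] Q) : pull B P x = pull B Q x := by
  simp only [pull, h.fderiv_eq, h.eq_of_nhds]

theorem pull_comp {B : W → W →ₗ[ℝ] W →ₗ[ℝ] ℝ} {P : (Fin n → ℝ) → W}
    {φ : (Fin n → ℝ) → Fin n → ℝ} {x : Fin n → ℝ} (hP : DifferentiableAt ℝ P (φ x))
    (hφ : DifferentiableAt ℝ φ x) :
    pull B (fun y => P (φ y)) x = (Jac φ x)ᵀ * pull B P (φ x) * Jac φ x := by
  ext i j
  have e : ∀ i, fderiv ℝ (fun y => P (φ y)) x (Pi.single i 1) =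
      ∑ b, Jac φ x b i • fderiv ℝ P (φ x) (Pi.single b 1) := fun i => by
    rw [fderiv_fun_comp x hP hφ, ContinuousLinearMap.comp_apply, fderiv_eq_sum]
    simp only [Jac_apply hφ]
  simp only [pull, of_apply, e, map_sum, map_smul, LinearMap.sum_apply, LinearMap.smul_apply,
    smul_eq_mul, mul_apply, transpose_apply, Finset.sum_mul, Finset.mul_sum]
  exact Finset.sum_congr rfl fun a _ => Finset.sum_congr rfl fun b _ => by ring

theorem pull_compat {X : Mfd n} (B : W → W →ₗ[ℝ] W →ₗ[ℝ] ℝ) {ι : X.M → W}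
    (hι : ∀ p : X.M, Differentiable ℝ fun x => ι ((chartAt (Fin n → ℝ) p).symm x)) (p q : X.M)
    (x : Fin n → ℝ) (h : (chartAt (Fin n → ℝ) p).symm x ∈ (chartAt (Fin n → ℝ) q).source) :
    pull B (fun x => ι ((chartAt (Fin n → ℝ) p).symm x)) x = (Jac (tr p q) x)ᵀ *
      pull B (fun x => ι ((chartAt (Fin n → ℝ) q).symm x)) (tr p q x) * Jac (tr p q) x := by
  rw [← pull_comp (hι q _) ((contDiffAt_tr (X.mem p x) h).differentiableAt (by simp))]
  refine pull_congr ?_
  filter_upwards [((chartAt (Fin n → ℝ) p).continuousAt_symm (X.mem p x)).eventually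
    ((chartAt (Fin n → ℝ) q).open_source.mem_nhds h)] with y hy
  rw [tr, (chartAt (Fin n → ℝ) q).left_inv hy]

end pull

/-- The square of the Euclidean norm. -/
def nsq (x : Fin n → ℝ) : ℝ := ∑ i, x i ^ 2

theorem nsq_nonneg (x : Fin n → ℝ) : 0 ≤ nsq x := Finset.sum_nonneg fun _ _ => sq_nonneg _

theorem one_add_nsq (x : Fin n → ℝ) : 0 < 1 + nsq x := by linarith [nsq_nonneg x]

theorem nsq_div (x : Fin n → ℝ) (a b : ℝ) : nsq (fun i => a * x i / b) = a ^ 2 * nsq x / b ^ 2 := by
  simp only [nsq, Finset.mul_sum, Finset.sum_div, div_pow, mul_pow]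

theorem contDiff_nsq {k : ℕ∞ω} : ContDiff ℝ k (nsq : (Fin n → ℝ) → ℝ) :=
  ContDiff.sum fun i _ => (contDiff_apply ℝ ℝ i).pow 2

theorem nsq_pos {x : Fin n → ℝ} (hx : x ≠ 0) : 0 < nsq x := by
  obtain ⟨i, hi⟩ := Function.ne_iff.1 hx
  exact Finset.sum_pos' (fun _ _ => sq_nonneg _) ⟨i, Finset.mem_univ _, sq_pos_of_ne_zero hi⟩

theorem pd_nsq (i : Fin n) (x : Fin n → ℝ) : pd i nsq x = 2 * x i := by
  unfold nsq
  rw [pd_sum _ fun a _ => by fun_prop]
  simp only [sq, pd_mul (differentiableAt_apply _ _) (differentiableAt_apply _ _), pd_coord]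
  simp [Finset.sum_add_distrib, two_mul]

/-- Inverse stereographic projection. -/
noncomputable def par (s : ℝ) (y : Fin n → ℝ) : ℝ × (Fin n → ℝ) :=
  (s * (1 - nsq y) / (1 + nsq y), fun i => 2 * y i / (1 + nsq y))

/-- Stereographic projection. -/
noncomputable def ste (s : ℝ) (q : ℝ × (Fin n → ℝ)) : Fin n → ℝ := fun i => 1 * q.2 i / (1 + s * q.1)

theorem par_mem {s : ℝ} (hs : s ^ 2 = 1) (y : Fin n → ℝ) :
    (par s y).1 ^ 2 + nsq (par s y).2 = 1 := by
  have := (one_add_nsq y).ne'
  simp only [par, nsq_div]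
  field_simp
  linear_combination (1 - nsq y) ^ 2 * hs

theorem par_den {s : ℝ} (hs : s ^ 2 = 1) (y : Fin n → ℝ) :
    1 + s * (par s y).1 = 2 / (1 + nsq y) := by
  have := (one_add_nsq y).ne'
  simp only [par]
  field_simp
  linear_combination (1 - nsq y) * hs

theorem ste_par {s : ℝ} (hs : s ^ 2 = 1) (y : Fin n → ℝ) : ste s (par s y) = y := by
  have := (one_add_nsq y).ne'
  funext i
  rw [ste, par_den hs]
  simp only [par]
  field_simp

theorem par_ste {s : ℝ} (hs : s ^ 2 = 1) {q : ℝ × (Fin n → ℝ)} (hq : q.1 ^ 2 + nsq q.2 = 1)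
    (h : 1 + s * q.1 ≠ 0) : par s (ste s q) = q := by
  have e : nsq (ste s q) = (1 - s * q.1) / (1 + s * q.1) := by
    unfold ste
    rw [nsq_div]
    field_simp
    linear_combination hq + q.1 ^ 2 * hs
  have e2 : 1 + nsq (ste s q) = 2 / (1 + s * q.1) := by
    rw [e]
    field_simp
    ring
  ext
  · simp only [par]
    rw [e2, e]
    field_simp
    linear_combination 2 * q.1 * hs
  · simp only [par]
    rw [e2, ste]
    field_simp

theorem contDiff_par {k : ℕ∞ω} (s : ℝ) : ContDiff ℝ k (par s : (Fin n → ℝ) → _) :=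
  ((contDiff_const.mul (contDiff_const.sub contDiff_nsq)).div (contDiff_const.add contDiff_nsq)
    fun y => (one_add_nsq y).ne').prodMk (contDiff_pi.2 fun i =>
      (contDiff_const.mul (contDiff_apply ℝ ℝ i)).div (contDiff_const.add contDiff_nsq)
        fun y => (one_add_nsq y).ne')

theorem contDiffAt_ste {k : ℕ∞ω} {s : ℝ} {q : ℝ × (Fin n → ℝ)} (h : 1 + s * q.1 ≠ 0) :
    ContDiffAt ℝ k (ste s) q :=
  contDiffAt_pi.2 fun i => ContDiffAt.div (by fun_prop) (by fun_prop) h

/-- The unit sphere. -/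
def Sph (n : ℕ) : Type := {q : ℝ × (Fin n → ℝ) // q.1 ^ 2 + nsq q.2 = 1}

instance : TopologicalSpace (Sph n) := instTopologicalSpaceSubtype

noncomputable def sphChart (s : ℝ) (hs : s ^ 2 = 1) : OpenPartialHomeomorph (Sph n) (Fin n → ℝ) where
  toFun q := ste s q.1
  invFun y := ⟨par s y, par_mem hs y⟩
  source := {q | 1 + s * q.1.1 ≠ 0}
  target := univ
  map_source' _ _ := mem_univ _
  map_target' y _ := by
    change 1 + s * (par s y).1 ≠ 0
    rw [par_den hs]
    exact (div_pos two_pos (one_add_nsq y)).ne'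
  left_inv' q hq := Subtype.ext (par_ste hs q.2 hq)
  right_inv' y _ := ste_par hs y
  open_source := isOpen_ne_fun (continuous_const.add (continuous_const.mul
    continuous_subtype_val.fst)) continuous_const
  open_target := isOpen_univ
  continuousOn_toFun q hq := ((contDiffAt_ste (k := 0) hq).continuousAt.comp
    continuous_subtype_val.continuousAt).continuousWithinAt
  continuousOn_invFun := ((contDiff_par (k := 0) s).continuous.subtype_mk _).continuousOn

noncomputable def sg (p : Sph n) : ℝ := if 0 ≤ p.1.1 then 1 else -1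

theorem sg_cases (p : Sph n) : sg p = 1 ∨ sg p = -1 := by
  unfold sg
  split_ifs <;> simp

theorem sg_sq (p : Sph n) : sg p ^ 2 = 1 := by
  rcases sg_cases p with h | h <;> simp [h]

noncomputable instance : ChartedSpace (Fin n → ℝ) (Sph n) where
  atlas := range fun p : Sph n => sphChart (sg p) (sg_sq p)
  chartAt p := sphChart (sg p) (sg_sq p)
  mem_chart_source p := by
    change 1 + sg p * p.1.1 ≠ 0
    unfold sg
    split_ifs with h <;> linarith
  chart_mem_atlas p := ⟨p, rfl⟩

instance : IsManifold 𝓘(ℝ, Fin n → ℝ) ∞ (Sph n) := by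
  refine isManifold_of_contDiffOn _ _ _ ?_
  rintro _ _ ⟨p, rfl⟩ ⟨q, rfl⟩ z ⟨⟨-, h⟩, -⟩
  exact ((contDiffAt_ste h).comp z (contDiff_par _).contDiffAt).contDiffWithinAt

instance : CompactSpace (Sph n) := by
  refine isCompact_iff_compactSpace.1 (Metric.isCompact_of_isClosed_isBounded
    (s := {q : ℝ × (Fin n → ℝ) | q.1 ^ 2 + nsq q.2 = 1}) (isClosed_eq ((continuous_fst.pow 2).add
      ((contDiff_nsq (k := 0)).continuous.comp continuous_snd)) continuous_const) ?_)
  refine isBounded_iff_forall_norm_le.2 ⟨1, fun q hq => ?_⟩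
  have hq : q.1 ^ 2 + nsq q.2 = 1 := hq
  have h0 := nsq_nonneg q.2
  refine norm_prod_le_iff.2 ⟨abs_le_one_iff_mul_self_le_one.2 (by nlinarith),
    (pi_norm_le_iff_of_nonneg zero_le_one).2 fun i => abs_le_one_iff_mul_self_le_one.2 ?_⟩
  have : q.2 i ^ 2 ≤ nsq q.2 :=
    Finset.single_le_sum (f := fun i => q.2 i ^ 2) (fun _ _ => sq_nonneg _) (Finset.mem_univ i)
  nlinarith

theorem sph_mem {s : ℝ} (hs : s = 1 ∨ s = -1) {x : Fin n → ℝ} (hx : x ≠ 0) :
    1 + 1 * (par s x).1 ≠ 0 := by
  have h1 := one_add_nsq x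
  have h2 := nsq_pos hx
  rcases hs with rfl | rfl
  · rw [par_den (by norm_num)]
    positivity
  · have : 1 + 1 * (par (-1) x).1 = 2 * nsq x / (1 + nsq x) := by
      simp only [par]
      field_simp
      ring
    rw [this]
    positivity

theorem sph_connected : ConnectedSpace (Sph (n + 1)) := by
  have h : ∀ s (hs : s ^ 2 = 1), IsConnected (sphChart (n := n + 1) s hs).source := fun s hs => by
    rw [← (sphChart s hs).symm_image_target_eq_source]
    exact isConnected_univ.image _ (sphChart s hs).continuousOn_symm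
  rw [connectedSpace_iff_univ]
  have := (h 1 (by norm_num)).union ⟨(sphChart (-1) (by norm_num)).symm 1,
    sph_mem (Or.inr rfl) one_ne_zero, (sphChart (-1) (by norm_num)).map_target (mem_univ _)⟩
    (h (-1) (by norm_num))
  refine (eq_univ_of_forall fun q => ?_ : _ = univ) ▸ this
  by_contra hq
  simp only [mem_union, sphChart, mem_ofPred_eq, not_or, not_not] at hq
  linarith [hq.1, hq.2]

def north : Sph n := ⟨(1, 0), by simp [nsq]⟩

theorem sg_north : sg (north : Sph n) = 1 := if_pos zero_le_one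

noncomputable def sph (n : ℕ) : Mfd (n + 1) where
  M := Sph (n + 1)
  t2 := inferInstanceAs (T2Space (Subtype _))
  con := sph_connected
  tgt _ := rfl
  o := north
  ae p := by
    filter_upwards [Measure.ae_ne volume 0] with x hx
    change 1 + sg north * (par (sg p) x).1 ≠ 0
    rw [sg_north]
    exact sph_mem (sg_cases p) hx

/-- The conformal factor of stereographic projection. -/
noncomputable def sig (x : Fin n → ℝ) : ℝ := 2 / (1 + nsq x)

theorem sig_pos (x : Fin n → ℝ) : 0 < sig x := div_pos two_pos (one_add_nsq x)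

theorem contDiff_sig {k : ℕ∞ω} : ContDiff ℝ k (sig : (Fin n → ℝ) → ℝ) :=
  contDiff_const.div (contDiff_const.add contDiff_nsq) fun y => (one_add_nsq y).ne'

/-- The Euclidean inner product of the ambient space. -/
def amb (n : ℕ) : (ℝ × (Fin n → ℝ)) →ₗ[ℝ] (ℝ × (Fin n → ℝ)) →ₗ[ℝ] ℝ :=
  LinearMap.mk₂ ℝ (fun v w => v.1 * w.1 + v.2 ⬝ᵥ w.2) (fun _ _ _ => by simp; ring)
    (fun _ _ _ => by simp; ring) (fun _ _ _ => by simp; ring) (fun _ _ _ => by simp; ring)

theorem sig_mul (x : Fin n → ℝ) : sig x * (1 + nsq x) = 2 :=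
  div_mul_cancel₀ _ (one_add_nsq x).ne'

theorem pd_sig (i : Fin n) (x : Fin n → ℝ) : pd i sig x = -sig x ^ 2 * x i := by
  have h0 := (one_add_nsq x).ne'
  have h2 : HasDerivAt (fun t : ℝ => 2 / (1 + t)) (-2 / (1 + nsq x) ^ 2) (nsq x) :=
    ((hasDerivAt_const _ (2 : ℝ)).div ((hasDerivAt_id (nsq x)).const_add 1) h0).congr_deriv
      (by simp only [id]; congr 1; ring)
  refine (pd_scomp h2 ((contDiff_nsq (k := 1)).differentiable_one x)).trans ?_
  rw [pd_nsq, sig]
  field_simp

theorem fderiv_par (s : ℝ) (x : Fin n → ℝ) (i : Fin n) : fderiv ℝ (par s) x (Pi.single i 1) =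
    (-s * sig x ^ 2 * x i, fun a => sig x * (if a = i then 1 else 0) - sig x ^ 2 * x i * x a) := by
  have hd := (contDiff_par (n := n) (k := 1) s).differentiable_one x
  have hs := (contDiff_sig (n := n) (k := 1)).differentiable_one x
  ext a
  · have e : (fun y : Fin n → ℝ => (par s y).1) = fun y => s * (sig y - 1) := funext fun y => by
      have := (one_add_nsq y).ne'
      simp only [par, sig]
      field_simp
      ring
    refine (DFunLike.congr_fun (fderiv.fst hd) (Pi.single i 1)).symm.trans ?_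
    change pd i _ x = _
    rw [e, pd_mul (by fun_prop) (by fun_prop), pd_sub hs (by fun_prop), pd_sig, pd_const, pd_const]
    ring
  · have e : (fun y : Fin n → ℝ => (par s y).2 a) = fun y => sig y * y a := funext fun y => by
      simp only [par, sig]
      ring
    refine (congrFun (DFunLike.congr_fun (fderiv.snd hd) (Pi.single i 1)) a).symm.trans ?_
    rw [← Jac_apply hd.snd, Jac, of_apply, e, pd_mul hs (by fun_prop), pd_sig, pd_coord]
    ring

theorem pull_amb {s : ℝ} (hs : s ^ 2 = 1) (x : Fin n → ℝ) :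
    pull (fun _ => amb n) (par s) x = sig x ^ 2 • (1 : Matrix (Fin n) (Fin n) ℝ) := by
  ext i j
  have e : ∀ a, (sig x * (if a = i then 1 else 0) - sig x ^ 2 * x i * x a) *
      (sig x * (if a = j then 1 else 0) - sig x ^ 2 * x j * x a) =
      (if a = i then sig x ^ 2 * (if a = j then 1 else 0) - sig x ^ 3 * x j * x a else 0) -
      (if a = j then sig x ^ 3 * x i * x a else 0) + sig x ^ 4 * x i * x j * x a ^ 2 := fun a => by
    split_ifs <;> ring
  simp only [pull, of_apply, fderiv_par, amb, LinearMap.mk₂_apply, dotProduct, e,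
    Finset.sum_add_distrib, Finset.sum_sub_distrib, Finset.sum_ite_eq', Finset.mem_univ, if_true,
    ← Finset.mul_sum, Matrix.smul_apply, one_apply, smul_eq_mul]
  change _ + (_ + _ * nsq x) = _
  linear_combination sig x ^ 4 * x i * x j * hs + sig x ^ 3 * x i * x j * sig_mul x

/-- The round metric. -/
theorem round_data (n : ℕ) :
    MData (M := (sph n).M) fun _ x => sig x ^ 2 • (1 : Matrix (Fin (n + 1)) (Fin (n + 1)) ℝ) where
  sm _ _ _ _ := (contDiff_sig.pow 2).contDiffAt.mul contDiffAt_const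
  pos _ x := PosDef.one.smul (pow_pos (sig_pos x) 2)
  compat p q x h := by
    have := pull_compat (X := sph n) (fun _ => amb (n + 1)) (ι := Subtype.val)
      (fun p => (contDiff_par (k := 1) (sg p)).differentiable_one) p q x h
    rwa [← pull_amb (sg_sq p), ← pull_amb (sg_sq q)]

end Pool.Agent.Lib.MP_1301ff_gt
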