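import Pool.Agent.Lib.MP_1301ff_gt.Jet
import Pool.Agent.Lib.MP_1301ff_gt.Sphere

set_option autoImplicit false

namespace Pool.Agent.Lib.MP_1301ff_gt

open Filter Topology Matrix Real Quaternion
open scoped ContDiff

abbrev Qt : Type := Quaternion ℝ

def qI : Qt := ⟨0, 1, 0, 0⟩
def qJ : Qt := ⟨0, 0, 1, 0⟩
def qK : Qt := ⟨0, 0, 0, 1⟩

/-- The Euclidean inner product of quaternions. -/
noncomputable def ipL : Qt →ₗ[ℝ] Qt →ₗ[ℝ] ℝ :=
  LinearMap.mk₂ ℝ (fun u v => (u * star v).re) (fun _ _ _ => by simp; ring)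
    (fun _ _ _ => by simp) (fun _ _ _ => by simp; ring) (fun _ _ _ => by simp)

theorem ipL_apply (u v : Qt) : ipL u v = (u * star v).re := rfl

noncomputable def reL : Qt →ₗ[ℝ] ℝ := ipL 1

theorem reL_apply (u : Qt) : reL u = u.re := by simp [reL, ipL_apply]

noncomputable def mc (w : Qt × Qt) : Qt × Qt →ₗ[ℝ] Qt := LinearMap.mulLeft ℝ (star w.1) ∘ₗ LinearMap.fst ℝ Qt Qt

noncomputable def lT (w : Qt × Qt) : Qt × Qt →ₗ[ℝ] Qt :=
  LinearMap.snd ℝ Qt Qt + (LinearMap.mulRight ℝ w.2 - LinearMap.mulLeft ℝ w.2) ∘ₗ mc w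

noncomputable def eT (w : Qt × Qt) : Qt × Qt →ₗ[ℝ] ℝ := reL ∘ₗ LinearMap.mulRight ℝ w.2 ∘ₗ mc w

/-- The ambient form restricting to the homogeneous Einstein metric `T^{1,1}`. -/
noncomputable def BT (w : Qt × Qt) : Qt × Qt →ₗ[ℝ] Qt × Qt →ₗ[ℝ] ℝ :=
  (1 / 6 : ℝ) • ipL.compl₁₂ (LinearMap.snd ℝ Qt Qt) (LinearMap.snd ℝ Qt Qt) +
    (1 / 6 : ℝ) • ipL.compl₁₂ (lT w) (lT w) +
    (4 / 9 : ℝ) • (LinearMap.mul ℝ ℝ).compl₁₂ (eT w) (eT w)

/-- The Euclidean ambient form. -/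
noncomputable def BR (_ : Qt × Qt) : Qt × Qt →ₗ[ℝ] Qt × Qt →ₗ[ℝ] ℝ :=
  ipL.compl₁₂ (LinearMap.fst ℝ Qt Qt) (LinearMap.fst ℝ Qt Qt) +
    ipL.compl₁₂ (LinearMap.snd ℝ Qt Qt) (LinearMap.snd ℝ Qt Qt)

theorem BT_apply (w u v : Qt × Qt) : BT w u v = 1 / 6 * (u.2 * star v.2).re +
    1 / 6 * ((u.2 + (star w.1 * u.1 * w.2 - w.2 * (star w.1 * u.1))) *
      star (v.2 + (star w.1 * v.1 * w.2 - w.2 * (star w.1 * v.1)))).re +
    4 / 9 * ((star w.1 * u.1 * w.2).re * (star w.1 * v.1 * w.2).re) := by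
  rw [← reL_apply (star w.1 * u.1 * w.2), ← reL_apply (star w.1 * v.1 * w.2)]
  rfl

theorem BR_apply (w u v : Qt × Qt) : BR w u v = (u.1 * star v.1).re + (u.2 * star v.2).re := rfl

theorem unit_l {p : Qt} (hp : normSq p = 1) (x : Qt) : star p * (p * x) = x := by
  rw [← mul_assoc, star_mul_self, hp, coe_one, one_mul]

theorem unit_r {p : Qt} (hp : normSq p = 1) (x : Qt) : p * (star p * x) = x := by
  rw [← mul_assoc, self_mul_star, hp, coe_one, one_mul]

theorem re_conj {p : Qt} (hp : normSq p = 1) (x : Qt) : (p * (x * star p)).re = x.re := by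
  rw [normSq_def'] at hp
  simp
  linear_combination x.re * hp

theorem ip_conj {p q : Qt} (hp : normSq p = 1) (hq : normSq q = 1) (u v : Qt) :
    (p * (u * star q) * star (p * (v * star q))).re = (u * star v).re := by
  rw [← re_conj hp (u * star v)]
  simp only [star_mul, star_star, mul_assoc, unit_l hq]

theorem ip_comm (u v : Qt) : ((u * qI - qI * u) * star (v * qI - qI * v)).re =
    4 * (u.imJ * v.imJ + u.imK * v.imK) := by
  simp [qI]
  ring

theorem BT_frame {p q : Qt} (hp : normSq p = 1) (hq : normSq q = 1) (a b a' b' : Qt) :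
    BT (p * star q, q * (qI * star q)) (p * ((a - b) * star q), q * ((b * qI - qI * b) * star q))
      (p * ((a' - b') * star q), q * ((b' * qI - qI * b') * star q)) =
      2 / 3 * (b.imJ * b'.imJ + b.imK * b'.imK) + 2 / 3 * (a.imJ * a'.imJ + a.imK * a'.imK) +
        4 / 9 * ((a.imI - b.imI) * (a'.imI - b'.imI)) := by
  have e1 : ∀ u : Qt, star (p * star q) * (p * (u * star q)) * (q * (qI * star q)) =
      q * (u * qI * star q) := fun u => by
    simp only [star_mul, star_star, mul_assoc, unit_l hq, unit_l hp]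
  have e2 : ∀ a b : Qt, q * ((b * qI - qI * b) * star q) + (q * ((a - b) * qI * star q) -
      q * (qI * star q) * (star (p * star q) * (p * ((a - b) * star q)))) =
      q * ((a * qI - qI * a) * star q) := fun a b => by
    simp only [star_mul, star_star, mul_assoc, unit_l hq, unit_l hp]
    noncomm_ring
  rw [BT_apply]
  simp only [e1, e2, ip_conj hq hq, re_conj hq, ip_comm]
  simp [qI]
  ring

theorem BR_frame {p q : Qt} (hp : normSq p = 1) (hq : normSq q = 1) (w : Qt × Qt)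
    (a b a' b' : Qt) :
    BR w (p * ((a - b) * star q), q * ((b * qI - qI * b) * star q))
      (p * ((a' - b') * star q), q * ((b' * qI - qI * b') * star q)) =
      ((a - b) * star (a' - b')).re + 4 * (b.imJ * b'.imJ + b.imK * b'.imK) := by
  rw [BR_apply]
  simp only [ip_conj hp hq, ip_conj hq hq, ip_comm]

variable {n : ℕ}

/-- `ω` is the left logarithmic derivative of `Q`. -/
structure Fr (Q : (Fin n → ℝ) → Qt) (z : Fin n → ℝ) (w : Fin n → Qt) : Prop where
  diff : DifferentiableAt ℝ Q z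
  der : ∀ i, fderiv ℝ Q z (Pi.single i 1) = Q z * w i

theorem Fr.mul {Q Q' : (Fin n → ℝ) → Qt} {z : Fin n → ℝ} {w w' : Fin n → Qt} (h : Fr Q z w)
    (h' : Fr Q' z w') (hu : normSq (Q' z) = 1) :
    Fr (fun z => Q z * Q' z) z fun i => star (Q' z) * (w i * Q' z) + w' i := by
  refine ⟨h.diff.fun_mul h'.diff, fun i => ?_⟩
  rw [fderiv_fun_mul' h.diff h'.diff]
  simp [h.der, h'.der, mul_add, mul_assoc, unit_r hu, add_comm]

theorem Fr.const_mul {Q : (Fin n → ℝ) → Qt} {z : Fin n → ℝ} {w : Fin n → Qt} (h : Fr Q z w)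
    (q : Qt) : Fr (fun z => q * Q z) z w := by
  refine ⟨h.diff.const_mul q, fun i => ?_⟩
  rw [fderiv_const_mul h.diff]
  simp [h.der, mul_assoc]

noncomputable def ex (u : Qt) (t : ℝ) : Qt := cos t • 1 + sin t • u

theorem contDiff_ex (u : Qt) : ContDiff ℝ ∞ (ex u) :=
  (contDiff_cos.smul contDiff_const).add (contDiff_sin.smul contDiff_const)

theorem Fr.ex {u : Qt} (hu : u * u = -1) (a : Fin n) (z : Fin n → ℝ) :
    Fr (fun z => ex u (z a)) z fun i => (if a = i then 1 else 0 : ℝ) • u := by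
  have h : HasDerivAt (Pool.Agent.Lib.MP_1301ff_gt.ex u)
      (Pool.Agent.Lib.MP_1301ff_gt.ex u (z a) * u) (z a) := by
    refine (((hasDerivAt_cos _).smul_const 1).add ((hasDerivAt_sin _).smul_const u)).congr_deriv ?_
    simp [Pool.Agent.Lib.MP_1301ff_gt.ex, add_mul, hu, add_comm]
  have h2 := h.hasFDerivAt.comp z (hasFDerivAt_apply (𝕜 := ℝ) a z)
  refine ⟨h2.differentiableAt, fun i => (DFunLike.congr_fun h2.fderiv _).trans ?_⟩
  simp [Pi.single_apply]

theorem normSq_ex {u : Qt} (h0 : u.re = 0) (h1 : normSq u = 1) (t : ℝ) : normSq (ex u t) = 1 := by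
  rw [normSq_def'] at *
  simp [ex, h0] at *
  linear_combination sin t ^ 2 * h1 + sin_sq_add_cos_sq t

theorem nI (t : ℝ) : normSq (ex qI t) = 1 := normSq_ex rfl (by simp [qI, normSq_def']) t
theorem nJ (t : ℝ) : normSq (ex qJ t) = 1 := normSq_ex rfl (by simp [qJ, normSq_def']) t
theorem nK (t : ℝ) : normSq (ex qK t) = 1 := normSq_ex rfl (by simp [qK, normSq_def']) t

noncomputable def stL : Qt →L[ℝ] Qt :=
  LinearMap.toContinuousLinearMap ⟨⟨star, star_add⟩, fun _ _ => by ext <;> simp⟩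

theorem stL_apply (u : Qt) : stL u = star u := rfl

theorem contDiff_qstar : ContDiff ℝ ∞ (star : Qt → Qt) := stL.contDiff

theorem fderiv_frame {P Q : (Fin n → ℝ) → Qt} {z : Fin n → ℝ} {a b : Fin n → Qt} (hP : Fr P z a)
    (hQ : Fr Q z b) (hb : ∀ i, (b i).re = 0) (i : Fin n) :
    fderiv ℝ (fun z => (P z * star (Q z), Q z * (qI * star (Q z)))) z (Pi.single i 1) =
      (P z * ((a i - b i) * star (Q z)), Q z * ((b i * qI - qI * b i) * star (Q z))) := by
  have h1 := stL.hasFDerivAt.comp z hQ.diff.hasFDerivAt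
  have h2 := (hP.diff.hasFDerivAt.mul' h1).prodMk (hQ.diff.hasFDerivAt.mul' (h1.const_mul qI))
  refine (DFunLike.congr_fun h2.fderiv _).trans ?_
  have e : star (b i) = -b i := by ext <;> simp [hb]
  simp [hP.der, hQ.der, e, stL_apply]
  constructor <;> noncomm_ring

noncomputable def Q1 (q : Qt) (z : Fin 5 → ℝ) : Qt := q * (ex qJ (z 1) * ex qK (z 0) * ex qI (z 4))

noncomputable def Q2 (q : Qt) (z : Fin 5 → ℝ) : Qt := q * (ex qJ (z 3) * ex qK (z 2))

/-- Euler type parametrization of `S³ × S²`. -/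
noncomputable def PE (p q : Qt) (z : Fin 5 → ℝ) : Qt × Qt :=
  (Q1 p z * star (Q2 q z), Q2 q z * (qI * star (Q2 q z)))

noncomputable def wE (t a b : ℝ) : Qt := ⟨0, a * sin (2 * t), a * cos (2 * t), b⟩

theorem Fr_JK (a b : Fin n) (z : Fin n → ℝ) : Fr (fun z => ex qJ (z a) * ex qK (z b)) z
    fun i => wE (z b) (if a = i then 1 else 0) (if b = i then 1 else 0) := by
  have := (Fr.ex (u := qJ) (by ext <;> simp [qJ]) a z).mul
    (Fr.ex (u := qK) (by ext <;> simp [qK]) b z) (nK _)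
  refine cast (congrArg _ (funext fun i => ?_)) this
  generalize (if a = i then 1 else 0 : ℝ) = c
  generalize (if b = i then 1 else 0 : ℝ) = d
  ext <;> simp [ex, qJ, qK, wE, sin_two_mul, cos_two_mul'] <;>
    first | ring1 | exact Or.inl (by ring1)

theorem nQ1 {p : Qt} (hp : normSq p = 1) (z : Fin 5 → ℝ) : normSq (Q1 p z) = 1 := by
  simp [Q1, hp, nI, nJ, nK]

theorem nQ2 {p : Qt} (hp : normSq p = 1) (z : Fin 5 → ℝ) : normSq (Q2 p z) = 1 := by
  simp [Q2, hp, nJ, nK]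

noncomputable def w1 (z : Fin 5 → ℝ) (i : Fin 5) : Qt :=
  star (ex qI (z 4)) * (wE (z 0) (if 1 = i then 1 else 0) (if 0 = i then 1 else 0) * ex qI (z 4)) +
    (if 4 = i then 1 else 0 : ℝ) • qI

noncomputable def w2 (z : Fin 5 → ℝ) (i : Fin 5) : Qt :=
  wE (z 2) (if 3 = i then 1 else 0) (if 2 = i then 1 else 0)

theorem fderiv_PE (p q : Qt) (z : Fin 5 → ℝ) (i : Fin 5) : fderiv ℝ (PE p q) z (Pi.single i 1) =
    (Q1 p z * ((w1 z i - w2 z i) * star (Q2 q z)),
      Q2 q z * ((w2 z i * qI - qI * w2 z i) * star (Q2 q z))) :=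
  fderiv_frame (((Fr_JK 1 0 z).mul (Fr.ex (u := qI) (by ext <;> simp [qI]) 4 z) (nI _)).const_mul p)
    ((Fr_JK 3 2 z).const_mul q) (fun _ => rfl) i

theorem rot_I (t c : ℝ) (x : Qt) : (star (ex qI t) * (x * ex qI t) + c • qI).imI = x.imI + c := by
  simp [ex, qI]
  linear_combination x.imI * sin_sq_add_cos_sq t

theorem rot_JK (t c d : ℝ) (x y : Qt) :
    (star (ex qI t) * (x * ex qI t) + c • qI).imJ * (star (ex qI t) * (y * ex qI t) + d • qI).imJ +
    (star (ex qI t) * (x * ex qI t) + c • qI).imK * (star (ex qI t) * (y * ex qI t) + d • qI).imK =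
      x.imJ * y.imJ + x.imK * y.imK := by
  simp [ex, qI]
  linear_combination (x.imJ * y.imJ + x.imK * y.imK) * (sin t ^ 2 + cos t ^ 2 + 1) *
    sin_sq_add_cos_sq t

theorem pull_BT_PE {p q : Qt} (hp : normSq p = 1) (hq : normSq q = 1) :
    pull BT (PE p q) = GE := by
  funext z
  ext i j
  have hc : ∀ t, cos t * cos t = 1 - sin t * sin t := fun t => by
    linear_combination sin_sq_add_cos_sq t
  rw [pull, of_apply, fderiv_PE, fderiv_PE, PE, BT_frame (nQ1 hp z) (nQ2 hq z)]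
  simp only [w1, rot_I, rot_JK]
  fin_cases i <;> fin_cases j <;>
    simp [w2, wE, GE, fE, cE, sE, Fin.sum_univ_six, hc] <;> ring

theorem pull_BR_PE {p q : Qt} (hp : normSq p = 1) (hq : normSq q = 1) :
    (pull BR (PE p q) 0).det = 16 := by
  have : pull BR (PE p q) 0 = Matrix.map
      !![(1 : ℤ), 0, -1, 0, 0; 0, 1, 0, -1, 0; -1, 0, 5, 0, 0; 0, -1, 0, 5, 0; 0, 0, 0, 0, 1]
      (Int.castRingHom ℝ) := by
    ext i j
    rw [pull, of_apply, fderiv_PE, fderiv_PE, BR_frame (nQ1 hp 0) (nQ2 hq 0)]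
    fin_cases i <;> fin_cases j <;> simp [w1, w2, wE, ex, qI] <;> norm_num
  rw [this, ← RingHom.mapMatrix_apply, ← RingHom.map_det]
  rw [show Matrix.det _ = (16 : ℤ) by decide +kernel]
  simp

theorem contDiff_PE (p q : Qt) : ContDiff ℝ ∞ (PE p q) := by
  have h : ∀ u (a : Fin 5), ContDiff ℝ ∞ fun z : Fin 5 → ℝ => ex u (z a) := fun u a =>
    (contDiff_ex u).comp (contDiff_apply ℝ ℝ a)
  have h1 : ContDiff ℝ ∞ (Q1 p) := contDiff_const.mul (((h _ _).mul (h _ _)).mul (h _ _))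
  have h2 : ContDiff ℝ ∞ (Q2 q) := contDiff_const.mul ((h _ _).mul (h _ _))
  exact (h1.mul (contDiff_qstar.comp h2)).prodMk
    (h2.mul (contDiff_const.mul (contDiff_qstar.comp h2)))

theorem PE_zero (p q : Qt) : PE p q 0 = (p * star q, q * (qI * star q)) := by
  simp [PE, Q1, Q2, ex]

theorem PE_mem {p q : Qt} (hp : normSq p = 1) (hq : normSq q = 1) (z : Fin 5 → ℝ) :
    normSq (PE p q z).1 = 1 ∧ normSq (PE p q z).2 = 1 ∧ (PE p q z).2.re = 0 := by
  refine ⟨by simp [PE, nQ1 hp, nQ2 hq], ?_, re_conj (nQ2 hq z) qI⟩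
  simp only [PE, map_mul, normSq_star, nQ2 hq]
  simp [qI, normSq_def']

theorem exists_rot {u : Qt} (h0 : u.re = 0) (h1 : normSq u = 1) :
    ∃ q : Qt, normSq q = 1 ∧ q * (qI * star q) = u := by
  rw [normSq_def', h0] at h1
  by_cases h : u.imI = -1
  · have h2 : u.imJ = 0 := by rw [h] at h1; nlinarith
    have h3 : u.imK = 0 := by rw [h] at h1; nlinarith
    exact ⟨qJ, by simp [qJ, normSq_def'], by ext <;> simp [qI, qJ, *]⟩
  have hN : 0 < 2 + 2 * u.imI := by
    have : -1 ≤ u.imI := by nlinarith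
    have := this.lt_of_ne (Ne.symm h)
    linarith
  have hc : (√(2 + 2 * u.imI))⁻¹ ^ 2 * (2 + 2 * u.imI) = 1 := by
    rw [inv_pow, sq_sqrt hN.le, inv_mul_cancel₀ hN.ne']
  generalize (√(2 + 2 * u.imI))⁻¹ = c at hc
  refine ⟨c • (u + qI), ?_, ?_⟩
  · simp [qI, normSq_def', h0]
    linear_combination hc + c ^ 2 * h1
  · ext <;> simp [qI, h0]
    · ring
    · linear_combination u.imI * hc - c ^ 2 * h1
    · linear_combination u.imJ * hc
    · linear_combination u.imK * hc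

end Pool.Agent.Lib.MP_1301ff_gt
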