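import Pool.Agent.Lib.MP_1301ff_gt.Warp
import Pool.Agent.Lib.MP_1301ff_gt.Bohm

set_option autoImplicit false

namespace Pool.Agent.Lib.MP_1301ff_gt

open Filter Topology Set Real MeasureTheory
open scoped ContDiff

theorem eq_of_pos {f g : ℝ → ℝ} (hf : ContinuousAt f 0) (hg : ContinuousAt g 0)
    (h : ∀ τ, 0 < τ → f τ = g τ) : ∀ τ, 0 ≤ τ → f τ = g τ := by
  intro τ hτ
  rcases hτ.eq_or_lt with rfl | hτ
  · exact tendsto_nhds_unique_of_eventuallyEq (l := 𝓝[>] 0) (hf.tendsto.mono_left nhdsWithin_le_nhds)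
      (hg.tendsto.mono_left nhdsWithin_le_nhds) (eventually_nhdsWithin_of_forall h)
  · exact h τ hτ

theorem Profile.smooth {F K X Y : ℝ → ℝ} (h : Profile F K X Y) :
    ContDiff ℝ ∞ F ∧ ContDiff ℝ ∞ K := by
  have := contDiff_of_ode (z := fun t => ((F t, K t, X t, Y t) : R4))
    (V := fun z : R4 => (z.2.2.1, z.2.2.2, 1 - z.2.2.1 ^ 2 - 2 * z.2.2.1 * z.2.2.2 - 4 * exp (2 * z.1),
      -(z.2.2.1 * z.2.2.2) - 2 * z.2.2.2 ^ 2 + exp (2 * z.1 - 2 * z.2.1) - 4 * exp (2 * z.1)))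
    (by fun_prop) fun t => (h.fk t).dF.prodMk ((h.fk t).dK.prodMk ((h.fk t).dX.prodMk (h.fk t).dY))
  exact ⟨this.fst, this.snd.fst⟩

theorem Profile.radial {F K X Y : ℝ → ℝ} (h : Profile F K X Y) : ∃ α β, Radial α β ∧
    ∀ t, F t = t + α (exp (2 * t)) ∧ K t = β (exp (2 * t)) := by
  obtain ⟨δ, hδ, α₀, β₀, hsm, hn⟩ := h.near
  obtain ⟨sF, sK⟩ := h.smooth
  set α : ℝ → ℝ := fun τ => if τ ≤ 0 then α₀ τ else F (log τ / 2) - log τ / 2 with hα
  set β : ℝ → ℝ := fun τ => if τ ≤ 0 then β₀ τ else K (log τ / 2) with hβ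
  have a1 : ∀ τ, 0 < τ → α τ = F (log τ / 2) - log τ / 2 := fun τ hτ => if_neg (not_le.2 hτ)
  have b1 : ∀ τ, 0 < τ → β τ = K (log τ / 2) := fun τ hτ => if_neg (not_le.2 hτ)
  have a2 : ∀ τ, 0 < τ → α =ᶠ[𝓝 τ] fun τ => F (log τ / 2) - log τ / 2 := fun τ hτ =>
    (eventually_gt_nhds hτ).mono a1
  have b2 : ∀ τ, 0 < τ → β =ᶠ[𝓝 τ] fun τ => K (log τ / 2) := fun τ hτ =>
    (eventually_gt_nhds hτ).mono b1
  have el : ∀ τ, 0 < τ → exp (2 * (log τ / 2)) = τ := fun τ hτ => by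
    rw [mul_div_cancel₀ _ two_ne_zero, exp_log hτ]
  have n0 : ∀ᶠ τ in 𝓝 (0 : ℝ), α τ = α₀ τ ∧ β τ = β₀ τ := by
    filter_upwards [Iio_mem_nhds hδ] with τ hτ
    rcases le_or_gt τ 0 with h0 | h0
    · exact ⟨if_pos h0, if_pos h0⟩
    · have := hn (log τ / 2) (by rwa [el τ h0])
      rw [el τ h0] at this
      rw [a1 τ h0, b1 τ h0, this.1, this.2]
      exact ⟨by ring, rfl⟩
  have sl : ∀ τ, 0 < τ → ContDiffAt ℝ ∞ (fun τ => log τ / 2) τ := fun τ hτ =>
    (contDiffAt_log.2 hτ.ne').div_const 2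
  have sa : SmH α := fun τ hτ => by
    rcases hτ.eq_or_lt with rfl | hτ
    · exact (hsm 0 ⟨by linarith, hδ⟩).1.congr_of_eventuallyEq (n0.mono fun _ h => h.1)
    · exact ((sF.contDiffAt.comp τ (sl τ hτ)).sub (sl τ hτ)).congr_of_eventuallyEq (a2 τ hτ)
  have sb : SmH β := fun τ hτ => by
    rcases hτ.eq_or_lt with rfl | hτ
    · exact (hsm 0 ⟨by linarith, hδ⟩).2.congr_of_eventuallyEq (n0.mono fun _ h => h.2)
    · exact (sK.contDiffAt.comp τ (sl τ hτ)).congr_of_eventuallyEq (b2 τ hτ)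
  have dl : ∀ τ, 0 < τ → HasDerivAt (fun τ => log τ / 2) (τ⁻¹ / 2) τ := fun τ hτ =>
    (hasDerivAt_log hτ.ne').div_const 2
  have a3 : ∀ τ, 0 < τ → deriv α τ = (X (log τ / 2) - 1) / (2 * τ) := fun τ hτ => by
    rw [(a2 τ hτ).deriv_eq]
    refine ((((h.fk _).dF.comp τ (dl τ hτ)).sub (dl τ hτ)).congr_deriv ?_).deriv
    field_simp
  have b3 : ∀ τ, 0 < τ → deriv β τ = Y (log τ / 2) / (2 * τ) := fun τ hτ => by
    rw [(b2 τ hτ).deriv_eq]
    refine (((h.fk _).dK.comp τ (dl τ hτ)).congr_deriv ?_).deriv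
    field_simp
  have a4 : ∀ τ, 0 < τ → deriv (deriv α) τ = (1 - X (log τ / 2) ^ 2 -
      2 * X (log τ / 2) * Y (log τ / 2) - 4 * exp (2 * F (log τ / 2)) -
      2 * (X (log τ / 2) - 1)) / (4 * τ ^ 2) := fun τ hτ => by
    rw [EventuallyEq.deriv_eq ((eventually_gt_nhds hτ).mono a3)]
    refine (((((h.fk _).dX.comp τ (dl τ hτ)).sub_const 1).div ((hasDerivAt_id τ).const_mul 2)
      (by positivity)).congr_deriv ?_).deriv
    simp only [id, Function.comp_apply]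
    field_simp
    ring
  have b4 : ∀ τ, 0 < τ → deriv (deriv β) τ = (-(X (log τ / 2) * Y (log τ / 2)) -
      2 * Y (log τ / 2) ^ 2 + exp (2 * F (log τ / 2) - 2 * K (log τ / 2)) -
      4 * exp (2 * F (log τ / 2)) - 2 * Y (log τ / 2)) / (4 * τ ^ 2) := fun τ hτ => by
    rw [EventuallyEq.deriv_eq ((eventually_gt_nhds hτ).mono b3)]
    refine ((((h.fk _).dY.comp τ (dl τ hτ)).div ((hasDerivAt_id τ).const_mul 2)
      (by positivity)).congr_deriv ?_).deriv
    simp only [id, Function.comp_apply]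
    field_simp
    ring
  have a5 : ∀ τ, 0 < τ → exp (2 * α τ) = exp (2 * F (log τ / 2)) / τ := fun τ hτ => by
    rw [a1 τ hτ, mul_sub, exp_sub, el τ hτ]
  have c0 := (sa 0 le_rfl).continuousAt
  have c1 := (sa.deriv 0 le_rfl).continuousAt
  have c2 := (sa.deriv.deriv 0 le_rfl).continuousAt
  have c3 := (sb 0 le_rfl).continuousAt
  have c4 := (sb.deriv 0 le_rfl).continuousAt
  have c5 := (sb.deriv.deriv 0 le_rfl).continuousAt
  refine ⟨α, β, ⟨sa, sb, eq_of_pos (by fun_prop) (by fun_prop) fun τ hτ => ?_,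
    eq_of_pos (by fun_prop) (by fun_prop) fun τ hτ => ?_,
    eq_of_pos (by fun_prop) (by fun_prop) fun τ hτ => ?_, fun τ hτ => ?_⟩, fun t => ?_⟩
  · rw [a3 τ hτ, a4 τ hτ, b3 τ hτ, a5 τ hτ]
    field_simp
    ring
  · have := h.con (log τ / 2)
    rw [a3 τ hτ, a4 τ hτ, b3 τ hτ, b4 τ hτ]
    rw [conI] at this
    generalize exp (2 * F (log τ / 2) - 2 * K (log τ / 2)) = E at this ⊢
    field_simp
    linear_combination 8 * this
  · rw [exp_sub, a3 τ hτ, b3 τ hτ, b4 τ hτ, a5 τ hτ, b1 τ hτ, exp_sub]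
    have := exp_pos (2 * F (log τ / 2))
    have := exp_pos (2 * K (log τ / 2))
    field_simp
    ring
  · rw [a1 _ (inv_pos.2 hτ), a1 τ hτ, b1 _ (inv_pos.2 hτ), b1 τ hτ, log_inv, neg_div, h.evF, h.evK]
    exact ⟨by ring, rfl⟩
  · rw [a1 _ (exp_pos _), b1 _ (exp_pos _), log_exp, mul_div_cancel_left₀ _ two_ne_zero]
    exact ⟨by ring, rfl⟩

theorem Profile.edata {F K X Y : ℝ → ℝ} (h : Profile F K X Y) :
    EData M5 4 (cV * ∫ t, exp (3 * F t + 2 * K t)) := by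
  obtain ⟨α, β, hr, e⟩ := h.radial
  have := integral_image_eq_integral_abs_deriv_smul (s := univ) MeasurableSet.univ
    (fun t _ => (hasDerivAt_exp t).hasDerivWithinAt) exp_injective.injOn
    fun r => r ^ 2 * exp (3 * α (r ^ 2) + 2 * β (r ^ 2))
  rw [image_univ, range_exp, Measure.restrict_univ] at this
  have h2 := hr.edata
  rw [this] at h2
  refine cast (congrArg (fun I => EData M5 4 (cV * I)) (integral_congr_ae
    (Eventually.of_forall fun t => ?_))) h2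
  simp only [(e t).1, (e t).2, abs_exp, smul_eq_mul, ← exp_nat_mul, ← exp_add, Nat.cast_ofNat]
  congr 1
  ring

theorem integral_round : ∫ r in Ioi (0 : ℝ), r ^ 2 * (2 / (1 + r ^ 2)) ^ 3 = π / 2 := by
  have h1 : Tendsto (fun r : ℝ => (1 + r ^ 2)⁻¹) atTop (𝓝 0) :=
    (tendsto_atTop_add_const_left _ _ (tendsto_pow_atTop two_ne_zero)).inv_tendsto_atTop
  have h2 : Tendsto (fun r : ℝ => r / (1 + r ^ 2)) atTop (𝓝 0) := by
    refine squeeze_zero' ((eventually_ge_atTop 0).mono fun r hr => by positivity)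
      ((eventually_gt_atTop 0).mono fun r hr => ?_) tendsto_inv_atTop_zero
    rw [inv_eq_one_div, div_le_div_iff₀ (by positivity) hr]
    nlinarith
  have := integral_Ioi_of_hasDerivAt_of_nonneg' (a := 0)
    (g := fun r => arctan r + r / (1 + r ^ 2) * (1 - 2 * (1 + r ^ 2)⁻¹))
    (g' := fun r => r ^ 2 * (2 / (1 + r ^ 2)) ^ 3) (fun r _ => by
      have h0 : (1 + r ^ 2) ≠ 0 := by positivity
      have d := ((hasDerivAt_id r).pow 2).const_add 1
      refine ((hasDerivAt_arctan r).add (((hasDerivAt_id r).div d h0).mul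
        (((d.inv h0).const_mul 2).const_sub 1))).congr_deriv ?_
      simp only [id, Pi.pow_apply, Pi.div_apply, Pi.inv_apply]
      field_simp
      norm_num
      ring)
    (fun r _ => by positivity) ((tendsto_nhds_of_tendsto_nhdsWithin tendsto_arctan_atTop).add
      (h2.mul ((h1.const_mul 2).const_sub 1)))
  simpa using this

theorem product_edata : EData M5 4 (cV * (√2 / 16 * (π / 2))) := by
  have d1 : ∀ τ : ℝ, -1 < τ → HasDerivAt (fun τ => log 2 / 2 - log (1 + τ)) (-(1 + τ)⁻¹) τ :=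
    fun τ hτ => by
      simpa using (((hasDerivAt_id τ).const_add 1).log (by simp; linarith)).const_sub (log 2 / 2)
  have d2 : ∀ τ : ℝ, 0 ≤ τ → deriv (deriv fun τ => log 2 / 2 - log (1 + τ)) τ = (1 + τ)⁻¹ ^ 2 :=
    fun τ hτ => by
      rw [EventuallyEq.deriv_eq ((eventually_gt_nhds (by linarith : -1 < τ)).mono
        fun s hs => (d1 s hs).deriv)]
      refine ((((hasDerivAt_id τ).const_add 1).inv (by simp; linarith)).neg.congr_deriv ?_).deriv
      simp [neg_div]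
  have e1 : ∀ τ : ℝ, 0 ≤ τ → exp (log 2 / 2 - log (1 + τ)) = √2 / (1 + τ) := fun τ hτ => by
    rw [exp_sub, exp_log (by linarith), ← log_sqrt zero_le_two, exp_log (by positivity)]
  have e2 : exp (2 * -log 2) = 1 / 4 := by
    rw [show 2 * -log 2 = -((2 : ℕ) * log 2) by simp, Real.exp_neg, exp_nat_mul, exp_log two_pos]
    norm_num
  have e3 : ∀ τ : ℝ, 0 ≤ τ → exp (2 * (log 2 / 2 - log (1 + τ))) = 2 / (1 + τ) ^ 2 := fun τ hτ => by
    rw [show (2 : ℝ) * _ = (2 : ℕ) * (log 2 / 2 - log (1 + τ)) by simp, exp_nat_mul, e1 τ hτ,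
      div_pow, sq_sqrt zero_le_two]
  have h : Radial (fun τ => log 2 / 2 - log (1 + τ)) fun _ => -log 2 := by
    refine ⟨fun τ hτ => contDiffAt_const.sub ((contDiffAt_const.add contDiffAt_id).log
      (by simp; linarith)), fun _ _ => contDiffAt_const, fun τ hτ => ?_, fun τ hτ => ?_,
      fun τ hτ => ?_, fun τ hτ => ⟨?_, rfl⟩⟩
    · rw [d2 τ hτ, (d1 τ (by linarith)).deriv, e3 τ hτ, deriv_const]
      field_simp
      ring
    · rw [d2 τ hτ, (d1 τ (by linarith)).deriv]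
      simp
    · rw [e2]
      simp
    · rw [show 1 + τ⁻¹ = (1 + τ) / τ by field_simp; ring, log_div (by positivity) hτ.ne']
      ring
  refine cast (congrArg (fun I => EData M5 4 (cV * I)) ?_) h.edata
  rw [← integral_round, ← integral_const_mul]
  refine integral_congr_ae (Eventually.of_forall fun r => ?_)
  have h0 : 0 < 1 + r ^ 2 := by positivity
  have h2 := sq_sqrt (zero_le_two (α := ℝ))
  simp only
  rw [exp_add, e2, show (3 : ℝ) * _ = (3 : ℕ) * (log 2 / 2 - log (1 + r ^ 2)) by simp, exp_nat_mul,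
    e1 _ (sq_nonneg r)]
  field_simp
  linear_combination 16 * r ^ 2 * h2

end Pool.Agent.Lib.MP_1301ff_gt
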