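import Pool.Agent.Lib.MP_1301ff_gt.Phase1b

set_option autoImplicit false

namespace Pool.Agent.Lib.MP_1301ff_gt

open Set Filter Topology Real Metric
open scoped ContDiff NNReal

abbrev R4 : Type := ℝ × ℝ × ℝ × ℝ

noncomputable def VF (z : R4) : R4 :=
  (exp (z.1 / 2) * z.2.1, exp (z.1 / 2) * (-3 * z.2.2.1 * z.2.1 - 2 * sinh z.1),
    exp (z.1 / 2) * (-z.2.2.2 ^ 2 - z.2.1 ^ 2 / 4), exp (z.1 / 2) * (z.2.2.1 * z.2.2.2))

noncomputable def con (z : R4) : ℝ := z.2.2.1 ^ 2 + z.2.2.2 ^ 2 - (z.2.1 ^ 2 + 4 * cosh z.1) / 12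

theorem contDiff_VF : ContDiff ℝ ∞ VF := by
  unfold VF
  fun_prop

theorem hd4 {z : ℝ → R4} {w : R4} {t : ℝ} (h : HasDerivAt z w t) :
    HasDerivAt (fun s => (z s).1) w.1 t ∧ HasDerivAt (fun s => (z s).2.1) w.2.1 t ∧
      HasDerivAt (fun s => (z s).2.2.1) w.2.2.1 t ∧ HasDerivAt (fun s => (z s).2.2.2) w.2.2.2 t :=
  ⟨h.fst, h.snd.fst, h.snd.snd.fst, h.snd.snd.snd⟩

theorem box_of_en {u p B₀ : ℝ} (h : en u p ≤ B₀) :
    exp u ≤ 2 + B₀ ∧ exp (-u) ≤ 2 + B₀ ∧ p ^ 2 ≤ B₀ ∧ 0 ≤ B₀ := by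
  have h1 := cosh_eq u
  have h2 := exp_pos u
  have h3 := exp_pos (-u)
  have h4 := one_le_cosh u
  unfold en at h
  refine ⟨by nlinarith [sq_nonneg p], by nlinarith [sq_nonneg p], by linarith,
    by nlinarith [sq_nonneg p]⟩

theorem exists_shoot (B₀ : ℝ) (hB₀ : 0 ≤ B₀) : ∃ (Φ : R4 → ℝ → R4) (T : R4 → ℝ),
    (∀ z, Φ z 0 = z) ∧ ContinuousOn (fun q : R4 × ℝ => Φ q.1 q.2) (univ ×ˢ Ici 0) ∧
    ∀ z, con z = 0 → 0 < z.2.2.1 → 0 < z.2.2.2 → en z.1 z.2.1 ≤ B₀ →
      Sol (2 + B₀) (fun t => exp ((Φ z t).1 / 2)) (fun t => (Φ z t).1) (fun t => (Φ z t).2.1)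
        (fun t => (Φ z t).2.2.1) (fun t => (Φ z t).2.2.2) (T z) ∧
      (∀ t ∈ Icc 0 (T z), HasDerivAt (Φ z) (VF (Φ z t)) t) ∧
      (∀ t ∈ Ico 0 (T z), 0 < (Φ z t).2.2.1) ∧ (∀ t, T z < t → (Φ z t).2.2.1 < 0) := by
  let χ : ContDiffBump (0 : R4) := ⟨3 + B₀, 4 + B₀, by linarith, by linarith⟩
  have hsm : ContDiff ℝ ∞ fun z => χ z • VF z := χ.contDiff.smul contDiff_VF
  have hcs : HasCompactSupport fun z => χ z • VF z := χ.hasCompactSupport.smul_right
  obtain ⟨K, hK⟩ := hsm.lipschitzWith_of_hasCompactSupport hcs (by simp)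
  obtain ⟨L, hL⟩ := hsm.continuous.bounded_above_of_compact_support hcs
  have hL0 : 0 ≤ L := (norm_nonneg _).trans (hL 0)
  obtain ⟨Φ, h0, hd, hc⟩ := exists_flow (L := ⟨L, hL0⟩) hK hL
  refine ⟨Φ, fun z => sInf {t | 0 ≤ t ∧ (Φ z t).2.2.1 ≤ 0}, h0, hc, ?_⟩
  intro z hz hy hr he
  set u : ℝ → ℝ := fun t => (Φ z t).1 with hu
  set p : ℝ → ℝ := fun t => (Φ z t).2.1 with hp
  set y : ℝ → ℝ := fun t => (Φ z t).2.2.1 with hy'
  set r : ℝ → ℝ := fun t => (Φ z t).2.2.2 with hr'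
  set k : ℝ → ℝ := fun t => χ (Φ z t) * exp (u t / 2) with hk
  have cΦ : Continuous (Φ z) := continuous_iff_continuousAt.2 fun t => (hd z t).continuousAt
  have ck : Continuous k := (χ.continuous.comp cΦ).mul (by fun_prop)
  have k0 : ∀ t, 0 ≤ k t := fun t => mul_nonneg χ.nonneg (exp_pos _).le
  have du : ∀ t, HasDerivAt u (k t * p t) t := fun t =>
    (hd4 (hd z t)).1.congr_deriv (by simp [VF, hk, hu, hp]; ring)
  have dp : ∀ t, HasDerivAt p (k t * (-3 * y t * p t - 2 * sinh (u t))) t := fun t =>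
    (hd4 (hd z t)).2.1.congr_deriv (by simp [VF, hk, hu, hp, hy']; ring)
  have dy : ∀ t, HasDerivAt y (k t * (-r t ^ 2 - p t ^ 2 / 4)) t := fun t =>
    (hd4 (hd z t)).2.2.1.congr_deriv (by simp [VF, hk, hu, hp, hr']; ring)
  have dr : ∀ t, HasDerivAt r (k t * (y t * r t)) t := fun t =>
    (hd4 (hd z t)).2.2.2.congr_deriv (by simp [VF, hk, hu, hy', hr']; ring)
  have cy : Continuous y := by fun_prop
  have u0 : u 0 = z.1 := by simp [hu, h0]
  have p0 : p 0 = z.2.1 := by simp [hp, h0]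
  have y0 : y 0 = z.2.2.1 := by simp [hy', h0]
  have r0 : r 0 = z.2.2.2 := by simp [hr', h0]
  have hcon : ∀ t, y t ^ 2 + r t ^ 2 = (p t ^ 2 + 4 * cosh (u t)) / 12 := by
    have : ∀ t, HasDerivAt (fun t => y t ^ 2 + r t ^ 2 - (p t ^ 2 + 4 * cosh (u t)) / 12) 0 t := by
      intro t
      refine ((((dy t).pow 2).add ((dr t).pow 2)).sub
        ((((dp t).pow 2).add ((du t).cosh.const_mul 4)).div_const 12)).congr_deriv ?_
      simp only [Nat.cast_ofNat]
      ring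
    intro t
    have h1 := is_const_of_deriv_eq_zero (fun t => (this t).differentiableAt)
      (fun t => (this t).deriv) t 0
    rw [u0, p0, y0, r0] at h1
    unfold con at hz
    linarith
  have rpos : ∀ t, 0 ≤ t → 0 < r t := by
    intro t ht
    rw [linear_ode (g := r) (k := fun t => k t * y t) (ck.mul cy) (a := 0) (b := t)
      (fun s _ => (dr s).congr_deriv (by ring)) t ⟨ht, le_rfl⟩, r0]
    positivity
  have yanti : Antitone y := antitone_of_hasDerivAt_nonpos dy fun t => by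
    have := k0 t
    have : 0 ≤ k t * (r t ^ 2 + p t ^ 2 / 4) := by positivity
    simp only [Pi.zero_apply]
    linarith
  have hen : ∀ t, 0 ≤ t → 0 ≤ y t → en (u t) (p t) ≤ B₀ := by
    intro t ht hyt
    have := le_of_deriv_nonpos (g := fun t => en (u t) (p t))
      (g' := fun t => k t * (-6 * y t * p t ^ 2)) ht
      (fun x _ => by
        refine (((dp x).pow 2).add (((du x).cosh.sub_const 1).const_mul 4)).congr_deriv ?_
        simp only [Nat.cast_ofNat]
        ring)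
      (fun x hx => by
        have h1 := hyt.trans (yanti hx.2)
        have := k0 x
        have : 0 ≤ k x * (y x * p x ^ 2) := by positivity
        linarith)
    rw [u0, p0] at this
    exact this.trans he
  have hyr : ∀ t, 0 ≤ t → 0 ≤ y t → y t ≤ 2 + B₀ ∧ r t ≤ 2 + B₀ := by
    intro t ht hyt
    have h1 := hen t ht hyt
    have h2 := hcon t
    have h3 := rpos t ht
    unfold en at h1
    constructor <;> nlinarith
  have hχ : ∀ t, 0 ≤ t → 0 ≤ y t → χ (Φ z t) = 1 := by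
    intro t ht hyt
    obtain ⟨b1, b2, b3, -⟩ := box_of_en (hen t ht hyt)
    obtain ⟨b4, b5⟩ := hyr t ht hyt
    have b6 := rpos t ht
    refine χ.one_of_mem_closedBall ?_
    rw [mem_closedBall, dist_zero_right]
    change max ‖u t‖ (max ‖p t‖ (max ‖y t‖ ‖r t‖)) ≤ 3 + B₀
    simp only [max_le_iff, Real.norm_eq_abs, abs_le]
    have := add_one_le_exp (u t)
    have := add_one_le_exp (-u t)
    refine ⟨⟨by linarith, by linarith⟩, ⟨by nlinarith, by nlinarith⟩, ⟨by linarith, by linarith⟩,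
      by linarith, by linarith⟩
  have hk1 : ∀ t, 0 ≤ t → 0 ≤ y t → k t = exp (u t / 2) := fun t ht hyt => by
    simp only [hk, hχ t ht hyt, one_mul]
  have hm : ∀ t, 0 ≤ t → 0 ≤ y t → 1 / (2 + B₀) ≤ exp (u t / 2) ∧ exp (u t / 2) ≤ 2 + B₀ := by
    intro t ht hyt
    obtain ⟨b1, b2, -⟩ := box_of_en (hen t ht hyt)
    have e1 : exp (u t) = exp (u t / 2) ^ 2 := by rw [← exp_nat_mul]; congr 1; push_cast; ring
    have e2 : exp (-u t) * exp (u t) = 1 := by rw [← exp_add]; simp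
    have e3 := exp_pos (u t / 2)
    have e4 := exp_pos (-u t)
    constructor
    · rw [div_le_iff₀ (by linarith)]
      by_contra hc
      have h1 : exp (u t / 2) * (2 + B₀) < 1 := not_le.1 hc
      have h2 : exp (u t / 2) < 1 := by nlinarith
      have h3 : exp (-u t) * exp (u t / 2) ^ 2 ≤ (2 + B₀) * exp (u t / 2) ^ 2 :=
        mul_le_mul_of_nonneg_right b2 (sq_nonneg _)
      nlinarith
    · nlinarith
  have hne : {t | 0 ≤ t ∧ y t ≤ 0}.Nonempty := by
    by_contra hc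
    have hpos : ∀ t, 0 ≤ t → 0 < y t := fun t ht => by
      by_contra h
      exact hc ⟨t, ht, not_lt.1 h⟩
    set S := y 0 * (2 + B₀) / r 0 ^ 2 with hS
    have hr0 := rpos 0 le_rfl
    have hy0 := hpos 0 le_rfl
    have hS0 : 0 ≤ S := by positivity
    have := le_of_deriv_nonpos (g := fun t => y t + r 0 ^ 2 / (2 + B₀) * t)
      (g' := fun t => k t * (-r t ^ 2 - p t ^ 2 / 4) + r 0 ^ 2 / (2 + B₀)) hS0
      (fun x _ => ((dy x).add ((hasDerivAt_id x).const_mul _)).congr_deriv (by simp))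
      (fun x hx => by
        have h1 : r 0 ≤ r x := le_of_deriv_nonneg hx.1 (fun s _ => dr s) fun s hs => by
          have := k0 s
          have := hpos s hs.1
          have := rpos s hs.1
          positivity
        have h2 := (hm x hx.1 (hpos x hx.1).le).1
        rw [hk1 x hx.1 (hpos x hx.1).le]
        have h3 : 1 / (2 + B₀) * r 0 ^ 2 ≤ exp (u x / 2) * (r x ^ 2 + p x ^ 2 / 4) :=
          mul_le_mul h2 (by nlinarith [sq_nonneg (p x)]) (sq_nonneg _) (exp_pos _).le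
        have h4 : 1 / (2 + B₀) * r 0 ^ 2 = r 0 ^ 2 / (2 + B₀) := by ring
        linarith)
    have h5 : r 0 ^ 2 / (2 + B₀) * S = y 0 := by rw [hS]; field_simp
    have := hpos S hS0
    simp only [mul_zero, add_zero] at *
    linarith
  have hbdd : BddBelow {t | 0 ≤ t ∧ y t ≤ 0} := ⟨0, fun t ht => ht.1⟩
  have hcl : IsClosed {t | 0 ≤ t ∧ y t ≤ 0} :=
    isClosed_Ici.inter (isClosed_le cy continuous_const)
  set T := sInf {t | 0 ≤ t ∧ y t ≤ 0} with hT
  have hTm : 0 ≤ T ∧ y T ≤ 0 := hcl.csInf_mem hne hbdd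
  have hlt : ∀ t ∈ Ico 0 T, 0 < y t := fun t ht => by
    by_contra h
    exact absurd (csInf_le hbdd ⟨ht.1, not_lt.1 h⟩) (not_le.2 ht.2)
  have hT0 : 0 < T := by
    rcases hTm.1.eq_or_lt with h | h
    · have := hTm.2
      rw [← h, y0] at this
      linarith
    · exact h
  have hyT : y T = 0 := by
    refine le_antisymm hTm.2 ?_
    have h1 : closure (Ico 0 T) ⊆ {t | 0 ≤ y t} :=
      closure_minimal (fun t ht => (hlt t ht).le) (isClosed_le continuous_const cy)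
    rw [closure_Ico hT0.ne] at h1
    exact h1 ⟨hT0.le, le_rfl⟩
  have hy0 : ∀ t ∈ Icc 0 T, 0 ≤ y t := fun t ht => hyT ▸ yanti ht.2
  refine ⟨?_, ?_, hlt, ?_⟩
  · exact
      { hT := hT0.le
        cm := by fun_prop
        cr := by fun_prop
        m0 := fun t ht => (hm t ht.1 (hy0 t ht)).1
        m1 := fun t ht => (hm t ht.1 (hy0 t ht)).2
        du := fun t ht => hk1 t ht.1 (hy0 t ht) ▸ du t
        dp := fun t ht => hk1 t ht.1 (hy0 t ht) ▸ dp t
        dy := fun t ht => hk1 t ht.1 (hy0 t ht) ▸ dy t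
        dr := fun t ht => hk1 t ht.1 (hy0 t ht) ▸ dr t
        con := fun t _ => hcon t
        y0 := hy0
        y1 := fun t ht => (hyr t ht.1 (hy0 t ht)).1
        yT := hyT
        r0 := fun t ht => rpos t ht.1 }
  · intro t ht
    have := hd z t
    rwa [hχ t ht.1 (hy0 t ht), one_smul] at this
  · intro t ht
    by_contra hc
    have h1 : ∀ s ∈ Icc T t, y s = 0 := fun s hs =>
      le_antisymm (hyT ▸ yanti hs.1) ((not_lt.1 hc).trans (yanti hs.2))
    have h2 : HasDerivWithinAt y 0 (Icc T t) T :=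
      (hasDerivWithinAt_const T _ (0 : ℝ)).congr h1 hyT
    have h3 := (uniqueDiffOn_Icc ht T ⟨le_rfl, ht.le⟩).eq_deriv _ h2 (dy T).hasDerivWithinAt
    rw [hk1 T hT0.le hyT.ge] at h3
    have := rpos T hT0.le
    have : 0 < exp (u T / 2) * (r T ^ 2 + p T ^ 2 / 4) := by positivity
    linarith

end Pool.Agent.Lib.MP_1301ff_gt
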