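import Pool.Agent.Lib.MP_1301ff_gt.Shoot

set_option autoImplicit false

namespace Pool.Agent.Lib.MP_1301ff_gt

open Set Filter Topology Real Metric
open scoped ContDiff NNReal

noncomputable def st (F K X Y : ℝ) : R4 :=
  (F - K, exp (-((F - K) / 2)) * (X - Y), exp (-((F - K) / 2)) * ((X + Y) / 2), exp ((F + K) / 2))

theorem exp_facts (F K : ℝ) : ∃ m r : ℝ, 0 < m ∧ 0 < r ∧ exp ((F - K) / 2) = m ∧
    exp (-((F - K) / 2)) = m⁻¹ ∧ exp ((F + K) / 2) = r ∧ exp (2 * F) = r ^ 2 * m ^ 2 ∧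
    exp (2 * F - 2 * K) = m ^ 4 ∧ sinh (F - K) = (m ^ 2 - (m ^ 2)⁻¹) / 2 ∧
    cosh (F - K) = (m ^ 2 + (m ^ 2)⁻¹) / 2 := by
  have e : exp (F - K) = exp ((F - K) / 2) ^ 2 := by rw [← exp_nat_mul]; congr 1; push_cast; ring
  refine ⟨_, _, exp_pos _, exp_pos _, rfl, exp_neg _, rfl, ?_, ?_, ?_, ?_⟩
  · rw [← exp_nat_mul, ← exp_nat_mul, ← exp_add]; congr 1; push_cast; ring
  · rw [← exp_nat_mul]; congr 1; push_cast; ring
  · rw [sinh_eq, exp_neg, e]
  · rw [cosh_eq, exp_neg, e]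

theorem con_st {F K X Y : ℝ} (h : conI F K X Y = 0) : con (st F K X Y) = 0 := by
  obtain ⟨m, r, hm, hr, e1, e2, e3, e4, e5, e6, e7⟩ := exp_facts F K
  simp only [con, st, conI, e2, e3, e4, e5, e7] at h ⊢
  field_simp
  linear_combination 8 * h

theorem FK.hasDerivAt_st {F K X Y : ℝ → ℝ} {t : ℝ} (h : FK F K X Y t)
    (hI : conI (F t) (K t) (X t) (Y t) = 0) :
    HasDerivAt (fun s => st (F s) (K s) (X s) (Y s)) (VF (st (F t) (K t) (X t) (Y t))) t := by
  obtain ⟨m, r, hm, hr, e1, e2, e3, e4, e5, e6, e7⟩ := exp_facts (F t) (K t)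
  have du := h.dF.sub h.dK
  have dm := (du.div_const 2).neg.exp
  refine HasDerivAt.prodMk (du.congr_deriv ?_) (HasDerivAt.prodMk
    ((dm.mul (h.dX.sub h.dY)).congr_deriv ?_) (HasDerivAt.prodMk
    ((dm.mul ((h.dX.add h.dY).div_const 2)).congr_deriv ?_)
    (((h.dF.add h.dK).div_const 2).exp.congr_deriv ?_)))
  all_goals
    simp only [st, conI, Pi.neg_apply, Pi.sub_apply, Pi.add_apply, e1, e2, e3, e4, e5, e6] at hI ⊢
    field_simp
  · ring
  · linear_combination (-8) * hI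

theorem conI_zero {F K X Y : ℝ → ℝ} {a C : ℝ} (h : ∀ t ≤ a, FK F K X Y t)
    (hb : ∀ t ≤ a, |conI (F t) (K t) (X t) (Y t) * exp (2 * F t + 4 * K t)| ≤ C * exp (2 * t)) :
    ∀ t ≤ a, conI (F t) (K t) (X t) (Y t) = 0 := by
  intro t ht
  set g := fun t => conI (F t) (K t) (X t) (Y t) * exp (2 * F t + 4 * K t) with hg
  have hc : ∀ s ≤ t, g t = g s := fun s hs =>
    le_antisymm (le_of_deriv_nonpos hs (fun x hx => (h x (hx.2.trans ht)).dI) fun _ _ => le_rfl)
      (le_of_deriv_nonneg hs (fun x hx => (h x (hx.2.trans ht)).dI) fun _ _ => le_rfl)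
  have hlim : Tendsto (fun s : ℝ => C * exp (2 * s)) atBot (𝓝 (C * 0)) :=
    (tendsto_exp_atBot.comp (tendsto_id.const_mul_atBot (by norm_num))).const_mul C
  have : |g t| ≤ C * 0 := by
    refine ge_of_tendsto hlim ?_
    filter_upwards [eventually_le_atBot t] with s hs
    rw [hc s hs]
    exact hb s (hs.trans ht)
  rw [mul_zero, abs_nonpos_iff] at this
  exact (mul_eq_zero.1 this).resolve_right (exp_pos _).ne'

theorem FK_of_VF {z : ℝ → R4} {t : ℝ} (h : HasDerivAt z (VF (z t)) t) (hc : con (z t) = 0)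
    (hr : 0 < (z t).2.2.2) :
    FK (fun s => log (z s).2.2.2 + (z s).1 / 2) (fun s => log (z s).2.2.2 - (z s).1 / 2)
      (fun s => exp ((z s).1 / 2) * ((z s).2.2.1 + (z s).2.1 / 2))
      (fun s => exp ((z s).1 / 2) * ((z s).2.2.1 - (z s).2.1 / 2)) t ∧
    conI (log (z t).2.2.2 + (z t).1 / 2) (log (z t).2.2.2 - (z t).1 / 2)
      (exp ((z t).1 / 2) * ((z t).2.2.1 + (z t).2.1 / 2))
      (exp ((z t).1 / 2) * ((z t).2.2.1 - (z t).2.1 / 2)) = 0 := by
  obtain ⟨du, dp, dy, dr⟩ := hd4 h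
  obtain ⟨m, r, hm, -, e1, e2, e3, e4, e5, e6, e7⟩ :=
    exp_facts (log (z t).2.2.2 + (z t).1 / 2) (log (z t).2.2.2 - (z t).1 / 2)
  have a1 : log (z t).2.2.2 + (z t).1 / 2 - (log (z t).2.2.2 - (z t).1 / 2) = (z t).1 := by ring
  have a2 : (log (z t).2.2.2 + (z t).1 / 2 + (log (z t).2.2.2 - (z t).1 / 2)) / 2 =
    log (z t).2.2.2 := by ring
  rw [a1] at e1 e6 e7
  rw [a2, exp_log hr] at e3
  have dl := dr.log hr.ne'
  have dm := (du.div_const 2).exp
  have hr' := hr.ne'
  simp only [con, e7] at hc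
  have hc' : 24 * m ^ 2 * ((z t).2.2.1 ^ 2 + (z t).2.2.2 ^ 2) =
      2 * m ^ 2 * (z t).2.1 ^ 2 + 4 * m ^ 4 + 4 := by
    field_simp at hc
    linear_combination hc
  refine ⟨⟨(dl.add (du.div_const 2)).congr_deriv ?_, (dl.sub (du.div_const 2)).congr_deriv ?_,
    (dm.mul (dy.add (dp.div_const 2))).congr_deriv ?_,
    (dm.mul (dy.sub (dp.div_const 2))).congr_deriv ?_⟩, ?_⟩
  · simp only [VF]; field_simp
  · simp only [VF]; field_simp
  · simp only [VF, Pi.add_apply, e1, e4, e6, ← e3]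
    field_simp
    linear_combination 2 * hc'
  · simp only [VF, Pi.sub_apply, e1, e4, e5, e6, ← e3]
    field_simp
    linear_combination 2 * hc'
  · simp only [conI, e1, e4, e5, ← e3]
    linear_combination (1 / 4) * hc'

theorem glue_deriv {E : Type} [NormedAddCommGroup E] [NormedSpace ℝ E] {f g : ℝ → E} {a t : ℝ}
    {w : E} (hfa : f a = g a) (hf : t ≤ a → HasDerivAt f w t) (hg : a ≤ t → HasDerivAt g w t) :
    HasDerivAt (fun s => if s ≤ a then f s else g s) w t := by
  rcases lt_trichotomy t a with h | h | h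
  · refine (hf h.le).congr_of_eventuallyEq ?_
    filter_upwards [Iio_mem_nhds h] with s hs using if_pos (le_of_lt hs)
  · subst h
    have h1 : HasDerivWithinAt (fun s => if s ≤ t then f s else g s) w (Iic t) t :=
      (hf le_rfl).hasDerivWithinAt.congr (fun s hs => if_pos hs) (if_pos le_rfl)
    have h2 : HasDerivWithinAt (fun s => if s ≤ t then f s else g s) w (Ici t) t := by
      refine (hg le_rfl).hasDerivWithinAt.congr (fun s hs => ?_) (by simp [hfa])
      rcases (mem_Ici.1 hs).eq_or_lt with h | h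
      · simp [← h, hfa]
      · exact if_neg (not_le.2 h)
    simpa [Iic_union_Ici] using h1.union h2
  · refine (hg h.le).congr_of_eventuallyEq ?_
    filter_upwards [Ioi_mem_nhds h] with s hs using if_neg (not_le.2 hs)

theorem continuousOn_hit {s : Set ℝ} {Φy : ℝ → ℝ → ℝ} {T : ℝ → ℝ}
    (hc : ∀ t, 0 ≤ t → ContinuousOn (fun ε => Φy ε t) s) (h0 : ∀ ε ∈ s, 0 ≤ T ε)
    (h1 : ∀ ε ∈ s, ∀ t ∈ Ico 0 (T ε), 0 < Φy ε t) (h2 : ∀ ε ∈ s, ∀ t, T ε < t → Φy ε t < 0) :
    ContinuousOn T s := by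
  intro ε hε
  rw [ContinuousWithinAt, tendsto_order]
  constructor
  · intro a ha
    rcases lt_or_ge a 0 with h | h
    · filter_upwards [self_mem_nhdsWithin] with e he using h.trans_le (h0 e he)
    · obtain ⟨b, hab, hb⟩ := exists_between ha
      have := (hc b (h.trans hab.le) ε hε).eventually
        (lt_mem_nhds (h1 ε hε b ⟨h.trans hab.le, hb⟩))
      filter_upwards [self_mem_nhdsWithin, this] with e he h3
      by_contra hcon
      exact absurd (h2 e he b ((not_lt.1 hcon).trans_lt hab)) (not_lt.2 h3.le)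
  · intro a ha
    obtain ⟨b, hb, hba⟩ := exists_between ha
    have hb0 : 0 ≤ b := (h0 ε hε).trans hb.le
    have := (hc b hb0 ε hε).eventually (gt_mem_nhds (h2 ε hε b hb))
    filter_upwards [self_mem_nhdsWithin, this] with e he h3
    by_contra hcon
    exact absurd (h1 e he b ⟨hb0, hba.trans_le (not_lt.1 hcon)⟩) (not_lt.2 h3.le)

/-- The angle variable follows the direction of `(u, p)`. -/
theorem Sol.angle_rel {B : ℝ} {m u p y r : ℝ → ℝ} {T : ℝ} (h : Sol B m u p y r T) (hB : 1 ≤ B)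
    (h0 : 0 < en (u 0) (p 0)) {θ : ℝ → ℝ}
    (hθ : ∀ t ∈ Icc 0 T, HasDerivAt θ (m t * om (u t) (p t) (y t)) t)
    (hi : -u 0 * sin (θ 0) + p 0 * cos (θ 0) = 0) : -u T * sin (θ T) + p T * cos (θ T) = 0 := by
  set d : ℝ → ℝ := fun t => -u t * sin (θ t) + p t * cos (θ t) with hd
  set k : ℝ → ℝ := fun t => m t * (d t * ((-3 * y t * p t - 2 * sinh (u t)) * cos (θ t) -
    p t * sin (θ t)) + (u t * cos (θ t) + p t * sin (θ t)) *
    ((-3 * y t * p t - 2 * sinh (u t)) * sin (θ t) + p t * cos (θ t))) / (u t ^ 2 + p t ^ 2)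
    with hk
  have hne : ∀ t ∈ Icc 0 T, u t ^ 2 + p t ^ 2 ≠ 0 := fun t ht =>
    (sq_add_sq_pos (h.en_pos hB h0 t ht)).ne'
  have dd : ∀ t ∈ Icc 0 T, HasDerivAt d (k t * d t) t := by
    intro t ht
    refine (((h.du t ht).neg.mul (hθ t ht).sin).add ((h.dp t ht).mul (hθ t ht).cos)).congr_deriv ?_
    have h1 := hne t ht
    have h2 := sin_sq_add_cos_sq (θ t)
    simp only [hk, hd, om, Pi.neg_apply]
    field_simp
    linear_combination (m t * (u t * cos (θ t) + p t * sin (θ t)) *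
      (u t * (-3 * y t * p t - 2 * sinh (u t)) - p t ^ 2) -
      m t * (u t ^ 2 + p t ^ 2) * ((-3 * y t * p t - 2 * sinh (u t)) * cos (θ t) -
        p t * sin (θ t))) * h2
  have cu : ContinuousOn u (Icc 0 T) := fun t ht => (h.du t ht).continuousAt.continuousWithinAt
  have cp : ContinuousOn p (Icc 0 T) := fun t ht => (h.dp t ht).continuousAt.continuousWithinAt
  have cy : ContinuousOn y (Icc 0 T) := fun t ht => (h.dy t ht).continuousAt.continuousWithinAt
  have cθ : ContinuousOn θ (Icc 0 T) := fun t ht => (hθ t ht).continuousAt.continuousWithinAt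
  have cd : ContinuousOn d (Icc 0 T) := fun t ht => (dd t ht).continuousAt.continuousWithinAt
  have cm := h.cm.continuousOn (s := Icc 0 T)
  have ck : ContinuousOn k (Icc 0 T) := ContinuousOn.div (by fun_prop) (by fun_prop) hne
  obtain ⟨C, hC⟩ := isCompact_Icc.exists_bound_of_continuousOn ck
  exact eq_zero_of_abs_deriv_le_mul_abs_self_of_eq_zero_right (K := C) cd
    (fun t ht => (dd t (Ico_subset_Icc_self ht)).hasDerivWithinAt) hi
    (fun t ht => by
      rw [norm_mul]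
      exact mul_le_mul_of_nonneg_right (hC t (Ico_subset_Icc_self ht)) (norm_nonneg _))
    T ⟨h.hT, le_rfl⟩

theorem even_integral {w : ℝ → ℝ} (hc : Continuous w) (hev : ∀ t, w (-t) = w t) {a C : ℝ}
    (h0 : ∀ t, 0 ≤ w t) (hb : ∀ t ≤ a, w t ≤ C * exp (3 * (t - a))) :
    MeasureTheory.Integrable w ∧ 2 * ∫ t in a..0, w t ≤ ∫ t, w t ∧
      ∫ t, w t ≤ 2 * (C + ∫ t in a..0, w t) := by
  have hC : 0 ≤ C := by simpa using (h0 a).trans (hb a le_rfl)
  have e : ∀ t, C * exp (3 * (t - a)) = C * exp (-(3 * a)) * exp (3 * t) := fun t => by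
    rw [mul_assoc, ← exp_add]; congr 2; ring
  have i0 : MeasureTheory.IntegrableOn (fun t => C * exp (3 * (t - a))) (Iic a) := by
    simp only [e]
    exact (integrableOn_exp_mul_Iic (by norm_num) a).const_mul _
  have i1 : MeasureTheory.IntegrableOn w (Iic a) := by
    refine MeasureTheory.Integrable.mono' i0 hc.aestronglyMeasurable ?_
    filter_upwards [MeasureTheory.ae_restrict_mem measurableSet_Iic] with t ht
    rw [Real.norm_of_nonneg (h0 t)]
    exact hb t ht
  have i2 : MeasureTheory.IntegrableOn w (Iic 0) :=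
    (i1.union (hc.integrableOn_Icc (a := a) (b := 0))).mono_set fun t ht => by
      rcases le_total t a with h | h
      · exact Or.inl h
      · exact Or.inr ⟨h, ht⟩
  have i3 : MeasureTheory.IntegrableOn w (Ioi 0) := by
    rw [← (MeasureTheory.Measure.measurePreserving_neg
      (MeasureTheory.volume : MeasureTheory.Measure ℝ)).integrableOn_comp_preimage
      (Homeomorph.neg ℝ).measurableEmbedding]
    simp only [Function.comp_def, hev, neg_preimage, neg_Ioi, neg_zero]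
    exact i2.mono_set Iio_subset_Iic_self
  have e1 := intervalIntegral.integral_Iic_add_Ioi i2 i3
  have e2 := integral_comp_neg_Ioi 0 w
  simp only [hev, neg_zero] at e2
  have e3 := intervalIntegral.integral_Iic_sub_Iic i1 i2
  have b1 : 0 ≤ ∫ t in Iic a, w t := MeasureTheory.integral_nonneg h0
  have b2 : ∫ t in Iic a, w t ≤ ∫ t in Iic a, C * exp (3 * (t - a)) :=
    MeasureTheory.setIntegral_mono_on i1 i0 measurableSet_Iic hb
  have b3 : ∫ t in Iic a, C * exp (3 * (t - a)) = C / 3 := by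
    simp only [e]
    rw [MeasureTheory.integral_const_mul, integral_exp_mul_Iic (by norm_num), exp_neg]
    field_simp
  refine ⟨?_, by linarith, by linarith⟩
  rw [← MeasureTheory.integrableOn_univ, ← Iic_union_Ioi (a := (0 : ℝ))]
  exact i2.union i3

end Pool.Agent.Lib.MP_1301ff_gt
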