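import Pool.Agent.Lib.MP_1301ff_gt.Quat
import Pool.Agent.Lib.MP_1301ff_gt.Rad

set_option autoImplicit false

namespace Pool.Agent.Lib.MP_1301ff_gt

open Filter Topology Matrix Real Quaternion MeasureTheory
open scoped ContDiff

noncomputable def qa : (ℝ × (Fin 3 → ℝ)) →L[ℝ] Qt :=
  LinearMap.toContinuousLinearMap ⟨⟨fun v => ⟨v.1, v.2 0, v.2 1, v.2 2⟩,
    fun _ _ => by ext <;> simp⟩, fun _ _ => by ext <;> simp⟩

noncomputable def qn : (ℝ × (Fin 2 → ℝ)) →L[ℝ] Qt :=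
  LinearMap.toContinuousLinearMap ⟨⟨fun v => ⟨0, v.1, v.2 0, v.2 1⟩,
    fun _ _ => by ext <;> simp⟩, fun _ _ => by ext <;> simp⟩

noncomputable def ua : Qt →L[ℝ] (ℝ × (Fin 3 → ℝ)) :=
  LinearMap.toContinuousLinearMap ⟨⟨fun q => (q.re, ![q.imI, q.imJ, q.imK]),
    fun _ _ => by simp⟩, fun _ _ => by simp⟩

noncomputable def un : Qt →L[ℝ] (ℝ × (Fin 2 → ℝ)) :=
  LinearMap.toContinuousLinearMap ⟨⟨fun q => (q.imI, ![q.imJ, q.imK]),
    fun _ _ => by simp⟩, fun _ _ => by simp⟩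

theorem qa_apply (v : ℝ × (Fin 3 → ℝ)) : qa v = ⟨v.1, v.2 0, v.2 1, v.2 2⟩ := rfl
theorem qn_apply (v : ℝ × (Fin 2 → ℝ)) : qn v = ⟨0, v.1, v.2 0, v.2 1⟩ := rfl
theorem ua_apply (q : Qt) : ua q = (q.re, ![q.imI, q.imJ, q.imK]) := rfl
theorem un_apply (q : Qt) : un q = (q.imI, ![q.imJ, q.imK]) := rfl

theorem ua_qa (v : ℝ × (Fin 3 → ℝ)) : ua (qa v) = v := by
  ext i
  · rfl
  · fin_cases i <;> rfl

theorem un_qn (v : ℝ × (Fin 2 → ℝ)) : un (qn v) = v := by
  ext i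
  · rfl
  · fin_cases i <;> rfl

theorem ip_qa (v w : ℝ × (Fin 3 → ℝ)) : (qa v * star (qa w)).re = amb 3 v w := by
  simp [qa_apply, amb, dotProduct, Fin.sum_univ_three]
  ring

theorem ip_qn (v w : ℝ × (Fin 2 → ℝ)) : (qn v * star (qn w)).re = amb 2 v w := by
  simp [qn_apply, amb, dotProduct, Fin.sum_univ_two]
  ring

/-- Stereographic parametrizations of `S³ × S²`. -/
noncomputable def PS (s t : ℝ) (z : Fin (3 + 2) → ℝ) : Qt × Qt :=
  (qa (par s (fs z)), qn (par t (sn z)))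

theorem contDiff_PS (s t : ℝ) : ContDiff ℝ ∞ (PS s t) :=
  (qa.contDiff.comp ((contDiff_par s).comp contDiff_fs)).prodMk
    (qn.contDiff.comp ((contDiff_par t).comp contDiff_sn))

theorem fderiv_PS (s t : ℝ) (z v : Fin (3 + 2) → ℝ) : fderiv ℝ (PS s t) z v =
    (qa (fderiv ℝ (par s) (fs z) (fs v)), qn (fderiv ℝ (par t) (sn z) (sn v))) := by
  have h1 : HasFDerivAt (fs : (Fin (3 + 2) → ℝ) → _) (ContinuousLinearMap.pi fun i =>
    ContinuousLinearMap.proj (R := ℝ) (Fin.castAdd 2 i)) z :=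
    hasFDerivAt_pi.2 fun _ => hasFDerivAt_apply _ z
  have h2 : HasFDerivAt (sn : (Fin (3 + 2) → ℝ) → _) (ContinuousLinearMap.pi fun i =>
    ContinuousLinearMap.proj (R := ℝ) (Fin.natAdd 3 i)) z :=
    hasFDerivAt_pi.2 fun _ => hasFDerivAt_apply _ z
  exact DFunLike.congr_fun ((qa.hasFDerivAt.comp z
    (((contDiff_par s).differentiable_one _).hasFDerivAt.comp z h1)).prodMk (qn.hasFDerivAt.comp z
    (((contDiff_par t).differentiable_one _).hasFDerivAt.comp z h2))).fderiv v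

theorem pull_BR_PS {s t : ℝ} (hs : s ^ 2 = 1) (ht : t ^ 2 = 1) (z : Fin (3 + 2) → ℝ) :
    pull BR (PS s t) z = blk (sig (fs z) ^ 2 • 1) (sig (sn z) ^ 2 • 1) := by
  have e1 : ∀ a : Fin 3, fs (Pi.single (Fin.castAdd 2 a) (1 : ℝ)) = Pi.single a 1 := fun a => by
    funext b
    simp only [fs, Pi.single_apply, Fin.castAdd_inj]
  have e2 : ∀ a : Fin 3, sn (Pi.single (Fin.castAdd 2 a) (1 : ℝ)) = 0 := fun a => by
    funext b
    simp only [sn, Pi.single_apply, (cast_ne_nat _ _).symm, if_false, Pi.zero_apply]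
  have e3 : ∀ a : Fin 2, fs (Pi.single (Fin.natAdd 3 a) (1 : ℝ)) = 0 := fun a => by
    funext b
    simp only [fs, Pi.single_apply, cast_ne_nat, if_false, Pi.zero_apply]
  have e4 : ∀ a : Fin 2, sn (Pi.single (Fin.natAdd 3 a) (1 : ℝ)) = Pi.single a 1 := fun a => by
    funext b
    simp only [sn, Pi.single_apply, Fin.natAdd_inj]
  rw [← pull_amb hs, ← pull_amb ht]
  apply blk_ext <;> intro a b <;>
    simp only [pull, of_apply, BR_apply, fderiv_PS, ip_qa, ip_qn, e1, e2, e3, e4, map_zero,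
      LinearMap.zero_apply, add_zero, zero_add, blk_ll, blk_lr, blk_rl, blk_rr]

theorem CD_BT (s t : ℝ) (z : Fin (3 + 2) → ℝ) : CD ∞ (pull BT (PS s t)) z := by
  intro i j
  have hP := contDiff_PS s t
  have hD : ∀ i, ContDiff ℝ ∞ fun z => fderiv ℝ (PS s t) z (Pi.single i 1) := fun i =>
    (hP.fderiv_right (by simp)).clm_apply contDiff_const
  have hre : ∀ {f : (Fin (3 + 2) → ℝ) → Qt}, ContDiff ℝ ∞ f → ContDiff ℝ ∞ fun z => (f z).re :=
    fun hf => (ua.contDiff.comp hf).fst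
  have h1 := fun i => (contDiff_qstar.comp hP.fst).mul (hD i).fst
  have h2 := fun i => (hD i).snd.add (((h1 i).mul hP.snd).sub (hP.snd.mul (h1 i)))
  simp only [pull, of_apply, BT_apply]
  exact (((contDiff_const.mul (hre ((hD i).snd.mul (contDiff_qstar.comp (hD j).snd)))).add
    (contDiff_const.mul (hre ((h2 i).mul (contDiff_qstar.comp (h2 j)))))).add
    (contDiff_const.mul ((hre ((h1 i).mul hP.snd)).mul (hre ((h1 j).mul hP.snd))))).contDiffAt

theorem exists_euler {s t : ℝ} (hs : s ^ 2 = 1) (ht : t ^ 2 = 1) (z : Fin (3 + 2) → ℝ) :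
    ∃ (φ : (Fin 5 → ℝ) → Fin (3 + 2) → ℝ) (p q : Qt), normSq p = 1 ∧ normSq q = 1 ∧
      ContDiffAt ℝ ∞ φ 0 ∧ φ 0 = z ∧ PE p q =ᶠ[𝓝 0] fun y => PS s t (φ y) := by
  have n1 : normSq (PS s t z).1 = 1 := by
    rw [← par_mem hs (fs z)]
    simp [PS, qa_apply, normSq_def', nsq, Fin.sum_univ_three, add_assoc]
  have n2 : normSq (PS s t z).2 = 1 := by
    rw [← par_mem ht (sn z)]
    simp [PS, qn_apply, normSq_def', nsq, Fin.sum_univ_two, add_assoc]
  obtain ⟨q, hq, e⟩ := exists_rot (u := (PS s t z).2) rfl n2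
  have hp : normSq ((PS s t z).1 * q) = 1 := by rw [map_mul, n1, hq, one_mul]
  have e0 : PE ((PS s t z).1 * q) q 0 = PS s t z := by
    rw [PE_zero, e, mul_assoc, self_mul_star, hq, coe_one, mul_one]
  have c := contDiff_PE ((PS s t z).1 * q) q
  have c1 : ContDiff ℝ ∞ fun y => ua (PE ((PS s t z).1 * q) q y).1 := ua.contDiff.comp c.fst
  have c2 : ContDiff ℝ ∞ fun y => un (PE ((PS s t z).1 * q) q y).2 := un.contDiff.comp c.snd
  have d1 : 1 + s * (ua (PE ((PS s t z).1 * q) q 0).1).1 ≠ 0 := by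
    rw [e0, PS, ua_qa, par_den hs]
    exact (sig_pos _).ne'
  have d2 : 1 + t * (un (PE ((PS s t z).1 * q) q 0).2).1 ≠ 0 := by
    rw [e0, PS, un_qn, par_den ht]
    exact (sig_pos _).ne'
  refine ⟨fun y => Fin.append (ste s (ua (PE ((PS s t z).1 * q) q y).1))
    (ste t (un (PE ((PS s t z).1 * q) q y).2)), _, q, hp, hq,
    contDiffAt_append 3 2 (ContDiffAt.comp (g := ste s) 0 (contDiffAt_ste d1) c1.contDiffAt)
      (ContDiffAt.comp (g := ste t) 0 (contDiffAt_ste d2) c2.contDiffAt), ?_, ?_⟩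
  · simp only [e0]
    rw [PS, ua_qa, un_qn, ste_par hs, ste_par ht]
    exact Fin.append_castAdd_natAdd
  · filter_upwards [(continuous_const.add (continuous_const.mul
      c1.continuous.fst)).continuousAt.eventually_ne d1, (continuous_const.add
      (continuous_const.mul c2.continuous.fst)).continuousAt.eventually_ne d2] with y h1 h2
    obtain ⟨m1, m2, m3⟩ := PE_mem hp hq y
    simp only [Pi.add_apply, Pi.mul_apply] at h1 h2
    generalize PE ((PS s t z).1 * q) q y = w at *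
    rw [PS, fs_append, sn_append, par_ste hs _ h1, par_ste ht _ h2]
    · ext <;> simp [qa_apply, qn_apply, ua_apply, un_apply, m3]
    · rw [← m2]
      simp [un_apply, normSq_def', nsq, Fin.sum_univ_two, add_assoc, m3]
    · rw [← m1]
      simp [ua_apply, normSq_def', nsq, Fin.sum_univ_three, add_assoc]

theorem posDef_GE : (GE 0).PosDef := by
  have : GE 0 = diagonal ![2 / 3, 2 / 3, 2 / 3, 2 / 3, 4 / 9] := by
    rw [GE_zero]
    ext i j
    fin_cases i <;> fin_cases j <;> simp [cE]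
  rw [this, posDef_diagonal_iff]
  intro i
  fin_cases i <;> simp

theorem det_GE : (GE 0).det = 64 / 729 := by
  rw [GE_zero, ← Rat.coe_castHom, ← RingHom.mapMatrix_apply, ← RingHom.map_det,
    show (cE 0).det = 64 / 729 by decide +kernel]
  simp

theorem pull_local {s t : ℝ} {φ : (Fin 5 → ℝ) → Fin (3 + 2) → ℝ} {p q : Qt}
    (B : Qt × Qt → Qt × Qt →ₗ[ℝ] Qt × Qt →ₗ[ℝ] ℝ) (hφ : ContDiffAt ℝ ∞ φ 0)
    (h : PE p q =ᶠ[𝓝 0] fun y => PS s t (φ y)) :
    pull B (PE p q) =ᶠ[𝓝 0] fun y => (Jac φ y)ᵀ * pull B (PS s t) (φ y) * Jac φ y := by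
  filter_upwards [h.eventuallyEq_nhds, (hφ.of_le (m := 1) (by simp)).eventually (by simp)]
    with y h1 h2
  rw [pull_congr h1]
  exact pull_comp ((contDiff_PS s t).differentiable (by simp) _) (h2.differentiableAt one_ne_zero)

theorem cancel_conj {k : ℕ} {J A B : Matrix (Fin k) (Fin k) ℝ} (hJ : J.det ≠ 0)
    (h : Jᵀ * A * J = Jᵀ * B * J) : A = B := by
  have h1 := (isUnit_iff_isUnit_det J).2 (Ne.isUnit hJ)
  have h2 := (isUnit_iff_isUnit_det Jᵀ).2 (Ne.isUnit (by rwa [det_transpose]))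
  exact h2.mul_left_cancel (h1.mul_right_cancel h)

theorem BT_pos {s t : ℝ} (hs : s ^ 2 = 1) (ht : t ^ 2 = 1) (z : Fin (3 + 2) → ℝ) :
    (pull BT (PS s t) z).PosDef ∧
      (pull BT (PS s t) z).det = (2 / 27 * sig (fs z) ^ 3 * sig (sn z) ^ 2) ^ 2 := by
  obtain ⟨φ, p, q, hp, hq, hφ, rfl, h⟩ := exists_euler hs ht z
  have e1 := (pull_local BT hφ h).eq_of_nhds
  have e2 := congrArg det (pull_local BR hφ h).eq_of_nhds
  rw [pull_BT_PE hp hq] at e1
  have e3 := congrArg det e1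
  have e4 : (pull BR (PS s t) (φ 0)).det = sig (fs (φ 0)) ^ 6 * sig (sn (φ 0)) ^ 4 := by
    rw [pull_BR_PS hs ht, det_blk, det_smul, det_smul, det_one, det_one, Fintype.card_fin,
      Fintype.card_fin]
    ring
  simp only [pull_BR_PE hp hq, det_GE, det_mul, det_transpose] at e2 e3
  erw [e4] at e2
  have hJ : (Jac φ 0).det ≠ 0 := fun h0 => by simp [h0] at e2
  constructor
  · have hu := Ne.isUnit hJ
    have := posDef_GE.conjTranspose_mul_mul_same (B := (Jac φ 0)⁻¹) (mulVec_injective_iff_isUnit.2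
      ((isUnit_nonsing_inv_iff).2 ((isUnit_iff_isUnit_det _).2 hu)))
    rwa [e1, conjTranspose_eq_transpose_of_trivial, ← Matrix.mul_assoc, ← Matrix.mul_assoc,
      ← transpose_mul, mul_nonsing_inv _ hu, transpose_one, Matrix.one_mul,
      mul_nonsing_inv_cancel_right _ _ hu] at this
  · refine mul_left_cancel₀ (pow_ne_zero 2 hJ) ?_
    linear_combination (4 / 729) * e2 - e3

theorem BT_ric {s t : ℝ} (hs : s ^ 2 = 1) (ht : t ^ 2 = 1) (z : Fin (3 + 2) → ℝ) :
    Matrix.of (Ric (pull BT (PS s t)) z) = (4 : ℝ) • pull BT (PS s t) z := by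
  obtain ⟨φ, p, q, hp, hq, hφ, rfl, h⟩ := exists_euler hs ht z
  have e1 := pull_local BT hφ h
  rw [pull_BT_PE hp hq] at e1
  have hJ : (Jac φ 0).det ≠ 0 := fun h0 => by
    have := congrArg det e1.eq_of_nhds
    simp [h0, det_GE] at this
  have := Ric_pullback (hφ.of_le three_le_inf) ((CD_BT s t _).of_le two_le_inf)
    (fun y => symm_of_posDef (BT_pos hs ht y).1) (BT_pos hs ht _).1.det_pos.ne' hJ e1
  rw [Ric_GE, e1.eq_of_nhds] at this
  refine cancel_conj hJ (this.symm.trans ?_)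
  rw [Matrix.mul_smul, smul_mul]

theorem t11_edata : EData M5 4 (cV * (2 / 27 * (π / 2))) := by
  refine ⟨fun p => pull BT (PS (sg p.1) (sg p.2)), ⟨fun p => CD_BT _ _,
    fun p z => (BT_pos (sg_sq _) (sg_sq _) z).1, fun p q => pull_compat (X := M5) BT
      (ι := fun q => (qa q.1.1, qn q.2.1))
      (fun p => (contDiff_PS (sg p.1) (sg p.2)).differentiable (by simp)) p q⟩,
    fun p => BT_ric (sg_sq _) (sg_sq _), ?_⟩
  rw [volume_radial (w := fun τ => 2 / 27 * (2 / (1 + τ)) ^ 3) (fun τ _ => by positivity)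
    (continuous_const.mul ((contDiff_sig (k := 0)).continuous.pow 3)) fun z => ?_,
    ← integral_round, ← integral_const_mul (2 / 27 : ℝ)]
  · congr 1
    exact integral_congr_ae (Eventually.of_forall fun r => by ring)
  · have h1 := sig_pos (fs z)
    have h2 := sig_pos (sn z)
    rw [dens, (BT_pos (sg_sq _) (sg_sq _) z).2, sqrt_sq (by positivity)]
    rfl

end Pool.Agent.Lib.MP_1301ff_gt
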