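import Pool.Agent.Lib.MP_1301ff_gt.Bridge

set_option autoImplicit false

namespace Pool.Agent.Lib.MP_1301ff_gt

open Filter Topology Matrix Set MeasureTheory
open scoped ContDiff Manifold

variable {n : ℕ}

theorem det_fderiv {φ : (Fin n → ℝ) → Fin n → ℝ} {x : Fin n → ℝ} (hφ : DifferentiableAt ℝ φ x) :
    (fderiv ℝ φ x).det = (Jac φ x).det := by
  rw [ContinuousLinearMap.det, ← LinearMap.det_toMatrix']
  congr 1
  ext a i
  simp [Jac_apply hφ]

/-- The volume density of a metric in coordinates. -/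
noncomputable def dens (G : MF n) (x : Fin n → ℝ) : ENNReal := ENNReal.ofReal √(G x).det

theorem measurable_dens {G : MF n} (h : ∀ x, CD ∞ G x) : Measurable (dens G) :=
  (continuous_iff_continuousAt.2 fun x => (h x).det.continuousAt).sqrt.measurable.ennreal_ofReal

variable {M : Type} [TopologicalSpace M] [ChartedSpace (Fin n → ℝ) M]
  [IsManifold 𝓘(ℝ, Fin n → ℝ) ∞ M]

theorem MData.exists_volume [MeasurableSpace M] [BorelSpace M] {G : M → MF n} (h : MData G)
    (ht : ∀ p : M, (chartAt (Fin n → ℝ) p).target = univ) (o : M)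
    (ho : ∀ p : M, ∀ᵐ x, (chartAt (Fin n → ℝ) p).symm x ∈ (chartAt (Fin n → ℝ) o).source) :
    ∃ μ : Measure M, IsVolume h.metric μ ∧ μ univ = ∫⁻ x, dens (G o) x := by
  have hc : ∀ p : M, Continuous (chartAt (Fin n → ℝ) p).symm := fun p =>
    continuousOn_univ.1 (ht p ▸ (chartAt (Fin n → ℝ) p).continuousOn_symm)
  have hm : ∀ p : M, ∀ x, x ∈ (chartAt (Fin n → ℝ) p).target := fun p x => ht p ▸ mem_univ x
  refine ⟨(volume.withDensity (dens (G o))).map (chartAt (Fin n → ℝ) o).symm, fun p => ?_, ?_⟩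
  · have hs := (chartAt (Fin n → ℝ) p).open_source.measurableSet
    have e0 : (fun x => ENNReal.ofReal √(coeff h.metric p x).det) = dens (G p) :=
      funext fun x => by rw [h.coeff_metric p (hm p x), dens]
    rw [e0, ht, Measure.restrict_univ]
    ext S hS
    have hU : IsOpen ((chartAt (Fin n → ℝ) p).symm ⁻¹' (chartAt (Fin n → ℝ) o).source) :=
      (chartAt (Fin n → ℝ) o).open_source.preimage (hc p)
    have hS' : MeasurableSet ((chartAt (Fin n → ℝ) p) ⁻¹' S ∩ (chartAt (Fin n → ℝ) p).source) := by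
      have : (chartAt (Fin n → ℝ) p) ⁻¹' S ∩ (chartAt (Fin n → ℝ) p).source =
          (chartAt (Fin n → ℝ) p).symm '' S := by
        rw [inter_comm, ← (chartAt (Fin n → ℝ) p).symm_image_eq_source_inter_preimage
          (ht p ▸ subset_univ S)]
      rw [this]
      exact ((chartAt (Fin n → ℝ) p).symm.isOpenEmbedding_restrict.measurableEmbedding.comp
        (MeasurableEmbedding.id)).measurableSet_image'
        (s := Subtype.val ⁻¹' S) (measurable_subtype_coe hS) |>.congr (by
          ext q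
          simp only [mem_image, mem_preimage, Function.comp_apply, id, Subtype.exists]
          exact ⟨fun ⟨x, _, h1, h2⟩ => ⟨x, h1, h2⟩, fun ⟨x, h1, h2⟩ => ⟨x, hm p x, h1, h2⟩⟩)
    rw [Measure.map_apply_of_aemeasurable
      ((chartAt (Fin n → ℝ) p).continuousOn.aemeasurable hs) hS, Measure.restrict_apply' hs,
      Measure.map_apply (hc o).measurable hS', withDensity_apply _ ((hc o).measurable hS'),
      withDensity_apply _ hS]
    have e1 : (chartAt (Fin n → ℝ) o).symm ⁻¹'
        ((chartAt (Fin n → ℝ) p) ⁻¹' S ∩ (chartAt (Fin n → ℝ) p).source) =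
        tr p o '' (S ∩ (chartAt (Fin n → ℝ) p).symm ⁻¹' (chartAt (Fin n → ℝ) o).source) := by
      ext y
      constructor
      · rintro ⟨h1, h2⟩
        refine ⟨_, ⟨h1, ?_⟩, ?_⟩
        · rw [mem_preimage, (chartAt (Fin n → ℝ) p).left_inv h2]
          exact (chartAt (Fin n → ℝ) o).map_target (hm o y)
        · rw [tr, (chartAt (Fin n → ℝ) p).left_inv h2, (chartAt (Fin n → ℝ) o).right_inv (hm o y)]
      · rintro ⟨x, ⟨h1, h2⟩, rfl⟩
        rw [mem_preimage, tr, (chartAt (Fin n → ℝ) o).left_inv h2]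
        exact ⟨by rwa [mem_preimage, (chartAt (Fin n → ℝ) p).right_inv (hm p x)],
          (chartAt (Fin n → ℝ) p).map_target (hm p x)⟩
    have hd : ∀ x ∈ (chartAt (Fin n → ℝ) p).symm ⁻¹' (chartAt (Fin n → ℝ) o).source,
        DifferentiableAt ℝ (tr p o) x := fun x hx =>
      (contDiffAt_tr (hm p x) hx).differentiableAt (by simp)
    rw [e1, lintegral_image_eq_lintegral_abs_det_fderiv_mul volume (hS.inter hU.measurableSet)
      (fun x hx => (hd x hx.2).hasFDerivAt.hasFDerivWithinAt), setLIntegral_congr (s := S)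
      (inter_ae_eq_left_of_ae_eq_univ (ae_eq_univ.2 (ho p))).symm]
    · refine setLIntegral_congr_fun (hS.inter hU.measurableSet) fun x hx => ?_
      simp only [dens]
      rw [← ENNReal.ofReal_mul (abs_nonneg _), det_fderiv (hd x hx.2), h.compat p o x hx.2,
        det_mul, det_mul, det_transpose, mul_right_comm, ← sq, Real.sqrt_mul (sq_nonneg _),
        Real.sqrt_sq_eq_abs]
    · intro x hx y hy hxy
      exact (chartAt (Fin n → ℝ) p).symm.injOn (hm p x) (hm p y)
        ((chartAt (Fin n → ℝ) o).injOn hx.2 hy.2 hxy)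
  · rw [Measure.map_apply (hc o).measurable MeasurableSet.univ, preimage_univ,
      withDensity_apply _ MeasurableSet.univ, Measure.restrict_univ]

theorem MData.mem_einsteinConstants [MeasurableSpace M] [BorelSpace M] {G : M → MF n}
    (h : MData G) (ht : ∀ p : M, (chartAt (Fin n → ℝ) p).target = univ) (o : M)
    (ho : ∀ p : M, ∀ᵐ x, (chartAt (Fin n → ℝ) p).symm x ∈ (chartAt (Fin n → ℝ) o).source)
    {c : ℝ} (hE : ∀ p x, Matrix.of (Ric (G p) x) = c • G p x) :
    c * (∫⁻ x, dens (G o) x).toReal ^ ((2 : ℝ) / n) ∈ einsteinConstants n M := by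
  obtain ⟨μ, h1, h2⟩ := h.exists_volume ht o ho
  refine ⟨h.metric, c, μ, fun p x _ j k => ?_, h1, by rw [h2]⟩
  have : coeff h.metric p = G p := funext fun y => h.coeff_metric p (ht p ▸ mem_univ y)
  rw [this]
  exact congrFun (congrFun (hE p x) j) k

end Pool.Agent.Lib.MP_1301ff_gt
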