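import Pool.Agent.Lib.MP_1301ff_gt.Diag

set_option autoImplicit false

namespace Pool.Agent.Lib.MP_1301ff_gt

open Filter Topology Matrix Set Real MeasureTheory
open scoped ContDiff

variable {n : ℕ}

/-- Smoothness on the closed half line. -/
def SmH (g : ℝ → ℝ) : Prop := ∀ τ, 0 ≤ τ → ContDiffAt ℝ ∞ g τ

theorem SmH.deriv {g : ℝ → ℝ} (h : SmH g) : SmH (deriv g) := fun τ hτ =>
  (h τ hτ).derivWithin (by simp)

theorem SmH.rad {g : ℝ → ℝ} (h : SmH g) : ContDiff ℝ ∞ fun x : Fin n → ℝ => g (nsq x) :=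
  contDiff_iff_contDiffAt.2 fun x => (h _ (nsq_nonneg x)).comp x contDiff_nsq.contDiffAt

theorem SmH.diff {g : ℝ → ℝ} (h : SmH g) (x : Fin n → ℝ) :
    DifferentiableAt ℝ (fun x : Fin n → ℝ => g (nsq x)) x :=
  h.rad.differentiable (by simp) x

theorem SmH.pd1 {g : ℝ → ℝ} (h : SmH g) (m : Fin n) :
    pd m (fun x : Fin n → ℝ => g (nsq x)) = fun x => 2 * x m * _root_.deriv g (nsq x) := by
  funext x
  rw [pd_scomp ((h _ (nsq_nonneg x)).differentiableAt (by simp)).hasDerivAt
    (contDiff_nsq.differentiable_one x), pd_nsq, mul_comm]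

theorem SmH.pd2 {g : ℝ → ℝ} (h : SmH g) (m l : Fin n) (x : Fin n → ℝ) :
    pd m (fun x : Fin n → ℝ => 2 * x l * _root_.deriv g (nsq x)) x =
      (if l = m then 2 * _root_.deriv g (nsq x) else 0) +
        4 * x l * x m * _root_.deriv (_root_.deriv g) (nsq x) := by
  rw [pd_mul (by fun_prop) (h.deriv.diff x), pd_mul (by fun_prop) (by fun_prop), pd_const,
    pd_coord, h.deriv.pd1]
  split_ifs <;> ring

theorem contDiff_log_sig : ContDiff ℝ ∞ fun y : Fin n → ℝ => log (sig y) :=
  contDiff_sig.log fun y => (sig_pos y).ne'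

theorem pd_log_sig (m : Fin n) : pd m (fun y : Fin n → ℝ => log (sig y)) = fun y => -sig y * y m := by
  funext y
  have := (sig_pos y).ne'
  rw [pd_scomp (hasDerivAt_log this) (contDiff_sig.differentiable_one y), pd_sig]
  field_simp

theorem pd_log_sig2 (m l : Fin n) (y : Fin n → ℝ) : pd m (fun y : Fin n → ℝ => -sig y * y l) y =
    sig y ^ 2 * y l * y m - if l = m then sig y else 0 := by
  have := (contDiff_sig (n := n)).differentiable_one y
  simp only [← neg_one_mul (sig _)]
  rw [pd_mul (by fun_prop) (by fun_prop), pd_mul (by fun_prop) this, pd_const, pd_coord, pd_sig]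
  split_ifs <;> ring

/-- Radial data of an Einstein metric `e^{2α} dx² + e^{2β} g_{S²}`. -/
structure Radial (α β : ℝ → ℝ) : Prop where
  sa : SmH α
  sb : SmH β
  e1 : ∀ τ, 0 ≤ τ → -8 * deriv α τ - 4 * τ * deriv (deriv α) τ - 4 * τ * deriv α τ ^ 2 -
    4 * deriv β τ - 8 * τ * deriv α τ * deriv β τ = 4 * exp (2 * α τ)
  e2 : ∀ τ, 0 ≤ τ → -deriv (deriv α) τ + deriv α τ ^ 2 - 2 * deriv (deriv β) τ -
    2 * deriv β τ ^ 2 + 4 * deriv α τ * deriv β τ = 0
  e3 : ∀ τ, 0 ≤ τ → 1 - exp (2 * β τ - 2 * α τ) * (6 * deriv β τ + 4 * τ * deriv (deriv β) τ +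
    8 * τ * deriv β τ ^ 2 + 4 * τ * deriv α τ * deriv β τ) = 4 * exp (2 * β τ)
  inv : ∀ τ, 0 < τ → α τ⁻¹ = α τ + log τ ∧ β τ⁻¹ = β τ

noncomputable def uW (α β : ℝ → ℝ) : Fin (3 + 2) → (Fin (3 + 2) → ℝ) → ℝ :=
  Fin.addCases (fun _ z => α (nsq (fs z))) fun _ z => β (nsq (fs z)) + log (sig (sn z))

theorem dmet_uW (α β : ℝ → ℝ) (z : Fin (3 + 2) → ℝ) : dmet (uW α β) z =
    blk (exp (2 * α (nsq (fs z))) • 1) ((exp (2 * β (nsq (fs z))) * sig (sn z) ^ 2) • 1) := by
  have e : exp (2 * (β (nsq (fs z)) + log (sig (sn z)))) =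
      exp (2 * β (nsq (fs z))) * sig (sn z) ^ 2 := by
    rw [mul_add, exp_add, show 2 * log (sig (sn z)) = (2 : ℕ) * log (sig (sn z)) by simp,
      exp_nat_mul, exp_log (sig_pos _)]
  apply blk_ext <;> intro a b <;>
    simp only [dmet, uW, diagonal_apply, Fin.addCases_left, Fin.addCases_right, blk_ll, blk_lr,
      blk_rl, blk_rr, Fin.castAdd_inj, Fin.natAdd_inj, cast_ne_nat, (cast_ne_nat _ _).symm,
      if_false, Matrix.smul_apply, one_apply, smul_eq_mul, mul_ite, mul_one, mul_zero, e]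

theorem Radial.ric {α β : ℝ → ℝ} (h : Radial α β) (z : Fin (3 + 2) → ℝ) :
    Matrix.of (Ric (dmet (uW α β)) z) = (4 : ℝ) • dmet (uW α β) z := by
  have dl : ∀ y : Fin 2 → ℝ, DifferentiableAt ℝ (fun y => log (sig y)) y :=
    contDiff_log_sig.differentiable (by simp)
  have df := (contDiff_fs (m := 3) (n := 2)).differentiable_one
  have ds := (contDiff_sn (m := 3) (n := 2)).differentiable_one
  have hu : ∀ i, ContDiff ℝ ∞ (uW α β i) := fun i => by
    induction i using Fin.addCases with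
    | left i =>
      simp only [uW, Fin.addCases_left]
      exact h.sa.rad.comp contDiff_fs
    | right i =>
      simp only [uW, Fin.addCases_right]
      exact (h.sb.rad.comp contDiff_fs).add (contDiff_log_sig.comp contDiff_sn)
  have e1 : ∀ m a y, pd m (uW α β a) y = dW (fs y) (sn y) (deriv α (nsq (fs y)))
      (deriv β (nsq (fs y))) (sig (sn y)) m a := fun m a y => by
    induction m using Fin.addCases <;> induction a using Fin.addCases <;>
      simp only [uW, dW, Fin.addCases_left, Fin.addCases_right]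
    · rw [pd_fs_l (h.sa.diff _), h.sa.pd1]
    · rw [pd_add ((h.sb.diff _).fun_comp' y (df y)) ((dl _).fun_comp' y (ds y)),
        pd_fs_l (h.sb.diff _), pd_sn_l (dl _), h.sb.pd1, add_zero]
    · rw [pd_fs_r (h.sa.diff _)]
    · rw [pd_add ((h.sb.diff _).fun_comp' y (df y)) ((dl _).fun_comp' y (ds y)),
        pd_fs_r (h.sb.diff _), pd_sn_r (dl _), pd_log_sig, zero_add]
  have e2 : ∀ m l a, pd m (pd l (uW α β a)) z = eW (fs z) (sn z) (deriv α (nsq (fs z)))
      (deriv β (nsq (fs z))) (deriv (deriv α) (nsq (fs z))) (deriv (deriv β) (nsq (fs z)))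
      (sig (sn z)) m l a := fun m l a => by
    have d1 : ∀ {g : ℝ → ℝ}, SmH g → ∀ l : Fin 3, DifferentiableAt ℝ
        (fun x : Fin 3 → ℝ => 2 * x l * deriv g (nsq x)) (fs z) := fun hg l =>
      DifferentiableAt.fun_mul (by fun_prop) (hg.deriv.diff _)
    have d2 : ∀ l : Fin 2, DifferentiableAt ℝ (fun y : Fin 2 → ℝ => -sig y * y l) (sn z) :=
      fun l => (contDiff_sig.differentiable_one _).fun_neg.fun_mul (by fun_prop)
    rw [funext (e1 l a)]
    induction m using Fin.addCases <;> induction l using Fin.addCases <;>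
      induction a using Fin.addCases <;>
      simp only [dW, eW, Fin.addCases_left, Fin.addCases_right, pd_const]
    · exact (pd_fs_l (d1 h.sa _) _).trans (h.sa.pd2 _ _ _)
    · exact (pd_fs_l (d1 h.sb _) _).trans (h.sb.pd2 _ _ _)
    · exact pd_sn_l (d2 _) _
    · exact pd_fs_r (d1 h.sa _) _
    · exact pd_fs_r (d1 h.sb _) _
    · exact (pd_sn_r (d2 _) _).trans (pd_log_sig2 _ _ _)
  have e3 : exp (2 * (β (nsq (fs z)) + log (sig (sn z))) - 2 * α (nsq (fs z))) =
      exp (2 * β (nsq (fs z)) - 2 * α (nsq (fs z))) * sig (sn z) ^ 2 := by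
    rw [← exp_log (sig_pos (sn z)), ← exp_nat_mul, ← exp_add, log_exp]
    congr 1
    push_cast
    ring
  have e4 : (fun i k => exp (2 * uW α β i z - 2 * uW α β k z)) =
      cW (exp (2 * β (nsq (fs z)) - 2 * α (nsq (fs z))) * sig (sn z) ^ 2) := by
    funext i k
    induction i using Fin.addCases <;> induction k using Fin.addCases <;>
      simp only [uW, cW, Fin.addCases_left, Fin.addCases_right, sub_self, exp_zero, ← e3,
        ← Real.exp_neg, neg_sub]
  have hτ := nsq_nonneg (fs z)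
  rw [Ric_dmet hu, e4, funext₂ fun m a => e1 m a z, funext₃ e2, ricD_W, dmet_uW, blk_smul,
    h.e1 _ hτ, h.e2 _ hτ, smul_smul, smul_smul]
  congr 1
  · ext i j
    simp [one_apply]
  · congr 1
    linear_combination sig (sn z) ^ 2 * h.e3 _ hτ - sig (sn z) * sig_mul (sn z)

/-- The manifold `S³ × S²`. -/
noncomputable def M5 : Mfd (3 + 2) := (sph 2).prod (sph 1)

theorem integral_radial (k : ℕ) (w : ℝ → ℝ) : ∫ x : Fin (k + 1) → ℝ, w (nsq x) =
    (k + 1) * (volume : Measure (EuclideanSpace ℝ (Fin (k + 1)))).real (Metric.ball 0 1) *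
      ∫ r in Ioi (0 : ℝ), r ^ k * w (r ^ 2) := by
  have := integral_fun_norm_addHaar (volume : Measure (EuclideanSpace ℝ (Fin (k + 1))))
    fun r => w (r ^ 2)
  rw [← (PiLp.volume_preserving_toLp (Fin (k + 1))).integral_comp
    (MeasurableEquiv.toLp 2 _).measurableEmbedding] at this
  simpa [EuclideanSpace.norm_sq_eq, nsq, mul_assoc] using this

/-- The common factor of all volumes. -/
noncomputable def cV : ℝ :=
  3 * (volume : Measure (EuclideanSpace ℝ (Fin 3))).real (Metric.ball 0 1) *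
    ∫ y : Fin 2 → ℝ, sig y ^ 2

theorem ball_pos (k : ℕ) :
    0 < (volume : Measure (EuclideanSpace ℝ (Fin k))).real (Metric.ball 0 1) :=
  ENNReal.toReal_pos (Metric.measure_ball_pos _ _ one_pos).ne' measure_ball_lt_top.ne

theorem cV_pos : 0 < cV := by
  have h1 : ∫ r in Ioi (0 : ℝ), r ^ 1 * (2 / (1 + r ^ 2)) ^ 2 = 0 - -2 / (1 + 0 ^ 2) := by
    refine integral_Ioi_of_hasDerivAt_of_nonneg' (g := fun r => -2 / (1 + r ^ 2))
      (fun r _ => ?_) (fun r hr => by have : (0 : ℝ) < r := hr; positivity) ?_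
    · have : (1 + r ^ 2) ≠ 0 := by positivity
      refine ((hasDerivAt_const r (-2 : ℝ)).div (((hasDerivAt_id r).pow 2).const_add 1)
        this).congr_deriv ?_
      simp only [id, Pi.pow_apply]
      field_simp
      norm_num
      ring
    · exact tendsto_const_nhds.div_atTop
        (tendsto_atTop_add_const_left _ _ (tendsto_pow_atTop two_ne_zero))
  have h2 := integral_radial 1 fun τ => (2 / (1 + τ)) ^ 2
  rw [h1] at h2
  refine mul_pos (mul_pos three_pos (ball_pos 3)) (lt_of_lt_of_eq ?_ h2.symm)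
  have := ball_pos (1 + 1)
  norm_num
  positivity

theorem volume_radial {w : ℝ → ℝ} (h0 : ∀ τ, 0 ≤ τ → 0 ≤ w τ)
    (hc : Continuous fun x : Fin 3 → ℝ => w (nsq x)) {ρ : (Fin (3 + 2) → ℝ) → ENNReal}
    (hρ : ∀ z, ρ z = ENNReal.ofReal (w (nsq (fs z)) * sig (sn z) ^ 2)) :
    (∫⁻ z, ρ z).toReal = cV * ∫ r in Ioi (0 : ℝ), r ^ 2 * w (r ^ 2) := by
  have c2 : Continuous fun y : Fin 2 → ℝ => sig y ^ 2 := (contDiff_sig (k := 0)).continuous.pow 2
  simp only [hρ, ENNReal.ofReal_mul (h0 _ (nsq_nonneg _))]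
  rw [lintegral_split hc.measurable.ennreal_ofReal c2.measurable.ennreal_ofReal, ENNReal.toReal_mul,
    ← integral_eq_lintegral_of_nonneg_ae (Eventually.of_forall fun x => h0 _ (nsq_nonneg x))
      hc.aestronglyMeasurable,
    ← integral_eq_lintegral_of_nonneg_ae (Eventually.of_forall fun y => sq_nonneg _)
      c2.aestronglyMeasurable, integral_radial 2 w, cV]
  norm_num
  ring

theorem Radial.edata {α β : ℝ → ℝ} (h : Radial α β) :
    EData M5 4 (cV * ∫ r in Ioi (0 : ℝ), r ^ 2 * exp (3 * α (r ^ 2) + 2 * β (r ^ 2))) := by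
  set T : Sph 3 → ℝ := fun q => (1 - |q.1.1|) / (1 + |q.1.1|) with hT
  have key : ∀ (p : Sph 3) (x : Fin 3 → ℝ),
      exp (2 * α (T ((chartAt (Fin 3 → ℝ) p).symm x))) *
        (1 + T ((chartAt (Fin 3 → ℝ) p).symm x)) ^ 2 / 4 = exp (2 * α (nsq x)) / sig x ^ 2 ∧
      exp (2 * β (T ((chartAt (Fin 3 → ℝ) p).symm x))) = exp (2 * β (nsq x)) := by
    intro p x
    have h1 := one_add_nsq x
    have e : |((chartAt (Fin 3 → ℝ) p).symm x).1.1| = |1 - nsq x| / (1 + nsq x) := by
      change |sg p * (1 - nsq x) / (1 + nsq x)| = _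
      rw [abs_div, abs_mul, abs_of_pos h1]
      rcases sg_cases p with h | h <;> simp [h]
    rcases le_total (nsq x) 1 with hx | hx
    · have : T ((chartAt (Fin 3 → ℝ) p).symm x) = nsq x := by
        simp only [hT, e, abs_of_nonneg (sub_nonneg.2 hx)]
        field_simp
        ring
      rw [this, sig]
      exact ⟨by field_simp; norm_num, rfl⟩
    · have h0 : 0 < nsq x := by linarith
      have : T ((chartAt (Fin 3 → ℝ) p).symm x) = (nsq x)⁻¹ := by
        simp only [hT, e, abs_of_nonpos (sub_nonpos.2 hx)]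
        rw [div_eq_iff (by have := div_nonneg (neg_nonneg.2 (sub_nonpos.2 hx)) h1.le; positivity)]
        field_simp
        ring
      rw [this, sig, (h.inv _ h0).1, (h.inv _ h0).2, mul_add, exp_add,
        show 2 * log (nsq x) = (2 : ℕ) * log (nsq x) by simp, exp_nat_mul, exp_log h0]
      exact ⟨by field_simp; ring, rfl⟩
  have hM := MData.warp (X := sph 2) (Y := sph 1) (round_data 2) (round_data 1)
    (f := fun q => exp (2 * α (T q)) * (1 + T q) ^ 2 / 4) (h := fun q => exp (2 * β (T q)))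
    (fun q => by
      have h1 : 0 < 1 + |q.1.1| := by positivity
      have : 1 + T q = 2 / (1 + |q.1.1|) := by
        simp only [hT]
        field_simp
        ring
      rw [this]
      positivity)
    (fun q => exp_pos _)
    (fun p => (funext fun x => (key p x).1) ▸ (contDiff_const.mul h.sa.rad).exp.div
      (contDiff_sig.pow 2) fun x => (pow_pos (sig_pos x) 2).ne')
    (fun p => (funext fun x => (key p x).2) ▸ (contDiff_const.mul h.sb.rad).exp)
  refine ⟨fun _ => dmet (uW α β), cast (congrArg _ (funext₂ fun p z => ?_)) hM,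
    fun _ => h.ric, ?_⟩
  · have := (sig_pos (fs (m := 3) (n := 2) z)).ne'
    rw [dmet_uW, smul_smul, smul_smul]
    congr 2
    · exact (congrArg (· * _) (key p.1 _).1).trans (by field_simp)
    · exact congrArg (· * _) (key p.1 _).2
  · refine volume_radial (w := fun τ => exp (3 * α τ + 2 * β τ)) (fun _ _ => (exp_pos _).le)
      ((contDiff_const.mul h.sa.rad).add (contDiff_const.mul h.sb.rad)).exp.continuous fun z => ?_
    beta_reduce
    rw [dens, dmet_uW, det_blk, det_smul, det_smul, det_one, det_one]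
    congr 1
    rw [sqrt_eq_iff_mul_self_eq (by positivity) (by positivity)]
    simp only [Fintype.card_fin, mul_pow, ← exp_nat_mul, exp_add]
    have e1 : ∀ t, exp (((3 : ℕ) : ℝ) * (2 * t)) = exp (3 * t) * exp (3 * t) := fun t => by
      rw [← exp_add]; congr 1; push_cast; ring
    have e2 : ∀ t, exp (((2 : ℕ) : ℝ) * (2 * t)) = exp (2 * t) * exp (2 * t) := fun t => by
      rw [← exp_add]; congr 1; push_cast; ring
    rw [e1, e2]
    ring

end Pool.Agent.Lib.MP_1301ff_gt
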